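import Pool.Agent.Y477.IW.GPDef
import Pool.Agent.Y110.KW.Par

/-!
Graph products of copies of a group over an invariant graph: the retractions.
-/

namespace Pool.Agent.Y477.IW

open Monoid Pointwise

variable {X : Type}

section

variable {P : Type} [Group P] {Λ : SimpleGraph X}

/-- The identification with the graph product in the sense of `KW`. -/
noncomputable def toKW (P : Type) [Group P] (Λ : SimpleGraph X) :
    GProd P Λ →* Y110.KW.Quo (Y110.KW.graphRel (P := fun _ : X => P) Λ) :=
  MonoidHom.id (Y110.KW.Quo (Y110.KW.graphRel (P := fun _ : X => P) Λ))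

/-- The identification with the graph product in the sense of `KW`. -/
noncomputable def ofKW (P : Type) [Group P] (Λ : SimpleGraph X) :
    Y110.KW.Quo (Y110.KW.graphRel (P := fun _ : X => P) Λ) →* GProd P Λ :=
  MonoidHom.id (Y110.KW.Quo (Y110.KW.graphRel (P := fun _ : X => P) Λ))

theorem gp_ext {H : Type} [Monoid H] {f g : GProd P Λ →* H}
    (h : ∀ v (x : P), f (gpOf P Λ v x) = g (gpOf P Λ v x)) : f = g := by
  apply QuotientGroup.monoidHom_ext
  apply CoprodI.ext_hom
  intro v
  ext1 x
  exact h v x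

/-- The retraction. -/
noncomputable def gpRet (P : Type) [Group P] (Λ : SimpleGraph X) (S : Set X) :
    GProd P Λ →* GProd P Λ :=
  (ofKW P Λ).comp ((Y110.KW.ret (Y110.KW.graphRel_local (P := fun _ : X => P) Λ) S).comp
    (toKW P Λ))

theorem gpRet_mem {S : Set X} {v : X} (h : v ∈ S) (x : P) :
    gpRet P Λ S (gpOf P Λ v x) = gpOf P Λ v x :=
  Y110.KW.ret_fac_mem (Y110.KW.graphRel_local (P := fun _ : X => P) Λ) h x

theorem gpRet_notMem {S : Set X} {v : X} (h : v ∉ S) (x : P) :
    gpRet P Λ S (gpOf P Λ v x) = 1 :=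
  Y110.KW.ret_fac_notMem (Y110.KW.graphRel_local (P := fun _ : X => P) Λ) h x

/-- Homomorphisms out of the graph product. -/
noncomputable def gpLift {H : Type} [Group H] (f : X → (P →* H))
    (hf : ∀ u v, Λ.Adj u v → ∀ x y, Commute (f u x) (f v y)) : GProd P Λ →* H :=
  QuotientGroup.lift _ (CoprodI.lift f) (by
    intro r hr
    have h1 : Subgroup.normalClosure (gpRel P Λ) ≤ (CoprodI.lift f).ker := by
      apply Subgroup.normalClosure_le_normal
      rintro _ ⟨u, v, huv, x, y, rfl⟩
      change CoprodI.lift f _ = 1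
      simp only [map_mul, map_inv, CoprodI.lift_of]
      rw [(hf u v huv x y).eq]
      group
    exact h1 hr)

theorem gpLift_of {H : Type} [Group H] (f : X → (P →* H))
    (hf : ∀ u v, Λ.Adj u v → ∀ x y, Commute (f u x) (f v y)) (v : X) (x : P) :
    gpLift f hf (gpOf P Λ v x) = f v x := by
  change CoprodI.lift f (CoprodI.of x) = _
  rw [CoprodI.lift_of]

theorem gp_commute {u v : X} (h : Λ.Adj u v) (x y : P) :
    Commute (gpOf P Λ u x) (gpOf P Λ v y) :=
  Y110.KW.gp_comm (P := fun _ : X => P) Λ h x y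

variable {Γ : Type} [Group Γ] [MulAction Γ X]

/-- The action of `γ`. -/
noncomputable def gpShift (hΛ : ∀ (γ : Γ) (u v : X), Λ.Adj u v → Λ.Adj (γ • u) (γ • v)) (γ : Γ) :
    GProd P Λ →* GProd P Λ :=
  gpLift (fun v => gpOf P Λ (γ • v)) (fun u v h x y => gp_commute (hΛ γ u v h) x y)

theorem gpShift_of (hΛ : ∀ (γ : Γ) (u v : X), Λ.Adj u v → Λ.Adj (γ • u) (γ • v)) (γ : Γ) (v : X)
    (x : P) : gpShift hΛ γ (gpOf P Λ v x) = gpOf P Λ (γ • v) x := gpLift_of _ _ v x

theorem gpShift_mul (hΛ : ∀ (γ : Γ) (u v : X), Λ.Adj u v → Λ.Adj (γ • u) (γ • v)) (γ δ : Γ) :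
    (gpShift (P := P) hΛ γ).comp (gpShift hΛ δ) = gpShift hΛ (γ * δ) := by
  apply gp_ext
  intro v x
  rw [MonoidHom.comp_apply, gpShift_of, gpShift_of, gpShift_of, mul_smul]

theorem gpShift_one (hΛ : ∀ (γ : Γ) (u v : X), Λ.Adj u v → Λ.Adj (γ • u) (γ • v)) :
    gpShift (P := P) hΛ (1 : Γ) = MonoidHom.id _ := by
  apply gp_ext
  intro v x
  rw [gpShift_of, one_smul]
  rfl

/-- The action of `Γ` on the graph product. -/
noncomputable def gpAct (P : Type) [Group P]
    (hΛ : ∀ (γ : Γ) (u v : X), Λ.Adj u v → Λ.Adj (γ • u) (γ • v)) : Γ →* MulAut (GProd P Λ) :=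
  MonoidHom.mk' (fun γ => MonoidHom.toMulEquiv (gpShift hΛ γ) (gpShift hΛ γ⁻¹)
    (by rw [gpShift_mul, inv_mul_cancel, gpShift_one])
    (by rw [gpShift_mul, mul_inv_cancel, gpShift_one]))
    (fun a b => MulEquiv.ext fun x => (DFunLike.congr_fun (gpShift_mul hΛ a b) x).symm)

/-- The retractions of the graph product. -/
noncomputable def gpSupp (P : Type) [Group P]
    (hΛ : ∀ (γ : Γ) (u v : X), Λ.Adj u v → Λ.Adj (γ • u) (γ • v)) : USupp (gpAct P hΛ) X where
  e S := gpRet P Λ S
  inter S T n := Y110.KW.ret_ret (Y110.KW.graphRel_local (P := fun _ : X => P) Λ) S T n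
  empty n := Y110.KW.ret_empty (Y110.KW.graphRel_local (P := fun _ : X => P) Λ) n
  equivariant γ S n := by
    have h : (gpShift hΛ γ).comp (gpRet P Λ S) = (gpRet P Λ (γ • S)).comp (gpShift hΛ γ) := by
      apply gp_ext
      intro v x
      rw [MonoidHom.comp_apply, MonoidHom.comp_apply, gpShift_of]
      by_cases hv : v ∈ S
      · rw [gpRet_mem hv, gpRet_mem (Set.smul_mem_smul_set hv), gpShift_of]
      · rw [gpRet_notMem hv, gpRet_notMem (fun h => hv ((Set.smul_mem_smul_set_iff).mp h)),
          map_one]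
    exact DFunLike.congr_fun h n
  finite n := by
    obtain ⟨S, hS⟩ := Y110.KW.ret_finite (Y110.KW.graphRel_local (P := fun _ : X => P) Λ) n
    exact ⟨(S : Set X), S.finite_toSet, hS⟩

/-- The homomorphism of the direct product over a clique. -/
noncomputable def gpClique (P : Type) [Group P] (Λ : SimpleGraph X) (S : Finset X)
    (hS : Λ.IsClique (S : Set X)) : (S → P) →* GProd P Λ :=
  MonoidHom.noncommPiCoprod (fun v : S => gpOf P Λ (v : X)) (by
    intro u v huv x y
    exact gp_commute (hS u.2 v.2 (fun h => huv (Subtype.ext h))) x y)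

open Classical in
/-- The projection to a copy. -/
noncomputable def gpProj (P : Type) [Group P] (Λ : SimpleGraph X) (v : X) : GProd P Λ →* P :=
  gpLift (fun w => if w = v then MonoidHom.id P else 1) (by
    intro a b hab x y
    have hne : a ≠ b := hab.ne
    by_cases ha : a = v
    · have hb : b ≠ v := fun h => hne (ha.trans h.symm)
      rw [if_neg hb]
      exact Commute.one_right _
    · rw [if_neg ha]
      exact Commute.one_left _)

theorem gpProj_self (v : X) (x : P) : gpProj P Λ v (gpOf P Λ v x) = x := by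
  unfold gpProj
  rw [gpLift_of, if_pos rfl]
  rfl

theorem gpProj_ne {v w : X} (h : w ≠ v) (x : P) : gpProj P Λ v (gpOf P Λ w x) = 1 := by
  unfold gpProj
  rw [gpLift_of, if_neg h]
  rfl

open Classical in
theorem pi_hom_ext {S : Finset X} {H : Type} [Group H] {f g : (S → P) →* H}
    (h : ∀ (v : S) (x : P), f (Pi.mulSingle v x) = g (Pi.mulSingle v x)) : f = g := by
  apply (MonoidHom.noncommPiCoprodEquiv (M := H) (N := fun _ : S => P)).symm.injective
  apply Subtype.ext
  funext v
  ext1 x
  exact h v x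

open Classical in
theorem gpClique_single (S : Finset X) (hS : Λ.IsClique (S : Set X)) (v : S) (x : P) :
    gpClique P Λ S hS (Pi.mulSingle v x) = gpOf P Λ v x :=
  MonoidHom.noncommPiCoprod_mulSingle _ _ _

theorem gpProj_clique (S : Finset X) (hS : Λ.IsClique (S : Set X)) :
    (MonoidHom.pi fun v : S => gpProj P Λ (v : X)).comp (gpClique P Λ S hS) =
      MonoidHom.id (S → P) := by
  classical
  apply pi_hom_ext
  intro v x
  rw [MonoidHom.comp_apply, gpClique_single]
  funext w
  change gpProj P Λ (w : X) (gpOf P Λ v x) = (Pi.mulSingle v x : S → P) w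
  by_cases hw : w = v
  · subst hw
    rw [gpProj_self, Pi.mulSingle_eq_same]
  · rw [gpProj_ne (fun h => hw (Subtype.ext h.symm)), Pi.mulSingle_eq_of_ne hw]

theorem gpClique_fix (S : Finset X) (hS : Λ.IsClique (S : Set X)) :
    (gpRet P Λ (S : Set X)).comp (gpClique P Λ S hS) = gpClique P Λ S hS := by
  classical
  apply pi_hom_ext
  intro v x
  rw [MonoidHom.comp_apply, gpClique_single, gpRet_mem v.2]

theorem gpClique_proj (S : Finset X) (hS : Λ.IsClique (S : Set X)) :
    ((gpClique P Λ S hS).comp (MonoidHom.pi fun v : S => gpProj P Λ (v : X))).comp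
      (gpRet P Λ (S : Set X)) = gpRet P Λ (S : Set X) := by
  classical
  apply gp_ext
  intro v x
  rw [MonoidHom.comp_apply]
  by_cases hv : v ∈ (S : Set X)
  · rw [gpRet_mem hv, MonoidHom.comp_apply]
    have e : (MonoidHom.pi fun w : S => gpProj P Λ (w : X)) (gpOf P Λ v x) =
        (Pi.mulSingle (⟨v, hv⟩ : S) x : S → P) := by
      funext w
      change gpProj P Λ (w : X) (gpOf P Λ v x) = _
      by_cases hw : w = (⟨v, hv⟩ : S)
      · subst hw
        rw [Pi.mulSingle_eq_same]
        exact gpProj_self v x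
      · rw [Pi.mulSingle_eq_of_ne hw]
        exact gpProj_ne (fun h => hw (Subtype.ext h.symm)) x
    rw [e, gpClique_single]
  · rw [gpRet_notMem hv, map_one]

/-- The part supported on a clique is the direct product. -/
noncomputable def gpIso (P : Type) [Group P]
    (hΛ : ∀ (γ : Γ) (u v : X), Λ.Adj u v → Λ.Adj (γ • u) (γ • v)) (S : Finset X)
    (hS : Λ.IsClique (S : Set X)) : (S → P) ≃* (gpSupp P hΛ).part (S : Set X) :=
  MonoidHom.toMulEquiv
    (((gpRet P Λ (S : Set X)).rangeRestrict).comp (gpClique P Λ S hS))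
    ((MonoidHom.pi fun v : S => gpProj P Λ (v : X)).comp
      (gpRet P Λ (S : Set X)).range.subtype)
    (by
      have h := gpProj_clique (P := P) (Λ := Λ) S hS
      rw [← gpClique_fix S hS] at h
      exact h)
    (by
      ext1 u
      obtain ⟨n, hn⟩ := u.2
      apply Subtype.ext
      have h1 := DFunLike.congr_fun (gpClique_fix (P := P) (Λ := Λ) S hS)
        ((MonoidHom.pi fun v : S => gpProj P Λ (v : X)) u.1)
      have h2 := DFunLike.congr_fun (gpClique_proj (P := P) (Λ := Λ) S hS) n
      have h3 : gpClique P Λ S hS ((MonoidHom.pi fun v : S => gpProj P Λ (v : X)) u.1) = u.1 := by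
        rw [← hn]
        exact h2
      exact h1.trans h3)

theorem hasRetractions (Γ : Type) [Group Γ] [MulAction Γ X] (P : Type) [Group P]
    (Λ : SimpleGraph X) (hΛ : ∀ (γ : Γ) (u v : X), Λ.Adj u v → Λ.Adj (γ • u) (γ • v)) :
    HasRetractions Γ P Λ := by
  classical
  refine ⟨gpAct P hΛ, gpSupp P hΛ, fun γ v x => gpShift_of hΛ γ v x,
    fun S v x => ⟨fun h => gpRet_mem h x, fun h => gpRet_notMem h x⟩, fun S hS =>
      ⟨gpIso P hΛ S hS, fun p v hp => ?_⟩⟩
  have e : p = Pi.mulSingle v (p v) := by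
    funext w
    by_cases hw : w = v
    · subst hw
      rw [Pi.mulSingle_eq_same]
    · rw [Pi.mulSingle_eq_of_ne hw, hp w hw]
  change gpRet P Λ (S : Set X) (gpClique P Λ S hS p) = _
  rw [e, gpClique_single, gpRet_mem v.2, Pi.mulSingle_eq_same]

end

end Pool.Agent.Y477.IW
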