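import Pool.Agent.Y477.IW.IFun
import Pool.Agent.Y477.IW.Comb
import Pool.Agent.Y483.Base

/-!
Semidirect products `N ⋊ Γ` with a support system: the coinvariants of `E(R[N])` embed in
`E(R[N ⋊ Γ])`, up to the orders of the finite subgroups of `Γ`.
-/

namespace Pool.Agent.Y477.IW

open Pool.Agent.Y483 Pointwise

universe v

/-- Every class of `E(R[G])` is fixed by all endomorphisms of `G` which fix the elements of some
finite set. -/
def IFunctor.Cont (E : IFunctor.{v}) (R : Type) [Ring R] [StarRing R] : Prop :=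
  ∀ (G : Type) [Group G] (x : E.gobj R G),
    ∃ X : Finset G, ∀ f : G →* G, (∀ g ∈ X, f g = g) → E.gmap R f x = x

section

variable {Γ N : Type} [Group Γ] [Group N] {φ : Γ →* MulAut N} (E : IFunctor.{v})
  (R : Type) [Ring R] [StarRing R]

/-- The subgroup of `E(R[N])` generated by the elements `γ z - z`. -/
noncomputable def coD (φ : Γ →* MulAut N) : AddSubgroup (E.gobj R N) :=
  AddSubgroup.closure {w | ∃ (γ : Γ) (z : E.gobj R N), w = E.gmap R (φ γ).toMonoidHom z - z}

variable {E R}

theorem coD_mem (γ : Γ) (z : E.gobj R N) : E.gmap R (φ γ).toMonoidHom z - z ∈ coD E R φ :=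
  AddSubgroup.subset_closure ⟨γ, z, rfl⟩

theorem base (ss : SupportSystem φ) (F : Finset Γ) (x : E.gobj R N)
    (hx : E.gmap R (ss.e (F : Set Γ)) x = x) (y : E.gobj R Γ)
    (hxy : E.gmap R (SemidirectProduct.inl : N →* N ⋊[φ] Γ) x =
      E.gmap R (SemidirectProduct.inr : Γ →* N ⋊[φ] Γ) y) (m : ℕ)
    (hm : ∀ H : Subgroup Γ, Finite H → Nat.card H ∣ m) :
    m • (x - E.gmap R (1 : N →* N) x) ∈ coD E R φ := by
  classical
  have hmain := smul_eq_zero_of_translates (V := E.gobj R N ⧸ coD E R φ)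
    (fun S : Finset Γ => QuotientAddGroup.mk' (coD E R φ)
      (E.gmap R (ss.e ((S : Set Γ) ∩ (F : Set Γ))) x - E.gmap R (1 : N →* N) x))
    F ?_ ?_ m ?_ ?_
  · rw [Set.inter_self, hx, ← map_nsmul] at hmain
    exact (QuotientAddGroup.eq_zero_iff _).mp hmain
  · intro S
    simp [Set.inter_assoc]
  · have : ss.e (((∅ : Finset Γ) : Set Γ) ∩ (F : Set Γ)) = 1 := by
      ext1 n
      rw [Finset.coe_empty, Set.empty_inter, ss.empty, MonoidHom.one_apply]
    rw [this, sub_self, map_zero]
  · intro S _ hne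
    exact hm _ (finite_stab S hne)
  · intro T Y hY
    have hTfin : (T : Set Γ).Finite := T.finite_toSet
    have hj : ∀ (g : N) (a : Pt φ), ss.incl (F : Set Γ) g • a = a := by
      intro g a
      exact one_mul (show Γ from a)
    have hlab : ∀ a ∉ (Y : Finset (Pt φ)), ∀ g : N,
        (ss.cocycle (T : Set Γ) hTfin).c (ss.incl (F : Set Γ) g) a = 1 := by
      intro a ha g
      apply Subtype.ext
      change ss.e T (φ ((1 : Γ) * (show Γ from a))⁻¹ (ss.e (F : Set Γ) g)) = 1
      rw [one_mul, ss.equivariant]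
      rw [ss.inter]
      have hd : (T : Set Γ) ∩ ((show Γ from a)⁻¹ • (F : Set Γ)) = ∅ := by
        rw [← Set.disjoint_iff_inter_eq_empty, Set.disjoint_left]
        intro t ht ht'
        have h2 := Finset.disjoint_left.mp (hY a ha)
          (Finset.smul_mem_smul_finset (a := (show Γ from a)) ht)
        apply h2
        rw [Set.mem_inv_smul_set_iff] at ht'
        simpa using ht'
      rw [hd, ss.empty]
    have hi : ∀ (g : Γ) (a : Pt φ), (ss.cocycle (T : Set Γ) hTfin).c
        ((SemidirectProduct.inr : Γ →* N ⋊[φ] Γ) g) a = 1 := by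
      intro g a
      apply Subtype.ext
      change ss.e T (φ (g * (show Γ from a))⁻¹ (1 : N)) = 1
      rw [map_one, map_one]
    have hxy' : E.gmap R (ss.incl (F : Set Γ)) x =
        E.gmap R (SemidirectProduct.inr : Γ →* N ⋊[φ] Γ) y := by
      rw [← hxy]
      conv_rhs => rw [← hx]
      rw [← E.gmap_comp]
      rfl
    have hk := key E (ss.cocycle (T : Set Γ) hTfin) (ss.incl (F : Set Γ)) hj Y hlab
      (SemidirectProduct.inr : Γ →* N ⋊[φ] Γ) hi x y hxy'
    have hk2 := congrArg (E.gmap R (ss.e (T : Set Γ)).range.subtype) hk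
    rw [map_zero, map_sum] at hk2
    have hk3 := congrArg (QuotientAddGroup.mk' (coD E R φ)) hk2
    rw [map_zero, map_sum] at hk3
    refine Eq.trans ?_ hk3
    refine Finset.sum_congr (ι := Γ) rfl ?_
    intro a _
    rw [map_sub (E.gmap R (ss.e (T : Set Γ)).range.subtype), ← E.gmap_comp, ← E.gmap_comp]
    have e1 : ((ss.e (T : Set Γ)).range.subtype).comp (1 : N →* ss.part (T : Set Γ)) = 1 := by
      ext1 n; rfl
    have e2 : ((ss.e (T : Set Γ)).range.subtype).comp
        ((ss.cocycle (T : Set Γ) hTfin).label (ss.incl (F : Set Γ)) hj a) =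
        (φ a⁻¹).toMonoidHom.comp (ss.e (((a • T : Finset Γ) : Set Γ) ∩ (F : Set Γ))) := by
      ext1 n
      change ss.e T (φ ((1 : Γ) * a)⁻¹ (ss.e (F : Set Γ) n)) =
        φ a⁻¹ (ss.e (((a • T : Finset Γ) : Set Γ) ∩ (F : Set Γ)) n)
      have h6 := ss.equivariant a⁻¹ (a • (T : Set Γ)) (ss.e (F : Set Γ) n)
      rw [inv_smul_smul] at h6
      rw [one_mul, Finset.coe_smul_finset, ← ss.inter, h6]
    rw [e1]
    refine Eq.symm ?_
    have e3 := congrArg (fun f => E.gmap R f x) e2
    rw [e3]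
    rw [QuotientAddGroup.mk'_apply, QuotientAddGroup.mk'_apply, QuotientAddGroup.eq]
    have h4 := coD_mem (E := E) (R := R) (φ := φ) a⁻¹
      (E.gmap R (ss.e (((a • T : Finset Γ) : Set Γ) ∩ (F : Set Γ))) x)
    rw [← E.gmap_comp] at h4
    have h5 := (coD E R φ).neg_mem h4
    convert h5 using 1
    abel

/-- **Coinvariants embed.** Let `Γ` act on `N` with a support system, and let `m` be a multiple of
the orders of the finite subgroups of `Γ`. If the image of `x ∈ E(R[N])` in `E(R[N ⋊ Γ])` comes from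
`E(R[Γ])`, then `m (x - ε(x))` is a sum of elements `γ z - z`. -/
theorem coinv (hE : E.Cont R) (ss : SupportSystem φ) (x : E.gobj R N) (y : E.gobj R Γ)
    (hxy : E.gmap R (SemidirectProduct.inl : N →* N ⋊[φ] Γ) x =
      E.gmap R (SemidirectProduct.inr : Γ →* N ⋊[φ] Γ) y) (m : ℕ)
    (hm : ∀ H : Subgroup Γ, Finite H → Nat.card H ∣ m) :
    m • (x - E.gmap R (1 : N →* N) x) ∈ coD E R φ := by
  classical
  obtain ⟨X, hX⟩ := hE N x
  choose S hS using ss.finite
  let F : Finset Γ := X.biUnion (fun n => (hS n).1.toFinset)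
  refine base ss F x (hX _ ?_) y hxy m hm
  intro n hn
  have h1 : S n ⊆ (F : Set Γ) := by
    intro s hs
    rw [Finset.mem_coe, Finset.mem_biUnion]
    exact ⟨n, hn, (hS n).1.mem_toFinset.mpr hs⟩
  conv_lhs => rw [← (hS n).2]
  rw [ss.inter, Set.inter_eq_self_of_subset_right h1, (hS n).2]

end

end Pool.Agent.Y477.IW
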