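import Pool.Agent.Y477.IW.Pres

/-!
The colimit of the values of a functor on the finite subgroups of a group.
-/

namespace Pool.Agent.Y477.IW

open Pool.Agent.Y483 Pointwise CategoryTheory

universe w

section Basic

variable (F : GrpCat.{0} ⥤ AddCommGrpCat.{w})

/-- The value of the functor. -/
abbrev FO (G : Type) [Group G] : Type w := F.obj (GrpCat.of G)

/-- The map induced by a homomorphism of groups. -/
def fm {G K : Type} [Group G] [Group K] (f : G →* K) : FO F G →+ FO F K :=
  (F.map (GrpCat.ofHom f)).hom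

variable {F}

theorem fm_comp {G K L : Type} [Group G] [Group K] [Group L] (g : K →* L) (f : G →* K)
    (x : FO F G) : fm F g (fm F f x) = fm F (g.comp f) x := by
  unfold fm
  have h : F.map (GrpCat.ofHom (g.comp f)) = F.map (GrpCat.ofHom f) ≫ F.map (GrpCat.ofHom g) := by
    rw [← F.map_comp]; rfl
  rw [h]
  rfl

theorem fm_id {G : Type} [Group G] (x : FO F G) : fm F (MonoidHom.id G) x = x := by
  unfold fm
  have h : F.map (GrpCat.ofHom (MonoidHom.id G)) = 𝟙 _ := F.map_id _
  rw [h]
  rfl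

theorem fm_conj (hF : InnerTrivial F) {G K : Type} [Group G] [Group K] (f : G →* K) (k : K)
    (x : FO F G) : fm F ((MulAut.conj k).toMonoidHom.comp f) x = fm F f x := by
  rw [← fm_comp]
  have h := hF (GrpCat.of K) k
  unfold fm
  refine (congrArg (fun g => g.hom ((F.map (GrpCat.ofHom f)).hom x)) h).trans ?_
  rfl

end Basic

/-! ### The colimit over the finite subgroups -/

section Col

/-- A finite subgroup of `G`. -/
abbrev FS (G : GrpCat.{0}) : Type := {H : Subgroup G // Finite H}

/-- The subgroup as a group. -/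
def FS.grp {G : GrpCat.{0}} (H : FS G) : GrpCat.{0} := GrpCat.of H.1

/-- The inclusion. -/
def FS.incl {G : GrpCat.{0}} (H : FS G) : H.grp ⟶ G := GrpCat.ofHom H.1.subtype

/-- The homomorphism `H → K`, `h ↦ g h g⁻¹`. -/
def conjTo {G : Type} [Group G] (H K : Subgroup G) (g : G) (h : ∀ a ∈ H, g * a * g⁻¹ ∈ K) :
    H →* K where
  toFun a := ⟨g * a.1 * g⁻¹, h a.1 a.2⟩
  map_one' := Subtype.ext (by simp)
  map_mul' a b := Subtype.ext (by
    change g * (a.1 * b.1) * g⁻¹ = g * a.1 * g⁻¹ * (g * b.1 * g⁻¹)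
    group)

/-- The homomorphism `H → K`, `h ↦ g h g⁻¹`. -/
def FS.conj {G : GrpCat.{0}} (H K : FS G) (g : G) (h : ∀ a ∈ H.1, g * a * g⁻¹ ∈ K.1) :
    H.grp ⟶ K.grp := GrpCat.ofHom (conjTo H.1 K.1 g h)

variable (F : GrpCat.{0} ⥤ AddCommGrpCat.{w}) (G : GrpCat.{0})

/-- The free abelian group on the symbols `[H, x]`, `H` a finite subgroup of `G`, `x ∈ F(H)`. -/
abbrev ColGen : Type w := FreeAbelianGroup (Σ H : FS G, F.obj H.grp)

variable {F G} in
/-- The symbol `[H, x]`. -/
def sym (H : FS G) (x : F.obj H.grp) : ColGen F G := FreeAbelianGroup.of ⟨H, x⟩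

/-- The relations of the colimit: additivity, and `[H, x] = [K, c_*(x)]` for the homomorphism
`c : H → K`, `h ↦ g h g⁻¹`, if `g H g⁻¹ ⊆ K`. -/
def ColRel : Set (ColGen F G) :=
  {z | (∃ (H : FS G) (x y : F.obj H.grp), z = sym H (x + y) - (sym H x + sym H y)) ∨
      (∃ (H K : FS G) (g : G) (h : ∀ a ∈ H.1, g * a * g⁻¹ ∈ K.1) (x : F.obj H.grp),
        z = sym K ((F.map (H.conj K g h)).hom x) - sym H x)}

/-- The colimit of the groups `F(H)` over the finite subgroups `H` of `G` and the homomorphisms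
given by conjugation with elements of `G`. -/
def Col : Type w := ColGen F G ⧸ AddSubgroup.closure (ColRel F G)

instance : AddCommGroup (Col F G) :=
  QuotientAddGroup.Quotient.addCommGroup (AddSubgroup.closure (ColRel F G))

variable {F G}

/-- The class of `x ∈ F(H)` in the colimit. -/
def Col.mk (H : FS G) (x : F.obj H.grp) : Col F G := QuotientAddGroup.mk (sym H x)

theorem Col.mk_add (H : FS G) (x y : F.obj H.grp) :
    Col.mk H (x + y) = Col.mk H x + Col.mk H y := by
  rw [← sub_eq_zero]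
  exact (QuotientAddGroup.eq_zero_iff _).2 (AddSubgroup.subset_closure (Or.inl ⟨H, x, y, rfl⟩))

theorem Col.mk_conj (H K : FS G) (g : G) (h : ∀ a ∈ H.1, g * a * g⁻¹ ∈ K.1)
    (x : F.obj H.grp) : Col.mk K ((F.map (H.conj K g h)).hom x) = Col.mk H x := by
  rw [← sub_eq_zero]
  exact (QuotientAddGroup.eq_zero_iff _).2
    (AddSubgroup.subset_closure (Or.inr ⟨H, K, g, h, x, rfl⟩))

theorem Col.mk_incl (H K : FS G) (h : H.1 ≤ K.1) (x : F.obj H.grp) :
    Col.mk K ((F.map (GrpCat.ofHom (Subgroup.inclusion h))).hom x : F.obj K.grp) =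
      Col.mk H x := by
  have h2 : ∀ a ∈ H.1, (1 : G) * a * 1⁻¹ ∈ K.1 := by
    intro a ha
    simpa using h ha
  rw [← Col.mk_conj H K 1 h2 x]
  have e : Subgroup.inclusion h = conjTo H.1 K.1 1 h2 := by
    ext1 a
    apply Subtype.ext
    change a.1 = 1 * a.1 * 1⁻¹
    simp
  rw [e]
  rfl

/-- The map on symbols. -/
noncomputable def genTo (F : GrpCat.{0} ⥤ AddCommGrpCat.{w}) (G : GrpCat.{0}) :
    ColGen F G →+ F.obj G :=
  FreeAbelianGroup.lift fun z => (F.map z.1.incl).hom z.2

theorem genTo_sym (H : FS G) (x : F.obj H.grp) : genTo F G (sym H x) = (F.map H.incl).hom x :=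
  FreeAbelianGroup.lift_apply_of _ _

theorem genTo_rel (hF : InnerTrivial F) :
    AddSubgroup.closure (ColRel F G) ≤ (genTo F G).ker := by
  rw [AddSubgroup.closure_le]
  rintro z (⟨H, x, y, rfl⟩ | ⟨H, K, g, h, x, rfl⟩)
  · rw [SetLike.mem_coe, AddMonoidHom.mem_ker, map_sub, map_add, genTo_sym, genTo_sym, genTo_sym,
      map_add, sub_self]
  · rw [SetLike.mem_coe, AddMonoidHom.mem_ker, map_sub, genTo_sym, genTo_sym, sub_eq_zero]
    have e : K.1.subtype.comp (conjTo H.1 K.1 g h) =
        (MulAut.conj g).toMonoidHom.comp H.1.subtype := by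
      ext1 a; rfl
    have h1 := fm_comp (F := F) K.1.subtype (conjTo H.1 K.1 g h) x
    rw [e, fm_conj hF] at h1
    exact h1

/-- The map from the colimit to `F(G)`; the functor `F` must be trivial on inner automorphisms. -/
noncomputable def Col.to (hF : InnerTrivial F) (G : GrpCat.{0}) : Col F G →+ F.obj G :=
  QuotientAddGroup.lift (AddSubgroup.closure (ColRel F G)) (genTo F G) (genTo_rel hF)

theorem Col.to_mk (hF : InnerTrivial F) (H : FS G) (x : F.obj H.grp) :
    Col.to hF G (Col.mk H x) = (F.map H.incl).hom x := by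
  change QuotientAddGroup.lift _ _ _ (QuotientAddGroup.mk _) = _
  rw [QuotientAddGroup.lift_mk]
  exact genTo_sym H x

theorem Col.mk_zero (H : FS G) : Col.mk H (0 : F.obj H.grp) = 0 := by
  have h := Col.mk_add H (0 : F.obj H.grp) 0
  rw [add_zero] at h
  exact left_eq_add.mp h

theorem Col.mk_neg (H : FS G) (x : F.obj H.grp) : Col.mk H (-x) = -Col.mk H x := by
  have h := Col.mk_add H x (-x)
  rw [add_neg_cancel, Col.mk_zero] at h
  exact (neg_eq_of_add_eq_zero_right h.symm).symm

theorem Col.ind (p : Col F G → Prop) (h1 : ∀ H x, p (Col.mk H x))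
    (h2 : ∀ x y, p x → p y → p (x + y)) (z : Col F G) : p z := by
  obtain ⟨z, rfl⟩ := QuotientAddGroup.mk_surjective z
  induction z using FreeAbelianGroup.induction_on with
  | zero =>
    have h := h1 ⟨⊥, inferInstance⟩ 0
    rw [Col.mk_zero] at h
    exact h
  | of x => exact h1 x.1 x.2
  | neg x _ =>
    have h := h1 x.1 (-x.2)
    rw [Col.mk_neg] at h
    exact h
  | add x y hx hy => exact h2 _ _ hx hy

/-- The class in the colimit of the image of `y ∈ F(Γ)` in the value of `F` at the trivial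
subgroup. -/
def Col.triv (F : GrpCat.{0} ⥤ AddCommGrpCat.{w}) (G Γ : GrpCat.{0}) (y : F.obj Γ) : Col F G :=
  Col.mk ⟨⊥, inferInstance⟩ ((F.map (GrpCat.ofHom (1 : Γ →* (⊥ : Subgroup G)))).hom y)

end Col

/-! ### The statements -/

section Statements

/-- For nonempty finite subsets `S₁, …, S_k` of `Γ`, none a left translate of another (the ranges of
the injections `f i`), elements `x i ∈ F(P^(S_i))` killed by replacing any one coordinate by `1`, and
`y ∈ F(Γ)`: if the images in `F(P ≀ Γ)` add up to zero, then all `x i` and `y` are zero. -/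
def DirectSum (F : GrpCat.{0} ⥤ AddCommGrpCat.{w}) (P Γ : Type) [Group P] [Group Γ] : Prop :=
  ∀ (k : ℕ) (n : Fin k → ℕ) (f : ∀ i, Fin (n i) ↪ Γ), (∀ i, 0 < n i) →
    (∀ (i j : Fin k) (γ : Γ),
      (∀ g, g ∈ Set.range (f j) ↔ γ⁻¹ * g ∈ Set.range (f i)) → i = j) →
    ∀ x : ∀ i, F.obj (pow P (n i)), (∀ i c, (F.map (forget P c)).hom (x i) = 0) →
      ∀ y : F.obj (GrpCat.of Γ),
        ∑ i, (F.map (placeAt P (f i))).hom (x i) + (F.map (top P Γ)).hom y = 0 →
          (∀ i, x i = 0) ∧ y = 0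

/-- For every functor `H` trivial on inner automorphisms and every natural transformation
`α : H → F`: if `x ∈ H(P ≀ Γ)` is a sum of elements coming from `H(Γ)` and the `H(P^n)` and
`α(x) = 0` then `m x` is such a sum of elements of the kernels of `α` for `Γ` and the `P^n`. -/
def KernelFormula (F : GrpCat.{0} ⥤ AddCommGrpCat.{w}) (P Γ : Type) [Group P] [Group Γ] (m : ℕ) :
    Prop :=
  ∀ H : GrpCat.{0} ⥤ AddCommGrpCat.{w}, InnerTrivial H → ∀ (α : H ⟶ F) (x : H.obj (rwr P Γ)),
    x ∈ genAll H P Γ → (α.app (rwr P Γ)).hom x = 0 → m • x ∈ genKer α P Γ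

/-- For a homomorphism `t : Γ → G`: if the image in `F(G)` of an element `z` of the colimit over the
finite subgroups of `G` is the image of `y ∈ F(Γ)`, then `z` and `y` are the images of the same
element of the value of `F` at the trivial group. -/
def MeetsTrivially {F : GrpCat.{0} ⥤ AddCommGrpCat.{w}} (hF : InnerTrivial F) {Γ G : GrpCat.{0}}
    (t : Γ ⟶ G) : Prop :=
  ∀ (z : Col F G) (y : F.obj Γ), Col.to hF G z = (F.map t).hom y →
    z = Col.triv F G Γ y ∧ y = (F.map (GrpCat.ofHom (1 : Γ →* Γ))).hom y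

end Statements

end Pool.Agent.Y477.IW
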