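import Pool.Agent.Y477.IW.ColF

/-!
Injectivity of the map from the colimit of the groups `F(H)` over the finite subgroups of `N ⋊ Γ` to
`F(N ⋊ Γ)`, if `Γ` is torsion-free, the parts of `N` with finite support are finite, and the
coinvariants of `F(N)` embed in `F(N ⋊ Γ)`.
-/

namespace Pool.Agent.Y477.IW

open Pool.Agent.Y483 Pointwise CategoryTheory

universe w

section

variable {Γ N : Type} [Group Γ] [Group N] {φ : Γ →* MulAut N}
  {E : GrpCat.{0} ⥤ AddCommGrpCat.{w}} {G : Type} [Group G]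

/-- The inclusion of `N` in `G`. -/
def incN (e : N ⋊[φ] Γ ≃* G) : N →* G := e.toMonoidHom.comp SemidirectProduct.inl

/-- The inclusion of `Γ` in `G`. -/
def incΓ (e : N ⋊[φ] Γ ≃* G) : Γ →* G := e.toMonoidHom.comp SemidirectProduct.inr

theorem incN_act (e : N ⋊[φ] Γ ≃* G) (γ : Γ) (n : N) :
    incN e (φ γ n) = incΓ e γ * incN e n * (incΓ e γ)⁻¹ := by
  change e (SemidirectProduct.inl (φ γ n)) = e (SemidirectProduct.inr γ) *
    e (SemidirectProduct.inl n) * (e (SemidirectProduct.inr γ))⁻¹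
  rw [← map_inv, ← map_mul, ← map_mul, ← map_inv, SemidirectProduct.inl_aut]

/-- Every element of `E(N)` is fixed by the restrictions to large finite supports. -/
def ContS (E : GrpCat.{0} ⥤ AddCommGrpCat.{w}) (ss : SupportSystem φ) : Prop :=
  ∀ x : FO E N, ∃ F : Finset Γ, ∀ F' : Finset Γ, F ⊆ F' → fm E (ss.e (F' : Set Γ)) x = x

/-- The subgroup of `E(N)` generated by the elements `γ z - z`. -/
def coG (E : GrpCat.{0} ⥤ AddCommGrpCat.{w}) (φ : Γ →* MulAut N) : AddSubgroup (FO E N) :=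
  AddSubgroup.closure {w | ∃ (γ : Γ) (z : FO E N), w = fm E (φ γ).toMonoidHom z - z}

/-- The coinvariants of `E(N)` embed in `E(N ⋊ Γ)`. -/
def CoInj (E : GrpCat.{0} ⥤ AddCommGrpCat.{w}) (φ : Γ →* MulAut N) : Prop :=
  ∀ (x : FO E N) (y : FO E Γ),
    fm E (SemidirectProduct.inl : N →* N ⋊[φ] Γ) x =
      fm E (SemidirectProduct.inr : Γ →* N ⋊[φ] Γ) y → x - fm E (1 : N →* N) x ∈ coG E φ

/-- The finite subgroup of `G` given by the elements of `N` supported in `F`. -/
def hF (ss : SupportSystem φ) (e : N ⋊[φ] Γ ≃* G)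
    (hfin : ∀ F : Finset Γ, Finite (ss.e (F : Set Γ)).range) (F : Finset Γ) : FS (GrpCat.of G) :=
  ⟨((ss.e (F : Set Γ)).range).map (incN e), by
    have := hfin F
    exact Set.Finite.to_subtype (Set.Finite.image _ (Set.toFinite _))⟩

/-- The restriction to the support `F`. -/
def rF (ss : SupportSystem φ) (e : N ⋊[φ] Γ ≃* G)
    (hfin : ∀ F : Finset Γ, Finite (ss.e (F : Set Γ)).range) (F : Finset Γ) :
    N →* (hF ss e hfin F).1 :=
  ((incN e).comp (ss.e (F : Set Γ))).codRestrict _ (fun n => ⟨ss.e (F : Set Γ) n, ⟨n, rfl⟩, rfl⟩)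

variable (ss : SupportSystem φ) (e : N ⋊[φ] Γ ≃* G)
  (hfin : ∀ F : Finset Γ, Finite (ss.e (F : Set Γ)).range) (hct : ContS E ss)

theorem ee_sub {F F' : Finset Γ} (h : F ⊆ F') (n : N) :
    ss.e (F' : Set Γ) (ss.e (F : Set Γ) n) = ss.e (F : Set Γ) n := by
  rw [ss.inter, Set.inter_eq_self_of_subset_right (Finset.coe_subset.mpr h)]

theorem hF_mono {F F' : Finset Γ} (h : F ⊆ F') : (hF ss e hfin F).1 ≤ (hF ss e hfin F').1 := by
  rintro _ ⟨_, ⟨n, rfl⟩, rfl⟩
  exact ⟨ss.e (F : Set Γ) n, ⟨ss.e (F : Set Γ) n, ee_sub ss h n⟩, rfl⟩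

theorem rF_comp {F F' : Finset Γ} (h : F ⊆ F') :
    (rF ss e hfin F').comp (ss.e (F : Set Γ)) =
      (Subgroup.inclusion (hF_mono ss e hfin h)).comp (rF ss e hfin F) := by
  ext1 n
  apply Subtype.ext
  change incN e (ss.e (F' : Set Γ) (ss.e (F : Set Γ) n)) = incN e (ss.e (F : Set Γ) n)
  rw [ee_sub ss h]

theorem lam_indep {F F' : Finset Γ} (h : F ⊆ F') (x : FO E N)
    (hx : fm E (ss.e (F : Set Γ)) x = x) :
    Col.mk (hF ss e hfin F') (fm E (rF ss e hfin F') x) =
      Col.mk (hF ss e hfin F) (fm E (rF ss e hfin F) x) := by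
  refine Eq.trans ?_ (Col.mk_incl (hF ss e hfin F) (hF ss e hfin F') (hF_mono ss e hfin h)
    (fm E (rF ss e hfin F) x))
  have h1 : fm E (rF ss e hfin F') x =
      fm E (Subgroup.inclusion (hF_mono ss e hfin h)) (fm E (rF ss e hfin F) x) := by
    rw [fm_comp, ← rF_comp ss e hfin h]
    conv_lhs => rw [← hx]
    rw [fm_comp]
  exact congrArg (Col.mk (F := E) (hF ss e hfin F')) h1

open Classical in
/-- The map from `K₁(R[N])` to the colimit. -/
noncomputable def lam : FO E N →+ Col E (GrpCat.of G) :=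
  AddMonoidHom.mk' (fun x => Col.mk (hF ss e hfin (hct x).choose)
    (fm E (rF ss e hfin (hct x).choose) x)) (by
      intro x y
      set A := (hct x).choose with hA
      set B := (hct y).choose with hB
      set C := (hct (x + y)).choose with hC
      have h1 := (hct x).choose_spec
      have h2 := (hct y).choose_spec
      have h3 := (hct (x + y)).choose_spec
      rw [← hA] at h1
      rw [← hB] at h2
      rw [← hC] at h3
      have hsA : A ⊆ A ∪ B ∪ C := Finset.subset_union_left.trans Finset.subset_union_left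
      have hsB : B ⊆ A ∪ B ∪ C := Finset.subset_union_right.trans Finset.subset_union_left
      have hsC : C ⊆ A ∪ B ∪ C := Finset.subset_union_right
      rw [← lam_indep ss e hfin hsA x (h1 A subset_rfl),
        ← lam_indep ss e hfin hsB y (h2 B subset_rfl),
        ← lam_indep ss e hfin hsC (x + y) (h3 C subset_rfl), map_add]
      exact Col.mk_add (hF ss e hfin (A ∪ B ∪ C)) _ _)

open Classical in
theorem lam_eq (F : Finset Γ) (x : FO E N)
    (hx : fm E (ss.e (F : Set Γ)) x = x) :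
    lam ss e hfin hct x =
      Col.mk (hF ss e hfin F) (fm E (rF ss e hfin F) x) := by
  change Col.mk (hF ss e hfin (hct x).choose)
    (fm E (rF ss e hfin (hct x).choose) x) = _
  have h1 := (hct x).choose_spec
  rw [← lam_indep ss e hfin (Finset.subset_union_left (s₂ := F)) x (h1 _ subset_rfl),
    lam_indep ss e hfin (Finset.subset_union_right (s₁ := (hct x).choose)) x hx]

theorem act_fix (γ : Γ) (F : Finset Γ) [DecidableEq Γ] (x : FO E N)
    (hx : fm E (ss.e (F : Set Γ)) x = x) :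
    fm E (ss.e ((γ • F : Finset Γ) : Set Γ))
      (fm E (φ γ).toMonoidHom x) =
      fm E (φ γ).toMonoidHom x := by
  have e1 : (ss.e ((γ • F : Finset Γ) : Set Γ)).comp (φ γ).toMonoidHom =
      ((φ γ).toMonoidHom).comp (ss.e (F : Set Γ)) := by
    ext1 n
    change ss.e ((γ • F : Finset Γ) : Set Γ) (φ γ n) = φ γ (ss.e (F : Set Γ) n)
    rw [ss.equivariant, Finset.coe_smul_finset]
  conv_rhs => rw [← hx]
  rw [fm_comp, fm_comp, e1]

theorem lam_act (γ : Γ) (x : FO E N) :
    lam ss e hfin hct (fm E (φ γ).toMonoidHom x) = lam ss e hfin hct x := by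
  classical
  obtain ⟨F, hF'⟩ := hct x
  have hx := hF' F subset_rfl
  rw [lam_eq ss e hfin hct F x hx, lam_eq ss e hfin hct (γ • F) _ (act_fix ss γ F x hx)]
  have hc : ∀ a ∈ (hF ss e hfin F).1, incΓ e γ * a * (incΓ e γ)⁻¹ ∈ (hF ss e hfin (γ • F)).1 := by
    rintro _ ⟨_, ⟨n, rfl⟩, rfl⟩
    refine ⟨ss.e ((γ • F : Finset Γ) : Set Γ) (φ γ n), ⟨_, rfl⟩, ?_⟩
    rw [← incN_act, ss.equivariant, Finset.coe_smul_finset]
  refine Eq.trans ?_ (Col.mk_conj (hF ss e hfin F) (hF ss e hfin (γ • F)) (incΓ e γ) hc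
    (fm E (rF ss e hfin F) x))
  have e1 : (rF ss e hfin (γ • F)).comp (φ γ).toMonoidHom =
      (conjTo (hF ss e hfin F).1 (hF ss e hfin (γ • F)).1 (incΓ e γ) hc).comp
        (rF ss e hfin F) := by
    ext1 n
    apply Subtype.ext
    change incN e (ss.e ((γ • F : Finset Γ) : Set Γ) (φ γ n)) =
      incΓ e γ * incN e (ss.e (F : Set Γ) n) * (incΓ e γ)⁻¹
    rw [← incN_act, ss.equivariant, Finset.coe_smul_finset]
  have h1 : fm E (rF ss e hfin (γ • F)) (fm E (φ γ).toMonoidHom x) =
      fm E (conjTo (hF ss e hfin F).1 (hF ss e hfin (γ • F)).1 (incΓ e γ) hc)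
        (fm E (rF ss e hfin F) x) := by
    rw [fm_comp, fm_comp, e1]
  exact congrArg (Col.mk (F := E) (hF ss e hfin (γ • F))) h1

theorem lam_coD (x : FO E N) (hx : x ∈ coG E φ) : lam ss e hfin hct x = 0 := by
  have h : coG E φ ≤ (lam ss e hfin hct).ker := by
    unfold coG
    rw [AddSubgroup.closure_le]
    rintro w ⟨γ, z, rfl⟩
    rw [SetLike.mem_coe, AddMonoidHom.mem_ker, map_sub, lam_act, sub_self]
  exact h hx

theorem toK_lam (hE : InnerTrivial E) (x : FO E N) :
    Col.to hE (GrpCat.of G) (lam ss e hfin hct x) = fm E (incN e) x := by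
  obtain ⟨F, hF'⟩ := hct x
  have hx := hF' F subset_rfl
  rw [lam_eq ss e hfin hct F x hx, Col.to_mk]
  have h1 : fm E (incN e) x = fm E (hF ss e hfin F).1.subtype (fm E (rF ss e hfin F) x) := by
    rw [fm_comp]
    conv_lhs => rw [← hx]
    rw [fm_comp]
    rfl
  exact h1.symm

theorem lam_surj (htf : ∀ H : Subgroup Γ, Finite H → H = ⊥) (z : Col E (GrpCat.of G)) :
    ∃ x : FO E N, lam ss e hfin hct x = z := by
  classical
  refine Col.ind (fun z => ∃ x : FO E N, lam ss e hfin hct x = z) ?_ ?_ z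
  · intro H x
    have h1 : ∀ a ∈ H.1, ∃ n : N, incN e n = a := by
      intro a ha
      let q : G →* Γ := (SemidirectProduct.rightHom : N ⋊[φ] Γ →* Γ).comp e.symm.toMonoidHom
      have hq : H.1.map q = ⊥ := by
        apply htf
        have := H.2
        exact Set.Finite.to_subtype (Set.Finite.image _ (Set.toFinite _))
      have h2 : q a = 1 := by
        have : q a ∈ H.1.map q := ⟨a, ha, rfl⟩
        rwa [hq, Subgroup.mem_bot] at this
      refine ⟨(e.symm a).left, ?_⟩
      change e (SemidirectProduct.inl (e.symm a).left) = a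
      have h3 : SemidirectProduct.inl (e.symm a).left = e.symm a := by
        apply SemidirectProduct.ext
        · rfl
        · change (1 : Γ) = (e.symm a).right
          exact h2.symm
      rw [h3, MulEquiv.apply_symm_apply]
    have hinj : Function.Injective (incN e) := by
      intro a b hab
      exact SemidirectProduct.inl_injective (e.injective hab)
    choose! s hs using h1
    let t : H.1 →* N :=
      { toFun := fun a => s a.1
        map_one' := hinj ((hs _ H.1.one_mem).trans (map_one (incN e)).symm)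
        map_mul' := fun a b => hinj (by
          rw [map_mul, hs _ a.2, hs _ b.2]
          exact hs _ (a * b).2) }
    have ht : ∀ a : H.1, incN e (t a) = a.1 := fun a => hs _ a.2
    choose S hS using ss.finite
    have := H.2
    let _ : Fintype H.1 := Fintype.ofFinite _
    let F : Finset Γ := Finset.univ.biUnion (fun a : H.1 => (hS (t a)).1.toFinset)
    have hF1 : ∀ a : H.1, ss.e (F : Set Γ) (t a) = t a := by
      intro a
      have h4 : S (t a) ⊆ (F : Set Γ) := by
        intro b hb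
        rw [Finset.mem_coe, Finset.mem_biUnion]
        exact ⟨a, Finset.mem_univ _, (hS (t a)).1.mem_toFinset.mpr hb⟩
      have h5 := ss.inter (F : Set Γ) (S (t a)) (t a)
      rw [(hS (t a)).2, Set.inter_eq_self_of_subset_right h4, (hS (t a)).2] at h5
      exact h5
    refine ⟨fm E t x, ?_⟩
    have hfix : fm E (ss.e (F : Set Γ)) (fm E t x) =
        fm E t x := by
      rw [fm_comp]
      have e1 : (ss.e (F : Set Γ)).comp t = t := by
        ext1 a; exact hF1 a
      rw [e1]
    have hle : H.1 ≤ (hF ss e hfin F).1 := by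
      intro a ha
      exact ⟨t ⟨a, ha⟩, ⟨t ⟨a, ha⟩, hF1 ⟨a, ha⟩⟩, ht ⟨a, ha⟩⟩
    rw [lam_eq ss e hfin hct F _ hfix]
    refine Eq.trans ?_ (Col.mk_incl H (hF ss e hfin F) hle x)
    have e2 : (rF ss e hfin F).comp t = Subgroup.inclusion hle := by
      ext1 a
      apply Subtype.ext
      change incN e (ss.e (F : Set Γ) (t a)) = a.1
      rw [hF1, ht]
    have h7 : fm E (rF ss e hfin F) (fm E t x) = fm E (Subgroup.inclusion hle) x := by
      rw [fm_comp, e2]
    exact congrArg (Col.mk (F := E) (hF ss e hfin F)) h7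
  · rintro x y ⟨a, rfl⟩ ⟨b, rfl⟩
    exact ⟨a + b, map_add _ _ _⟩

include ss hfin hct in
/-- **Injectivity.** If the image in `E(G)` of a class `z` of the colimit over the finite
subgroups is the image of a class `y` of `E(Γ)` then `z` and `y` come from the trivial group. -/
theorem col_inj (hE : InnerTrivial E) (hco : CoInj E φ)
    (htf : ∀ H : Subgroup Γ, Finite H → H = ⊥) (z : Col E (GrpCat.of G)) (y : FO E Γ)
    (hz : Col.to hE (GrpCat.of G) z = fm E (incΓ e) y) :
    z = Col.triv E (GrpCat.of G) (GrpCat.of Γ) y ∧ y = fm E (1 : Γ →* Γ) y := by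
  classical
  obtain ⟨x, rfl⟩ := lam_surj ss e hfin hct htf z
  rw [toK_lam ss e hfin hct hE] at hz
  have h1 : fm E (SemidirectProduct.inl : N →* N ⋊[φ] Γ) x =
      fm E (SemidirectProduct.inr : Γ →* N ⋊[φ] Γ) y := by
    have h := congrArg (fm E e.symm.toMonoidHom) hz
    rw [fm_comp, fm_comp] at h
    have e1 : e.symm.toMonoidHom.comp (incN e) = SemidirectProduct.inl := by
      ext1 a; exact e.symm_apply_apply _
    have e2 : e.symm.toMonoidHom.comp (incΓ e) = SemidirectProduct.inr := by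
      ext1 a; exact e.symm_apply_apply _
    rw [e1, e2] at h
    exact h
  have h3 := lam_coD ss e hfin hct _ (hco x y h1)
  rw [map_sub, sub_eq_zero] at h3
  have h4 : ∀ {L : Type} [Group L] (q : N ⋊[φ] Γ →* L),
      fm E (q.comp SemidirectProduct.inl) x = fm E (q.comp SemidirectProduct.inr) y := by
    intro L _ q
    have h := congrArg (fm E q) h1
    rw [fm_comp, fm_comp] at h
    exact h
  have h5 : fm E (1 : N →* N) x = fm E (1 : Γ →* N) y := h4 (1 : N ⋊[φ] Γ →* N)
  constructor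
  · rw [h3, h5]
    have hfix : fm E (ss.e ((∅ : Finset Γ) : Set Γ)) (fm E (1 : Γ →* N) y) =
        fm E (1 : Γ →* N) y := by
      rw [fm_comp]
      have e1 : (ss.e ((∅ : Finset Γ) : Set Γ)).comp (1 : Γ →* N) = 1 := by
        ext1 a
        exact map_one (ss.e ((∅ : Finset Γ) : Set Γ))
      rw [e1]
    rw [lam_eq ss e hfin hct ∅ _ hfix]
    refine Eq.trans ?_ (Col.mk_incl ⟨⊥, inferInstance⟩ (hF ss e hfin ∅) bot_le
      (fm E (1 : Γ →* (⊥ : Subgroup G)) y))
    have e2 : (rF ss e hfin ∅).comp (1 : Γ →* N) =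
        (Subgroup.inclusion (bot_le : ⊥ ≤ (hF ss e hfin ∅).1)).comp
          (1 : Γ →* (⊥ : Subgroup G)) := by
      ext1 a
      apply Subtype.ext
      change incN e (ss.e ((∅ : Finset Γ) : Set Γ) 1) = 1
      rw [map_one, map_one]
    have h6 : fm E (rF ss e hfin ∅) (fm E (1 : Γ →* N) y) =
        fm E (Subgroup.inclusion (bot_le : ⊥ ≤ (hF ss e hfin ∅).1))
          (fm E (1 : Γ →* (⊥ : Subgroup G)) y) := by
      rw [fm_comp, fm_comp, e2]
    exact congrArg (Col.mk (F := E) (hF ss e hfin ∅)) h6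
  · have h6 := h4 (SemidirectProduct.rightHom : N ⋊[φ] Γ →* Γ)
    have h7 := h4 (1 : N ⋊[φ] Γ →* Γ)
    rw [SemidirectProduct.rightHom_comp_inr, SemidirectProduct.rightHom_comp_inl, fm_id] at h6
    exact h6.symm.trans h7

include ss e hfin hct in
theorem col_inj' (hE : InnerTrivial E) (hco : CoInj E φ)
    (htf : ∀ H : Subgroup Γ, Finite H → H = ⊥) :
    Function.Injective (Col.to hE (GrpCat.of G)) := by
  rw [injective_iff_map_eq_zero]
  intro z hz
  have h := (col_inj ss e hfin hct hE hco htf z 0 (by rw [hz, map_zero])).1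
  rw [h]
  unfold Col.triv
  rw [map_zero]
  exact Col.mk_zero (F := E) (G := GrpCat.of G) ⟨⊥, inferInstance⟩

end

/-! ### Restricted wreath products -/

section Wreath

variable {P Γ : Type} [Group P] [Group Γ] {E : GrpCat.{0} ⥤ AddCommGrpCat.{w}}

theorem rSupp_range_finite [Finite P] (F : Finset Γ) :
    Finite ((rSupp P Γ).e (F : Set Γ)).range := by
  let q : ((rSupp P Γ).e (F : Set Γ)).range → (F → P) := fun u x => u.1.1 x.1
  apply Finite.of_injective q
  intro u v huv
  apply Subtype.ext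
  apply Subtype.ext
  funext x
  by_cases hx : x ∈ (F : Set Γ)
  · exact congrFun huv ⟨x, hx⟩
  · obtain ⟨u', hu⟩ := u.2
    obtain ⟨v', hv⟩ := v.2
    rw [← hu, ← hv, rSupp_notMem P Γ _ hx, rSupp_notMem P Γ _ hx]

theorem col_inj_rwr [Finite P] (hE : InnerTrivial E) (hct : ContS E (rSupp P Γ))
    (hco : CoInj E (rAct P Γ)) (htf : ∀ H : Subgroup Γ, Finite H → H = ⊥) :
    Function.Injective (Col.to hE (rwr P Γ)) ∧ MeetsTrivially hE (top P Γ) :=
  ⟨col_inj' (rSupp P Γ) (rwIso P Γ) rSupp_range_finite hct hE hco htf,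
    fun z y hz => col_inj (rSupp P Γ) (rwIso P Γ) rSupp_range_finite hct hE hco htf z y hz⟩

end Wreath

end Pool.Agent.Y477.IW
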