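import Pool.Agent.Y477.IW.Comb

/-!
The averaging argument over translates of finite subsets of a set with an action of a group with
finite point stabilizers.
-/

namespace Pool.Agent.Y477.IW

open Finset Pointwise Pool.Agent.Y483

section AverageV

variable {Γ X V : Type*} [Group Γ] [MulAction Γ X] [DecidableEq X] [AddCommGroup V]

theorem moeb_smulV (g : Finset X → V) (y : Γ) (S : Finset X) :
    moeb g (y • S) = ∑ T ∈ S.powerset, (-1 : ℤ) ^ (S.card - T.card) • g (y • T) := by
  unfold moeb
  symm
  have h1 : ∀ T ∈ S.powerset, y • T ∈ (y • S).powerset := by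
    intro T hT
    rw [mem_powerset] at *
    exact Finset.smul_finset_subset_smul_finset hT
  have h2 : ∀ T ∈ (y • S).powerset, y⁻¹ • T ∈ S.powerset := by
    intro T hT
    rw [mem_powerset] at *
    have h3 : y⁻¹ • T ⊆ y⁻¹ • (y • S) := Finset.smul_finset_subset_smul_finset hT
    simpa using h3
  apply Finset.sum_bij' (fun T _ => y • T) (fun T _ => y⁻¹ • T) h1 h2
  · intro T _; simp
  · intro T _; simp
  · intro T _; simp

omit [DecidableEq X] in
/-- The elements carrying a point to a point form a finite set if the stabilizers are finite. -/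
theorem finite_carry (hst : ∀ v : X, Finite (MulAction.stabilizer Γ v)) (s t : X) :
    {y : Γ | y • s = t}.Finite := by
  by_cases h : ∃ y₀ : Γ, y₀ • s = t
  · obtain ⟨y₀, hy₀⟩ := h
    have h2 : {y : Γ | y • s = t} ⊆ (fun z : Γ => y₀ * z) ''
        (MulAction.stabilizer Γ s : Set Γ) := by
      intro y hy
      refine ⟨y₀⁻¹ * y, ?_, mul_inv_cancel_left _ _⟩
      change (y₀⁻¹ * y) • s = s
      rw [mul_smul, show y • s = t from hy, ← hy₀, inv_smul_smul]
    have := hst s
    exact ((Set.toFinite (MulAction.stabilizer Γ s : Set Γ)).image _).subset h2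
  · have h2 : {y : Γ | y • s = t} = ∅ := by
      ext y
      simp only [Set.mem_ofPred_eq, Set.mem_empty_iff_false, iff_false]
      exact fun hy => h ⟨y, hy⟩
    rw [h2]
    exact Set.finite_empty

/-- The finite set of the elements carrying a point of `F` to a point of `F'`. -/
noncomputable def carry (hst : ∀ v : X, Finite (MulAction.stabilizer Γ v)) (F F' : Finset X) :
    Finset Γ :=
  ((F.finite_toSet.prod F'.finite_toSet).biUnion
    (fun p _ => finite_carry hst p.1 p.2)).toFinset

theorem mem_carry (hst : ∀ v : X, Finite (MulAction.stabilizer Γ v)) {F F' : Finset X} {y : Γ}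
    {s : X} (hs : s ∈ F) (hys : y • s ∈ F') : y ∈ carry hst F F' := by
  unfold carry
  rw [Set.Finite.mem_toFinset, Set.mem_iUnion₂]
  exact ⟨(s, y • s), ⟨hs, hys⟩, rfl⟩

/-- The stabilizer of a nonempty finite subset is finite. -/
theorem finite_stabV (hst : ∀ v : X, Finite (MulAction.stabilizer Γ v)) (S : Finset X)
    (hS : S.Nonempty) : Finite (MulAction.stabilizer Γ S) := by
  obtain ⟨s, hs⟩ := hS
  have hsub : (MulAction.stabilizer Γ S : Set Γ) ⊆ (carry hst S S : Set Γ) := by
    intro y hy
    apply mem_carry hst hs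
    have h2 := Finset.smul_mem_smul_finset (a := y) hs
    have h3 : y • S = S := hy
    rwa [h3] at h2
  exact ((carry hst S S).finite_toSet.subset hsub).to_subtype

/-- The number of elements carrying `S` to `y₀ S` is the order of the stabilizer. -/
theorem card_carryV (Y : Finset Γ) (S : Finset X) (y₀ : Γ) (hY : ∀ y : Γ, y • S = y₀ • S → y ∈ Y)
    [DecidablePred fun y : Γ => y • S = y₀ • S] :
    (Y.filter (fun y => y • S = y₀ • S)).card = Nat.card (MulAction.stabilizer Γ S) := by
  rw [← Nat.card_eq_finsetCard]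
  apply Nat.card_congr
  refine ⟨fun y => ⟨y₀⁻¹ * y.1, ?_⟩, fun y => ⟨y₀ * y.1, ?_⟩, ?_, ?_⟩
  · have h := (mem_filter.mp y.2).2
    change (y₀⁻¹ * y.1) • S = S
    rw [mul_smul, h, inv_smul_smul]
  · have h : (y₀ * y.1) • S = y₀ • S := by
      rw [mul_smul]
      congr 1
      exact y.2
    exact mem_filter.mpr ⟨hY _ h, h⟩
  · intro y; apply Subtype.ext; exact mul_inv_cancel_left _ _
  · intro y; apply Subtype.ext; exact inv_mul_cancel_left _ _

open Classical in
/-- The averaging lemma. -/
theorem smul_eq_zero_of_moeb (hst : ∀ v : X, Finite (MulAction.stabilizer Γ v))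
    (g : Finset X → V) (F : Finset X) (hg : ∀ S, g S = g (S ∩ F))
    (h0 : g ∅ = 0) (m : ℕ)
    (hm : ∀ S ⊆ F, S.Nonempty → Nat.card (MulAction.stabilizer Γ S) ∣ m)
    (hκ : ∀ S ⊆ F, S.Nonempty → ∀ Y : Finset Γ, (∀ y ∉ Y, Disjoint (y • S) F) →
      ∑ y ∈ Y, moeb g (y • S) = 0) : m • g F = 0 := by
  -- a finite set of translations large enough for all the subsets of `F`
  let Y : Finset Γ := carry hst F F
  have hYmem : ∀ y : Γ, ∀ S : Finset X, S ⊆ F → ∀ s ∈ S, y • s ∈ F → y ∈ Y := by
    intro y S hS s hs hys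
    exact mem_carry hst (hS hs) hys
  have hY : ∀ T ⊆ F, ∀ y ∉ Y, Disjoint (y • T) F := by
    intro T hT y hy
    rw [Finset.disjoint_left]
    intro z hz hzF
    obtain ⟨t, ht, rfl⟩ := Finset.mem_smul_finset.mp hz
    exact hy (hYmem y T hT t ht hzF)
  -- the sum over the nonempty subsets vanishes after multiplication by `m`
  let P : Finset (Finset X) := F.powerset.filter (fun S => S.Nonempty)
  have hP : ∀ S, S ∈ P ↔ S ⊆ F ∧ S.Nonempty := by
    intro S
    simp only [P, mem_filter, mem_powerset]
  have hcls : ∑ S ∈ P, m • moeb g S = 0 := by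
    apply Finset.sum_cancels_of_partition_cancels (MulAction.orbitRel Γ (Finset X))
    intro S hS
    obtain ⟨hSF, hne⟩ := (hP S).mp hS
    obtain ⟨q, hq⟩ := hm S hSF hne
    have h1 : ∑ y ∈ Y, moeb g (y • S) =
        ∑ S' ∈ P.filter (fun S' => (MulAction.orbitRel Γ (Finset X)) S' S),
          Nat.card (MulAction.stabilizer Γ S) • moeb g S' := by
      have e1 : ∑ y ∈ Y, moeb g (y • S) =
          ∑ y ∈ Y.filter (fun y => y • S ⊆ F), moeb g (y • S) := by
        symm
        apply Finset.sum_filter_of_ne
        intro y _ hy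
        by_contra hcon
        exact hy (moeb_eq_zero hg hcon)
      rw [e1, ← Finset.sum_fiberwise_of_maps_to
        (t := P.filter (fun S' => (MulAction.orbitRel Γ (Finset X)) S' S))
        (g := fun y => y • S)]
      · apply Finset.sum_congr rfl
        intro S' hS'
        obtain ⟨hS'P, hor⟩ := mem_filter.mp hS'
        obtain ⟨y₀, hy₀⟩ := MulAction.mem_orbit_iff.mp (MulAction.orbitRel_apply.mp hor)
        subst hy₀
        have hS'F : y₀ • S ⊆ F := ((hP _).mp hS'P).1
        rw [Finset.sum_congr rfl (g := fun _ => moeb g (y₀ • S))]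
        · rw [Finset.sum_const]
          congr 1
          rw [← card_carryV Y S y₀]
          · congr 1
            ext y
            simp only [mem_filter]
            constructor
            · rintro ⟨⟨h2, -⟩, h3⟩
              exact ⟨h2, h3⟩
            · rintro ⟨h2, h3⟩
              exact ⟨⟨h2, by rw [h3]; exact hS'F⟩, h3⟩
          · intro y hy
            obtain ⟨s, hs⟩ := hne
            refine hYmem y S hSF s hs (hS'F ?_)
            rw [← hy]
            exact Finset.smul_mem_smul_finset (a := y) hs
        · intro y hy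
          rw [(mem_filter.mp hy).2]
      · intro y hy
        have h2 := (mem_filter.mp hy).2
        rw [mem_filter, hP]
        exact ⟨⟨h2, hne.smul_finset⟩, MulAction.orbitRel_apply.mpr ⟨y, rfl⟩⟩
    rw [hκ S hSF hne Y (hY S hSF), ← Finset.smul_sum] at h1
    rw [← Finset.smul_sum, hq, mul_comm, mul_smul, ← h1, smul_zero]
  rw [← moeb_sum g F, Finset.smul_sum,
    ← Finset.sum_filter_add_sum_filter_not F.powerset (fun S => S.Nonempty)]
  change ∑ S ∈ P, m • moeb g S + _ = 0
  rw [hcls, zero_add]
  apply Finset.sum_eq_zero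
  intro S hS
  rw [mem_filter, Finset.not_nonempty_iff_eq_empty] at hS
  rw [hS.2, moeb_empty, h0, smul_zero]

end AverageV

end Pool.Agent.Y477.IW
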