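import Pool.Agent.Y477.IW.USDef

/-!
Graph products of copies of a group over an invariant graph: definitions.
-/

namespace Pool.Agent.Y477.IW

open Monoid

variable {X : Type}

/-- The commutation relations of the graph product of copies of `P`. -/
def gpRel (P : Type) [Group P] (Λ : SimpleGraph X) : Set (CoprodI fun _ : X => P) :=
  {r | ∃ (u v : X) (_ : Λ.Adj u v) (x y : P),
    r = CoprodI.of (i := u) x * CoprodI.of (i := v) y * (CoprodI.of (i := u) x)⁻¹ *
      (CoprodI.of (i := v) y)⁻¹}

/-- The graph product of copies of `P` indexed by the vertices of the graph `Λ`. -/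
def GProd (P : Type) [Group P] (Λ : SimpleGraph X) : Type :=
  (CoprodI fun _ : X => P) ⧸ Subgroup.normalClosure (gpRel P Λ)

noncomputable instance (P : Type) [Group P] (Λ : SimpleGraph X) : Group (GProd P Λ) :=
  QuotientGroup.Quotient.group (Subgroup.normalClosure (gpRel P Λ))

/-- The copy of `P` with index `v`. -/
noncomputable def gpOf (P : Type) [Group P] (Λ : SimpleGraph X) (v : X) : P →* GProd P Λ :=
  (QuotientGroup.mk' (Subgroup.normalClosure (gpRel P Λ))).comp (CoprodI.of (M := fun _ : X => P) (i := v))

/-- The part supported on the finite set `S` is the direct product of the copies of `P` with index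
in `S`. -/
def PartIsProduct {Γ : Type} [Group Γ] [MulAction Γ X] {P : Type} [Group P] {Λ : SimpleGraph X}
    {φ : Γ →* MulAut (GProd P Λ)} (us : USupp φ X) (S : Finset X) : Prop :=
  ∃ i : (S → P) ≃* us.part (S : Set X), ∀ (p : S → P) (v : S), (∀ w, w ≠ v → p w = 1) →
    (i p : GProd P Λ) = gpOf P Λ v (p v)

/-- `e_S` is the identity on the copies of `P` with index in `S` and trivial on the other copies. -/
def KillsCopies {Γ : Type} [Group Γ] [MulAction Γ X] {P : Type} [Group P] {Λ : SimpleGraph X}
    {φ : Γ →* MulAut (GProd P Λ)} (us : USupp φ X) : Prop :=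
  ∀ (S : Set X) (v : X) (x : P), (v ∈ S → us.e S (gpOf P Λ v x) = gpOf P Λ v x) ∧
    (v ∉ S → us.e S (gpOf P Λ v x) = 1)

/-- The graph product of copies of `P` over `Λ` has the retractions: `Γ` acts by permuting the
copies, `e_S` is the identity on the copies with index in `S` and trivial on the other copies, and
for every finite clique `S` the part supported on `S` is the direct product of the copies with
index in `S`. -/
def HasRetractions (Γ : Type) [Group Γ] [MulAction Γ X] (P : Type) [Group P]
    (Λ : SimpleGraph X) : Prop :=
  ∃ (φ : Γ →* MulAut (GProd P Λ)) (us : USupp φ X),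
    (∀ (γ : Γ) (v : X) (x : P), φ γ (gpOf P Λ v x) = gpOf P Λ (γ • v) x) ∧
    KillsCopies us ∧ ∀ S : Finset X, Λ.IsClique (S : Set X) → PartIsProduct us S

end Pool.Agent.Y477.IW
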