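import Pool.Agent.Y483.Mono
import Pool.Agent.Y483.Combi

/-!
Group rings with coefficients in an arbitrary ring with involution, and the homomorphisms to the
ring of pairs of adjointable operators attached to pairs of almost equal cocycles.
-/

namespace Pool.Agent.Y477.IW

open MulOpposite Pool.Agent.Y483

section GroupRing

variable {R G : Type*} [Ring R] [StarRing R] [Group G]

/-- The additive map `∑ r_g g ↦ ∑ r_g^* g⁻¹`. -/
noncomputable def grInvol (R G : Type*) [Ring R] [StarRing R] [Group G] :
    MonoidAlgebra R G →+ MonoidAlgebra R G :=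
  MonoidAlgebra.liftNC ((MonoidAlgebra.singleAddHom (1 : G)).comp
    (starAddEquiv (R := R)).toAddMonoidHom) (fun g => MonoidAlgebra.single g⁻¹ 1)

theorem grInvol_single (g : G) (r : R) :
    grInvol R G (MonoidAlgebra.single g r) = MonoidAlgebra.single g⁻¹ (star r) := by
  unfold grInvol
  rw [MonoidAlgebra.liftNC_single]
  change MonoidAlgebra.single (1 : G) (star r) * MonoidAlgebra.single g⁻¹ 1 = _
  rw [MonoidAlgebra.single_mul_single, one_mul, mul_one]

theorem grInvol_invol (x : MonoidAlgebra R G) : grInvol R G (grInvol R G x) = x := by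
  have h : (grInvol R G).comp (grInvol R G) = AddMonoidHom.id _ := by
    apply MonoidAlgebra.addMonoidHom_ext
    intro g r
    rw [AddMonoidHom.comp_apply, grInvol_single, grInvol_single, inv_inv, star_star]
    rfl
  exact DFunLike.congr_fun h x

theorem grInvol_mul (x y : MonoidAlgebra R G) :
    grInvol R G (x * y) = grInvol R G y * grInvol R G x := by
  have h : ∀ (g : G) (r : R) (y : MonoidAlgebra R G),
      grInvol R G (MonoidAlgebra.single g r * y) =
        grInvol R G y * grInvol R G (MonoidAlgebra.single g r) := by
    intro g r y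
    have h1 : (grInvol R G).comp (AddMonoidHom.mulLeft (MonoidAlgebra.single g r)) =
        (AddMonoidHom.mulRight (grInvol R G (MonoidAlgebra.single g r))).comp (grInvol R G) := by
      apply MonoidAlgebra.addMonoidHom_ext
      intro k s
      simp only [AddMonoidHom.comp_apply, AddMonoidHom.coe_mulLeft, AddMonoidHom.coe_mulRight,
        MonoidAlgebra.single_mul_single, grInvol_single, mul_inv_rev, star_mul]
    exact DFunLike.congr_fun h1 y
  have h2 : (grInvol R G).comp (AddMonoidHom.mulRight y) =
      (AddMonoidHom.mulLeft (grInvol R G y)).comp (grInvol R G) := by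
    apply MonoidAlgebra.addMonoidHom_ext
    intro k s
    simp only [AddMonoidHom.comp_apply, AddMonoidHom.coe_mulLeft, AddMonoidHom.coe_mulRight]
    exact h k s y
  exact DFunLike.congr_fun h2 x

/-- The group ring of `G` over a ring with involution, with the involution
`(∑ r_g g)^* = ∑ r_g^* g⁻¹`. -/
noncomputable instance grStar : StarRing (MonoidAlgebra R G) where
  star := grInvol R G
  star_involutive := grInvol_invol
  star_mul := grInvol_mul
  star_add := map_add _

theorem gr_star_single (g : G) (r : R) :
    star (MonoidAlgebra.single g r : MonoidAlgebra R G) = MonoidAlgebra.single g⁻¹ (star r) :=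
  grInvol_single g r

/-- A homomorphism of rings with involution on the coefficients and a homomorphism to the unitaries
which commute extend to the group ring. -/
noncomputable def grLift {S : Type*} [Ring S] [StarRing S] (c : R →+* S) (ρ : G →* S)
    (hc : ∀ r, c (star r) = star (c r)) (hρ : ∀ g, star (ρ g) = ρ g⁻¹)
    (hcomm : ∀ r g, Commute (c r) (ρ g)) : MonoidAlgebra R G →⋆ₙ+* S :=
  { (MonoidAlgebra.liftNCRingHom c ρ hcomm).toNonUnitalRingHom with
    map_star' := by
      intro x
      have key : ((MonoidAlgebra.liftNCRingHom c ρ hcomm).toAddMonoidHom.comp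
          (starAddEquiv (R := MonoidAlgebra R G)).toAddMonoidHom) =
          (starAddEquiv (R := S)).toAddMonoidHom.comp
            (MonoidAlgebra.liftNCRingHom c ρ hcomm).toAddMonoidHom := by
        apply MonoidAlgebra.addMonoidHom_ext
        intro g r
        change MonoidAlgebra.liftNCRingHom c ρ hcomm (star (MonoidAlgebra.single g r)) =
          star (MonoidAlgebra.liftNCRingHom c ρ hcomm (MonoidAlgebra.single g r))
        rw [gr_star_single, MonoidAlgebra.liftNCRingHom_single,
          MonoidAlgebra.liftNCRingHom_single, star_mul, hρ, hc]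
        have := hcomm (star r) g⁻¹
        rw [hc] at this
        exact this.eq
      exact DFunLike.congr_fun key x }

theorem grLift_single {S : Type*} [Ring S] [StarRing S] (c : R →+* S) (ρ : G →* S)
    (hc : ∀ r, c (star r) = star (c r)) (hρ : ∀ g, star (ρ g) = ρ g⁻¹)
    (hcomm : ∀ r g, Commute (c r) (ρ g)) (g : G) (r : R) :
    grLift c ρ hc hρ hcomm (MonoidAlgebra.single g r) = c r * ρ g :=
  MonoidAlgebra.liftNCRingHom_single c ρ hcomm g r

theorem grHom_ext {S : Type*} [Ring S] [StarRing S] {f f' : MonoidAlgebra R G →⋆ₙ+* S}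
    (h : ∀ g r, f (MonoidAlgebra.single g r) = f' (MonoidAlgebra.single g r)) : f = f' := by
  apply NonUnitalStarRingHom.ext
  intro x
  have key : (f : MonoidAlgebra R G →+ S) = (f' : MonoidAlgebra R G →+ S) := by
    apply MonoidAlgebra.addMonoidHom_ext
    intro g n
    exact h g n
  exact DFunLike.congr_fun key x

theorem grHom_add_ext {S : Type*} [Ring S] [StarRing S] {f g h : MonoidAlgebra R G →⋆ₙ+* S}
    (H : ∀ x r, h (MonoidAlgebra.single x r) =
      f (MonoidAlgebra.single x r) + g (MonoidAlgebra.single x r)) (x : MonoidAlgebra R G) :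
    h x = f x + g x := by
  have key : (h : MonoidAlgebra R G →+ S) =
      (f : MonoidAlgebra R G →+ S) + (g : MonoidAlgebra R G →+ S) := by
    apply MonoidAlgebra.addMonoidHom_ext
    intro y n
    exact H y n
  exact DFunLike.congr_fun key x

/-- The homomorphism of group rings with involution induced by a homomorphism of groups. -/
noncomputable def grMap (R : Type*) [Ring R] [StarRing R] {H : Type*} [Group H] (f : G →* H) :
    MonoidAlgebra R G →⋆ₙ+* MonoidAlgebra R H :=
  grLift MonoidAlgebra.singleOneRingHom ((MonoidAlgebra.of R H).comp f)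
    (fun r => by
      change MonoidAlgebra.single 1 (star r) = star (MonoidAlgebra.single 1 r)
      rw [gr_star_single, inv_one])
    (fun g => by
      change star (MonoidAlgebra.single (f g) 1) = MonoidAlgebra.single (f g⁻¹) 1
      rw [gr_star_single, map_inv, star_one])
    (fun r g => by
      change MonoidAlgebra.single 1 r * MonoidAlgebra.single (f g) 1 =
        MonoidAlgebra.single (f g) 1 * MonoidAlgebra.single 1 r
      rw [MonoidAlgebra.single_mul_single, MonoidAlgebra.single_mul_single, one_mul, mul_one,
        one_mul, mul_one])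

theorem grMap_single {H : Type*} [Group H] (f : G →* H) (g : G) (r : R) :
    grMap R f (MonoidAlgebra.single g r) = MonoidAlgebra.single (f g) r := by
  unfold grMap
  rw [grLift_single]
  change MonoidAlgebra.single 1 r * MonoidAlgebra.single (f g) 1 = _
  rw [MonoidAlgebra.single_mul_single, one_mul, mul_one]

theorem grMap_id (R G : Type*) [Ring R] [StarRing R] [Group G] :
    grMap R (MonoidHom.id G) = NonUnitalStarRingHom.id (MonoidAlgebra R G) := by
  apply grHom_ext
  intro g r
  rw [grMap_single]
  rfl

theorem grMap_comp {H K : Type*} [Group H] [Group K] (g : H →* K) (f : G →* H) :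
    grMap R (g.comp f) = (grMap R g).comp (grMap R f) := by
  apply grHom_ext
  intro x r
  rw [NonUnitalStarRingHom.comp_apply, grMap_single, grMap_single, grMap_single]
  rfl

end GroupRing

/-! ### The homomorphism of a pair of almost equal cocycles -/

section Pair

variable {G A K : Type*} [Group G] [Group K] (R : Type*) [Ring R] [StarRing R]

/-- The monomial representation with labels given by a cocycle. -/
noncomputable def mRep (σ : G →* Equiv.Perm A) (c : G → A → K)
    (h : ∀ g h a, c (g * h) a = c g (σ h a) * c h a) : G →* Op (MonoidAlgebra R K) A where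
  toFun g := monoOp (σ g) (fun a => MonoidAlgebra.single (c g a) 1)
  map_one' := by
    apply Op.ext'; intro a
    simp [cocycle_one h, ← MonoidAlgebra.one_def]
  map_mul' g k := by
    rw [monoOp_mul]
    apply Op.ext'; intro a
    simp [h, MonoidAlgebra.single_mul_single]

theorem mRep_star (σ : G →* Equiv.Perm A) (c : G → A → K)
    (h : ∀ g h a, c (g * h) a = c g (σ h a) * c h a) (g : G) :
    star (mRep R σ c h g) = mRep R σ c h g⁻¹ := by
  change star (monoOp _ _) = monoOp _ _
  rw [monoOp_star]
  apply Op.ext'; intro a
  rw [monoOp_fn, monoOp_fn, cocycle_inv h g a, map_inv, gr_star_single, star_one]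

variable {R}

/-- The scalar operators with coefficients in `R`. -/
noncomputable def scal (R K A : Type*) [Ring R] [StarRing R] [Group K] :
    R →+* Op (MonoidAlgebra R K) A where
  toFun r := diagOp (fun _ => MonoidAlgebra.single (1 : K) r)
  map_one' := by
    apply Op.ext'; intro a
    simp [← MonoidAlgebra.one_def]
  map_mul' r s := by
    apply Op.ext'; intro a
    simp [MonoidAlgebra.single_mul_single]
  map_zero' := by
    apply Op.ext'; intro a
    simp
  map_add' r s := by
    apply Op.ext'; intro a
    simp

theorem scal_star (r : R) : scal R K A (star r) = star (scal R K A r) := by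
  change diagOp _ = star (diagOp _)
  rw [← diagOp_star]
  congr 1
  funext a
  rw [Pi.star_apply, gr_star_single, inv_one]

theorem scal_comm (σ : G →* Equiv.Perm A) (c : G → A → K)
    (h : ∀ g h a, c (g * h) a = c g (σ h a) * c h a) (r : R) (g : G) :
    Commute (scal R K A r) (mRep R σ c h g) := by
  apply Op.ext'
  intro a
  rw [Op.fn_mul, Op.fn_mul]
  change (diagOp _).fn ((monoOp _ _).fn _) = (monoOp _ _).fn ((diagOp _).fn _)
  rw [monoOp_fn, diagOp_fn, diagOp_fn, monoOp_fn, mul_one, mul_one,
    MonoidAlgebra.single_mul_single, MonoidAlgebra.single_mul_single, one_mul, mul_one, one_mul,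
    mul_one]

variable (κ : FinPair G A K)

theorem pRep_finRank (g : G) :
    FinRank (mRep R κ.σ κ.c κ.mul_c g - mRep R κ.σ κ.d κ.mul_d g) := by
  classical
  refine ⟨(κ.fin g).toFinset ∪ (κ.fin g).toFinset.image (fun a => κ.σ g a), fun a ha => ?_⟩
  simp only [Finset.mem_union, Set.Finite.mem_toFinset, Set.mem_ofPred_eq, Finset.mem_image,
    not_or, not_exists, not_and, not_not] at ha
  have h2 : κ.c g ((κ.σ g).symm a) = κ.d g ((κ.σ g).symm a) := by
    by_contra hne
    exact ha.2 _ hne (Equiv.apply_symm_apply _ a)
  constructor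
  · rw [Op.fn_sub]
    change (monoOp _ _).fn _ - (monoOp _ _).fn _ = 0
    rw [monoOp_fn, monoOp_fn, ha.1, sub_self]
  · rw [Op.ad_sub]
    change (monoOp _ _).ad _ - (monoOp _ _).ad _ = 0
    rw [monoOp_ad, monoOp_ad, h2, sub_self]

variable (R)

/-- The pair of monomial representations, with values in `D_A(R[K])`. -/
noncomputable def pRep : G →* DD (MonoidAlgebra R K) A where
  toFun g := DD.mk (mRep R κ.σ κ.c κ.mul_c g) (mRep R κ.σ κ.d κ.mul_d g) (pRep_finRank κ g)
  map_one' := DD.ext (by simp) (by simp)
  map_mul' g h := DD.ext (by simp) (by simp)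

/-- The scalar elements of `D_A(R[K])`. -/
noncomputable def dscal (A K : Type*) [Group K] : R →+* DD (MonoidAlgebra R K) A where
  toFun r := DD.mk (scal R K A r) (scal R K A r) (by rw [sub_self]; exact FinRank.zero)
  map_one' := DD.ext (by simp) (by simp)
  map_mul' g h := DD.ext (by simp) (by simp)
  map_zero' := DD.ext (by simp) (by simp)
  map_add' g h := DD.ext (by simp) (by simp)

/-- The homomorphism `R[G] → D_A(R[K])` of rings with involution attached to a pair. -/
noncomputable def pHom : MonoidAlgebra R G →⋆ₙ+* DD (MonoidAlgebra R K) A :=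
  grLift (dscal R A K) (pRep R κ)
    (fun r => DD.ext (scal_star r) (scal_star r))
    (fun g => DD.ext (mRep_star R κ.σ κ.c κ.mul_c g) (mRep_star R κ.σ κ.d κ.mul_d g))
    (fun r g => DD.ext (scal_comm κ.σ κ.c κ.mul_c r g).eq (scal_comm κ.σ κ.d κ.mul_d r g).eq)

theorem pHom_fst (g : G) (r : R) : (pHom R κ (MonoidAlgebra.single g r)).fst =
    monoOp (κ.σ g) (fun a => MonoidAlgebra.single (κ.c g a) r) := by
  unfold pHom
  rw [grLift_single]
  change scal R K A r * monoOp _ _ = _
  apply Op.ext'
  intro a
  rw [Op.fn_mul, monoOp_fn, monoOp_fn]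
  change (diagOp _).fn _ = _
  rw [diagOp_fn, mul_one, mul_one, MonoidAlgebra.single_mul_single, one_mul, mul_one]

theorem pHom_snd (g : G) (r : R) : (pHom R κ (MonoidAlgebra.single g r)).snd =
    monoOp (κ.σ g) (fun a => MonoidAlgebra.single (κ.d g a) r) := by
  unfold pHom
  rw [grLift_single]
  change scal R K A r * monoOp _ _ = _
  apply Op.ext'
  intro a
  rw [Op.fn_mul, monoOp_fn, monoOp_fn]
  change (diagOp _).fn _ = _
  rw [diagOp_fn, mul_one, mul_one, MonoidAlgebra.single_mul_single, one_mul, mul_one]

end Pair

end Pool.Agent.Y477.IW
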