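import Pool.Agent.Y477.IW.Base
import Pool.Agent.Y483.WGroup

/-!
The quadratic L-group `L₀(R; ε)` of nonsingular quadratic forms on finitely generated projective
modules, as an integral functor of rings with involution.
-/

namespace Pool.Agent.Y477.IW

open Pool.Agent.Y483 Matrix

section

variable (ε : ℤˣ)

theorem wg_ext {R : Type} [Ring R] [StarRing R] {V : Type*} [AddCommGroup V]
    {f g : WG R ε →+ V} (h : ∀ (ι : Type) [Fintype ι] (x : QForm R ε ι),
      f (WG.cls x) = g (WG.cls x)) (z : WG R ε) : f z = g z := by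
  obtain ⟨x, rfl⟩ := WG.cls_surj z
  exact h x.ι x.q

theorem wg_map_add {R S : Type} [Ring R] [StarRing R] [Ring S] [StarRing S] (f g h : R →⋆ₙ+* S)
    (h1 : ∀ x, h x = f x + g x) (h2 : ∀ x y, f x * g y = 0) (z : WG R ε) :
    WG.map h z = WG.map f z + WG.map g z := by
  have h3 : ∀ x y, g x * f y = 0 := by
    intro x y
    have := congrArg star (h2 (star y) (star x))
    rw [star_mul, star_zero, ← map_star, ← map_star, star_star, star_star] at this
    exact this
  have hm : ∀ {ι : Type} (M : Matrix ι ι R), M.map h = M.map f + M.map g := by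
    intro n M; ext i j; exact h1 _
  have ho : ∀ {ι : Type} [Fintype ι] (M N : Matrix ι ι R), M.map f * N.map g = 0 := by
    intro n _ M N; ext i j
    rw [Matrix.mul_apply]
    exact Finset.sum_eq_zero fun k _ => h2 _ _
  have ho' : ∀ {ι : Type} [Fintype ι] (M N : Matrix ι ι R), M.map g * N.map f = 0 := by
    intro n _ M N; ext i j
    rw [Matrix.mul_apply]
    exact Finset.sum_eq_zero fun k _ => h3 _ _
  rw [← AddMonoidHom.add_apply]
  apply wg_ext
  intro ι _ x
  rw [AddMonoidHom.add_apply, WG.map_cls, WG.map_cls, WG.map_cls]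
  apply WG.cls_internal
  · exact hm _
  · exact hm _
  · rw [QForm.map_phi]; exact ho _ _
  · rw [QForm.map_phi]; exact ho' _ _

theorem wg_map_conj {R S : Type} [Ring R] [StarRing R] [Ring S] [StarRing S] (f g : R →⋆ₙ+* S)
    (u : S) (h1 : star u * u = 1) (_ : u * star u = 1) (h2 : ∀ x, g x = u * f x * star u)
    (z : WG R ε) : WG.map g z = WG.map f z := by
  classical
  apply wg_ext
  intro ι _ x
  rw [WG.map_cls, WG.map_cls]
  symm
  apply WG.cls_isometric
  have hd : ∀ (M : Matrix ι ι S),
      Matrix.diagonal (fun _ => u) * M * (Matrix.diagonal (fun _ => u))ᴴ =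
        Matrix.of fun i j => u * M i j * star u := by
    intro M
    ext i j
    rw [Matrix.diagonal_conjTranspose, Matrix.mul_diagonal, Matrix.diagonal_mul]
    rfl
  refine ⟨Matrix.diagonal (fun _ => u), ?_, 0, ?_⟩
  · rw [hd]
    ext i j
    exact (h2 _).symm
  · rw [dag_zero, sub_zero, add_zero]
    ext i j
    rw [Matrix.diagonal_conjTranspose, Matrix.mul_diagonal, Matrix.diagonal_mul]
    change star u * g (x.θ i j) * u = f (x.θ i j)
    rw [h2]
    calc star u * (u * f (x.θ i j) * star u) * u =
        (star u * u) * f (x.θ i j) * (star u * u) := by simp only [mul_assoc]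
      _ = f (x.θ i j) := by rw [h1]; simp

/-- The quadratic L-group as an integral functor. -/
noncomputable def lFun : IFunctor.{1} where
  obj R _ _ := WG R ε
  grp R _ _ := inferInstance
  map f := WG.map f
  map_id R _ _ z := by
    have h : ∀ z : WG R ε, WG.map (NonUnitalStarRingHom.id R) z = AddMonoidHom.id _ z :=
      wg_ext ε (fun ι _ x => rfl)
    exact h z
  map_comp {R S T} _ _ _ _ _ _ g f z := by
    have h : ∀ z : WG R ε, WG.map (g.comp f) z = (WG.map g).comp (WG.map f) z :=
      wg_ext ε (fun ι _ x => rfl)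
    exact h z
  map_add f g h h1 h2 z := wg_map_add ε f g h h1 h2 z
  map_conj f g u h1 h2 h3 z := wg_map_conj ε f g u h1 h2 h3 z
  corner_inj S _ _ A a := WG.corner_inj S ε A a

end

/-- An element of a group ring is fixed by the endomorphisms which fix its support. -/
theorem grMap_fix {R G : Type} [Ring R] [StarRing R] [Group G] (z : MonoidAlgebra R G)
    (f : G →* G) (h : ∀ g ∈ z.coeff.support, f g = g) : grMap R f z = z := by
  have e := MonoidAlgebra.sum_coeff_single z
  rw [Finsupp.sum] at e
  conv_lhs => rw [← e]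
  conv_rhs => rw [← e]
  rw [map_sum]
  apply Finset.sum_congr rfl
  intro g hg
  rw [grMap_single, h g hg]

theorem lFun_cont (ε : ℤˣ) (R : Type) [Ring R] [StarRing R] : (lFun ε).Cont R := by
  classical
  intro G _ z
  obtain ⟨x, rfl⟩ := WG.cls_surj (R := MonoidAlgebra R G) (ε := ε) z
  refine ⟨(Finset.univ.biUnion fun i => Finset.univ.biUnion fun j =>
    (x.q.θ i j).coeff.support ∪ (x.q.ψ i j).coeff.support), fun f hf => ?_⟩
  have hfix : ∀ i j, grMap R f (x.q.θ i j) = x.q.θ i j ∧ grMap R f (x.q.ψ i j) = x.q.ψ i j := by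
    intro i j
    constructor
    · apply grMap_fix
      intro g hg
      apply hf
      rw [Finset.mem_biUnion]
      refine ⟨i, Finset.mem_univ _, ?_⟩
      rw [Finset.mem_biUnion]
      exact ⟨j, Finset.mem_univ _, Finset.mem_union_left _ hg⟩
    · apply grMap_fix
      intro g hg
      apply hf
      rw [Finset.mem_biUnion]
      refine ⟨i, Finset.mem_univ _, ?_⟩
      rw [Finset.mem_biUnion]
      exact ⟨j, Finset.mem_univ _, Finset.mem_union_right _ hg⟩
  change WG.map (grMap R f) (WG.cls x.q) = WG.cls x.q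
  rw [WG.map_cls]
  congr 1
  apply QForm.ext
  · funext i j
    exact (hfix i j).1
  · funext i j
    exact (hfix i j).2

end Pool.Agent.Y477.IW
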