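import Pool.Agent.Y477.IW.Pres
import Pool.Agent.Y477.IW.LFun

/-!
The quadratic L-groups of the group rings of restricted wreath products.
-/

namespace Pool.Agent.Y477.IW

open Pool.Agent.Y483 CategoryTheory

universe v

theorem lgr_map_id (R : Type) [Ring R] [StarRing R] (ε : ℤˣ) (G : Type) [Group G]
    (z : WG (MonoidAlgebra R G) ε) : WG.map (grMap R (MonoidHom.id G)) z = z :=
  (lFun ε).gmap_id R z

theorem lgr_map_comp (R : Type) [Ring R] [StarRing R] (ε : ℤˣ) {G K L : Type} [Group G] [Group K]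
    [Group L] (g : K →* L) (f : G →* K) (z : WG (MonoidAlgebra R G) ε) :
    WG.map (grMap R (g.comp f)) z = WG.map (grMap R g) (WG.map (grMap R f) z) :=
  (lFun ε).gmap_comp R g f z

/-- The functor `G ↦ L₀(R[G]; ε)` of the group `G`. -/
noncomputable def lgr (R : Type) [Ring R] [StarRing R] (ε : ℤˣ) :
    GrpCat.{0} ⥤ AddCommGrpCat.{1} where
  obj G := AddCommGrpCat.of (WG (MonoidAlgebra R G) ε)
  map f := AddCommGrpCat.ofHom (WG.map (grMap R f.hom))
  map_id G := by
    apply AddCommGrpCat.hom_ext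
    ext x
    exact lgr_map_id R ε G x
  map_comp f g := by
    apply AddCommGrpCat.hom_ext
    ext x
    exact lgr_map_comp R ε g.hom f.hom x

theorem finite_eq_bot {Γ : Type} [Group Γ] (h : ∀ g : Γ, g ≠ 1 → ¬ IsOfFinOrder g)
    (H : Subgroup Γ) (hH : Finite H) : H = ⊥ := by
  rw [eq_bot_iff]
  intro g hg
  rw [Subgroup.mem_bot]
  by_contra hne
  apply h g hne
  have h1 : IsOfFinOrder (⟨g, hg⟩ : H) := isOfFinOrder_of_finite _
  exact (Submonoid.isOfFinOrder_coe (x := (⟨g, hg⟩ : H))).mpr h1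

end Pool.Agent.Y477.IW
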