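import Pool.Agent.Y477.IW.GR
import Pool.Agent.Y483.Assembly

/-!
Functors from rings with involution to abelian groups having the formal properties of K-theory and
L-theory, and the comparison of two almost equal cocycles.
-/

namespace Pool.Agent.Y477.IW

open Pool.Agent.Y483

universe v

/-- A functor `E` from rings with involution and (not necessarily unital) homomorphisms of rings
with involution to abelian groups, having the following three formal properties of K-theory and
L-theory.

* `map_add`: if `h = f + g` with `f(x) g(y) = 0` for all `x, y`, then `E(h) = E(f) + E(g)`.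
* `map_conj`: `E(u f u^*) = E(f)` for a unitary `u`.
* `corner_inj`: the corner embedding `S → D_A(S)`, `s ↦ (s e_{aa}, 0)`, induces an injection. -/
structure IFunctor where
  /-- The values. -/
  obj : ∀ (R : Type) [Ring R] [StarRing R], Type v
  /-- The group structure. -/
  grp : ∀ (R : Type) [Ring R] [StarRing R], AddCommGroup (obj R)
  /-- The induced maps. -/
  map : ∀ {R S : Type} [Ring R] [StarRing R] [Ring S] [StarRing S],
    (R →⋆ₙ+* S) → (obj R →+ obj S)
  map_id : ∀ (R : Type) [Ring R] [StarRing R] (x : obj R), map (NonUnitalStarRingHom.id R) x = x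
  map_comp : ∀ {R S T : Type} [Ring R] [StarRing R] [Ring S] [StarRing S] [Ring T] [StarRing T]
    (g : S →⋆ₙ+* T) (f : R →⋆ₙ+* S) (x : obj R), map (g.comp f) x = map g (map f x)
  map_add : ∀ {R S : Type} [Ring R] [StarRing R] [Ring S] [StarRing S] (f g h : R →⋆ₙ+* S),
    (∀ x, h x = f x + g x) → (∀ x y, f x * g y = 0) → ∀ x, map h x = map f x + map g x
  map_conj : ∀ {R S : Type} [Ring R] [StarRing R] [Ring S] [StarRing S] (f g : R →⋆ₙ+* S) (u : S),
    star u * u = 1 → u * star u = 1 → (∀ x, g x = u * f x * star u) → ∀ x, map g x = map f x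
  corner_inj : ∀ (S : Type) [Ring S] [StarRing S] (A : Type) (a : A),
    Function.Injective (map (corner S A a))

attribute [instance] IFunctor.grp

section Diagonal

variable {R S A : Type} [Ring R] [StarRing R] [Ring S] [StarRing S]

/-- The zero homomorphism is sent to zero. -/
theorem IFunctor.map_zero_hom (E : IFunctor.{v}) (f : R →⋆ₙ+* S) (h : ∀ r, f r = 0)
    (x : E.obj R) : E.map f x = 0 := by
  have h2 := E.map_add f f f (fun r => by simp [h]) (fun r s => by simp [h]) x
  exact left_eq_add.mp h2

open Classical in
theorem IFunctor.map_blockHom (E : IFunctor.{v}) (φ : A → (R →⋆ₙ+* S)) (Y : Finset A)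
    (x : E.obj R) :
    E.map (blockHom φ Y) x = ∑ a ∈ Y, E.map (corner S A a) (E.map (φ a) x) := by
  induction Y using Finset.induction_on with
  | empty =>
    rw [Finset.sum_empty]
    apply E.map_zero_hom
    intro r
    apply DD.ext
    · change diagOp _ = 0
      rw [← diagOp_zero]; congr 1
    · rfl
  | insert a Y ha ih =>
    rw [Finset.sum_insert ha, ← ih, ← E.map_comp]
    apply E.map_add
    · intro r
      apply DD.ext
      · change diagOp _ = diagOp _ + diagOp _
        rw [← diagOp_add]; congr 1; funext b
        by_cases hb : b = a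
        · subst hb; simp [ha]
        · simp [hb]
      · change (0 : Op S A) = 0 + 0
        simp
    · intro r s
      apply DD.ext
      · change diagOp _ * diagOp _ = 0
        rw [← diagOp_mul, ← diagOp_zero]; congr 1; funext b
        by_cases hb : b = a
        · subst hb; simp [ha]
        · simp [hb]
      · change (0 : Op S A) * 0 = 0
        simp

open Classical in
/-- The corner embeddings at different places induce the same map. -/
theorem IFunctor.map_corner (E : IFunctor.{v}) (a b : A) (x : E.obj S) :
    E.map (corner S A a) x = E.map (corner S A b) x := by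
  let p : Op S A := monoOp (Equiv.swap a b) (fun _ => 1)
  have hp : star p = p := by
    apply Op.ext'; intro c
    rw [monoOp_star, monoOp_fn, monoOp_fn]
    simp
  have hpp : p * p = 1 := by
    rw [monoOp_mul]
    apply Op.ext'; intro c
    simp
  let u : DD S A := DD.mk p p (by rw [sub_self]; exact FinRank.zero)
  have hu : star u = u := DD.ext hp hp
  have huu : u * u = 1 := DD.ext hpp hpp
  refine E.map_conj (corner S A b) (corner S A a) u (by rw [hu, huu]) (by rw [hu, huu]) ?_ x
  intro s
  rw [hu]
  apply DD.ext
  · simp only [DD.fst_mul, corner_fst]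
    change diagOp _ = p * diagOp _ * p
    apply Op.ext'; intro c
    simp only [Op.fn_mul, diagOp_fn, p, monoOp_fn, one_mul, mul_one]
    by_cases h1 : c = a
    · subst h1; simp
    · by_cases h2 : c = b
      · subst h2
        simp [Pi.single_eq_of_ne (M := fun _ => S) h1,
          Pi.single_eq_of_ne (M := fun _ => S) (Ne.symm h1)]
      · simp [Equiv.swap_apply_of_ne_of_ne h1 h2, Pi.single_eq_of_ne (M := fun _ => S) h1,
          Pi.single_eq_of_ne (M := fun _ => S) h2]
  · simp only [DD.snd_mul, corner_snd]
    simp

end Diagonal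

/-! ### The values on group rings -/

section Group

variable (E : IFunctor.{v}) (R : Type) [Ring R] [StarRing R]

/-- The value on the group ring `R[G]`. -/
abbrev IFunctor.gobj (G : Type) [Group G] : Type v := E.obj (MonoidAlgebra R G)

variable {G K L : Type} [Group G] [Group K] [Group L]

/-- The map induced by a homomorphism of groups. -/
noncomputable abbrev IFunctor.gmap (f : G →* K) : E.gobj R G →+ E.gobj R K := E.map (grMap R f)

theorem IFunctor.gmap_id (x : E.gobj R G) : E.gmap R (MonoidHom.id G) x = x := by
  rw [IFunctor.gmap, grMap_id, E.map_id]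

theorem IFunctor.gmap_comp (g : K →* L) (f : G →* K) (x : E.gobj R G) :
    E.gmap R (g.comp f) x = E.gmap R g (E.gmap R f x) := by
  rw [IFunctor.gmap, grMap_comp, E.map_comp]

/-- Inner automorphisms of the target act trivially. -/
theorem IFunctor.gmap_conj (f : G →* K) (k : K) (x : E.gobj R G) :
    E.gmap R ((MulAut.conj k).toMonoidHom.comp f) x = E.gmap R f x := by
  apply E.map_conj (grMap R f) _ (MonoidAlgebra.single k 1)
  · rw [gr_star_single, MonoidAlgebra.single_mul_single, inv_mul_cancel, star_one, one_mul,
      MonoidAlgebra.one_def]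
  · rw [gr_star_single, MonoidAlgebra.single_mul_single, mul_inv_cancel, star_one, one_mul,
      MonoidAlgebra.one_def]
  · intro x
    have h : ((grMap R ((MulAut.conj k).toMonoidHom.comp f) :
        MonoidAlgebra R G →+ MonoidAlgebra R K)) =
        ((AddMonoidHom.mulRight (star (MonoidAlgebra.single k (1 : R)))).comp
          (AddMonoidHom.mulLeft (MonoidAlgebra.single k (1 : R)))).comp
            (grMap R f : MonoidAlgebra R G →+ MonoidAlgebra R K) := by
      apply MonoidAlgebra.addMonoidHom_ext
      intro g r
      change grMap R _ (MonoidAlgebra.single g r) = MonoidAlgebra.single k 1 *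
        grMap R f (MonoidAlgebra.single g r) * star (MonoidAlgebra.single k (1 : R))
      rw [grMap_single, grMap_single, gr_star_single, MonoidAlgebra.single_mul_single,
        MonoidAlgebra.single_mul_single, one_mul, star_one, mul_one]
      rfl
    exact DFunLike.congr_fun h x

end Group

/-! ### The comparison -/

section Compare

variable {G A K G₀ G₁ : Type} [Group G] [MulAction G A] [Group K] [Group G₀] [Group G₁]
  {R : Type} [Ring R] [StarRing R]

/-- The pair of a cocycle of finite support and the trivial cocycle. -/
def ipair (κ : FinCocycle G A K) : FinPair G A K where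
  σ := MulAction.toPermHom G A
  c := κ.c
  d _ _ := 1
  mul_c := κ.mul
  mul_d _ _ _ := (one_mul _).symm
  fin := κ.fin

/-- The trivial cocycle. -/
def coc0 (G A K : Type) [Group G] [MulAction G A] [Group K] : FinCocycle G A K where
  c _ _ := 1
  mul _ _ _ := (one_mul _).symm
  fin _ := by simp

theorem decomp (κ : FinCocycle G A K)
    (j : G₀ →* G) (hj : ∀ g (a : A), j g • a = a) (Y : Finset A)
    (hY : ∀ a ∉ Y, ∀ g, κ.c (j g) a = 1) (x : MonoidAlgebra R G₀) :
    ((pHom R (ipair κ)).comp (grMap R j)) x =
      blockHom (fun a => grMap R (κ.label j hj a)) Y x +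
      ((coHom (MonoidAlgebra R K) A Y).comp (grMap R (1 : G₀ →* K))) x := by
  classical
  revert x
  apply grHom_add_ext
  intro g r
  rw [NonUnitalStarRingHom.comp_apply, NonUnitalStarRingHom.comp_apply, grMap_single,
    grMap_single]
  have hσ : ∀ a : A, (ipair κ).σ (j g) a = a := fun a => hj g a
  apply DD.ext
  · rw [DD.fst_add, pHom_fst]
    change monoOp _ _ = diagOp _ + diagOp _
    apply Op.ext'; intro a
    rw [monoOp_fn, Op.fn_add, diagOp_fn, diagOp_fn, hσ]
    by_cases ha : a ∈ Y
    · simp only [ha, if_true, zero_mul, Finsupp.single_zero, add_zero]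
      rw [grMap_single]; rfl
    · simp only [ha, if_false, zero_mul, Finsupp.single_zero, zero_add]
      have : (ipair κ).c (j g) a = 1 := hY a ha g
      rw [this]
      rfl
  · rw [DD.snd_add, pHom_snd]
    change monoOp _ _ = (0 : Op _ A) + diagOp _
    apply Op.ext'; intro a
    rw [monoOp_fn, Op.fn_add, diagOp_fn, hσ, Op.fn_zero, zero_add]
    rfl

theorem map_decomp (E : IFunctor.{v}) (κ : FinCocycle G A K)
    (j : G₀ →* G) (hj : ∀ g (a : A), j g • a = a) (Y : Finset A)
    (hY : ∀ a ∉ Y, ∀ g, κ.c (j g) a = 1) (x : E.gobj R G₀) :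
    E.map (pHom R (ipair κ)) (E.gmap R j x) =
      ∑ a ∈ Y, E.map (corner (MonoidAlgebra R K) A a) (E.gmap R (κ.label j hj a) x) +
      E.map ((coHom (MonoidAlgebra R K) A Y).comp (grMap R (1 : G₀ →* K))) x := by
  rw [← E.map_comp, ← E.map_blockHom]
  exact E.map_add _ _ _ (decomp κ j hj Y hY) (block_orth _ _ Y) x

/-- **Key identity.** If the images in `E(R[G])` of a class `x` of a subgroup `G₀` acting trivially
on `A`, with labels trivial outside the finite set `Y`, and of a class `y` of a subgroup `G₁` with
trivial labels are equal, then the reduced images of `x` under the labels sum to zero. -/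
theorem key (E : IFunctor.{v}) (κ : FinCocycle G A K)
    (j : G₀ →* G) (hj : ∀ g (a : A), j g • a = a) (Y : Finset A)
    (hY : ∀ a ∉ Y, ∀ g, κ.c (j g) a = 1) (i : G₁ →* G) (hi : ∀ g a, κ.c (i g) a = 1)
    (x : E.gobj R G₀) (y : E.gobj R G₁) (hxy : E.gmap R j x = E.gmap R i y) :
    ∑ a ∈ Y, (E.gmap R (κ.label j hj a) x - E.gmap R (1 : G₀ →* K) x) = 0 := by
  rcases Y.eq_empty_or_nonempty with rfl | ⟨a₀, -⟩
  · simp
  apply E.corner_inj (MonoidAlgebra R K) A a₀
  rw [map_zero, map_sum]
  have h1 := map_decomp E κ j hj Y hY x
  have h2 := map_decomp E (coc0 G A K) j hj Y (fun _ _ _ => rfl) x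
  have h3 : E.map (pHom R (ipair κ)) (E.gmap R i y) =
      E.map (pHom R (ipair (coc0 G A K))) (E.gmap R i y) := by
    rw [← E.map_comp, ← E.map_comp]
    have e : (pHom R (ipair κ)).comp (grMap R i) =
        (pHom R (ipair (coc0 G A K))).comp (grMap R i) := by
      apply grHom_ext
      intro g r
      rw [NonUnitalStarRingHom.comp_apply, NonUnitalStarRingHom.comp_apply, grMap_single]
      apply DD.ext
      · rw [pHom_fst, pHom_fst]
        congr 1
        funext a
        change MonoidAlgebra.single (κ.c (i g) a) r = MonoidAlgebra.single 1 r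
        rw [hi]
      · rw [pHom_snd, pHom_snd]
        rfl
    rw [e]
  rw [hxy, h3, ← hxy, h2] at h1
  have h4 := add_right_cancel h1
  have h5 : ∀ a, (coc0 G A K).label j hj a = (1 : G₀ →* K) := fun a => rfl
  have h6 : ∑ a ∈ Y, E.map (corner (MonoidAlgebra R K) A a₀)
      (E.gmap R (κ.label j hj a) x - E.gmap R (1 : G₀ →* K) x) =
      ∑ a ∈ Y, E.map (corner (MonoidAlgebra R K) A a) (E.gmap R (κ.label j hj a) x) -
      ∑ a ∈ Y, E.map (corner (MonoidAlgebra R K) A a)
        (E.gmap R ((coc0 G A K).label j hj a) x) := by
    rw [← Finset.sum_sub_distrib]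
    apply Finset.sum_congr rfl
    intro a _
    rw [h5, map_sub, E.map_corner a₀ a, E.map_corner a₀ a]
  rw [h6, ← h4, sub_self]

end Compare

end Pool.Agent.Y477.IW
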