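import Mathlib

/-!
The group `K₁(R)` of a ring, classes of invertible matrices with arbitrary finite index sets, and
the identity `[1 + αβ] = [1 + βα]`.
-/

namespace Pool.Agent.Y477.IW

open Matrix

/-! ### Homomorphisms which need not preserve the unit -/

section Unz

variable {A B C : Type*} [Ring A] [Ring B] [Ring C]

/-- The homomorphism `a ↦ f(a) + (1 - f(1))` of multiplicative monoids attached to an additive and
multiplicative map which need not preserve the unit. -/
def unz (f : A →ₙ+* B) : A →* B where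
  toFun a := f a + (1 - f 1)
  map_one' := by rw [add_sub_cancel]
  map_mul' a b := by
    have h1 : f a * f 1 = f a := by rw [← map_mul, mul_one]
    have h2 : f 1 * f b = f b := by rw [← map_mul, one_mul]
    have h3 : f 1 * f 1 = f 1 := by rw [← map_mul, one_mul]
    simp only [map_mul, mul_add, add_mul, mul_sub, sub_mul, mul_one, one_mul, h1, h2, h3]
    abel

theorem unz_apply (f : A →ₙ+* B) (a : A) : unz f a = f a + (1 - f 1) := rfl

theorem unz_comp (g : B →ₙ+* C) (f : A →ₙ+* B) (a : A) : unz (g.comp f) a = unz g (unz f a) := by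
  simp only [unz_apply, NonUnitalRingHom.comp_apply, map_add, map_sub]
  abel

theorem unz_id (a : A) : unz (NonUnitalRingHom.id A) a = a := by
  simp [unz_apply]

/-- The map induced on the groups of units. -/
def unzU (f : A →ₙ+* B) : Aˣ →* Bˣ := Units.map (unz f)

theorem unzU_val (f : A →ₙ+* B) (a : Aˣ) : (unzU f a : B) = f a + (1 - f 1) := rfl

theorem unzU_inv (f : A →ₙ+* B) (a : Aˣ) : ((unzU f a)⁻¹ : Bˣ) = unzU f a⁻¹ := (map_inv _ _).symm

theorem unzU_comp (g : B →ₙ+* C) (f : A →ₙ+* B) (a : Aˣ) :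
    unzU (g.comp f) a = unzU g (unzU f a) := Units.ext (unz_comp g f a)

end Unz

/-! ### Placing a matrix in a larger one -/

section Inj

variable {R : Type*} [Ring R] {ι κ μ : Type*} [Fintype ι] [Fintype κ] [Fintype μ]

open Classical in
/-- The matrix with the entries of `X` at the image of an injection `f` and `0` elsewhere. -/
noncomputable def injR (R : Type*) [Ring R] {ι κ : Type*} [Fintype ι] [Fintype κ] (f : ι ↪ κ) :
    Matrix ι ι R →ₙ+* Matrix κ κ R where
  toFun X := Matrix.of fun a b =>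
    if h : (∃ i, f i = a) ∧ ∃ j, f j = b then X h.1.choose h.2.choose else 0
  map_zero' := by
    ext a b
    simp
  map_add' X Y := by
    ext a b
    simp only [Matrix.of_apply, Matrix.add_apply]
    split_ifs <;> simp
  map_mul' X Y := by
    ext a b
    simp only [Matrix.of_apply, Matrix.mul_apply]
    by_cases ha : ∃ i, f i = a
    · by_cases hb : ∃ j, f j = b
      · rw [dif_pos ⟨ha, hb⟩]
        apply Fintype.sum_of_injective f f.injective
        · intro c hc
          rw [dif_neg, zero_mul]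
          rintro ⟨-, k, hk⟩
          exact hc ⟨k, hk⟩
        · intro k
          have hk : ∃ j, f j = f k := ⟨k, rfl⟩
          rw [dif_pos ⟨ha, hk⟩, dif_pos ⟨hk, hb⟩]
          have e : hk.choose = k := f.injective hk.choose_spec
          rw [e]
      · rw [dif_neg (fun h => hb h.2)]
        symm
        apply Finset.sum_eq_zero
        intro c _
        rw [dif_neg (fun h => hb h.2) (c := (∃ i, f i = c) ∧ ∃ j, f j = b), mul_zero]
    · rw [dif_neg (fun h => ha h.1)]
      symm
      apply Finset.sum_eq_zero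
      intro c _
      rw [dif_neg (fun h => ha h.1) (c := (∃ i, f i = a) ∧ ∃ j, f j = c), zero_mul]

theorem injR_apply (f : ι ↪ κ) (X : Matrix ι ι R) (i j : ι) : injR R f X (f i) (f j) = X i j := by
  classical
  have hi : ∃ k, f k = f i := ⟨i, rfl⟩
  have hj : ∃ k, f k = f j := ⟨j, rfl⟩
  change (if h : (∃ k, f k = f i) ∧ ∃ k, f k = f j then X h.1.choose h.2.choose else 0) = X i j
  rw [dif_pos ⟨hi, hj⟩]
  have e1 : hi.choose = i := f.injective hi.choose_spec
  have e2 : hj.choose = j := f.injective hj.choose_spec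
  rw [e1, e2]

theorem injR_left (f : ι ↪ κ) (X : Matrix ι ι R) {a : κ} (ha : a ∉ Set.range f) (b : κ) :
    injR R f X a b = 0 := by
  classical
  exact dif_neg (fun h => ha h.1)

theorem injR_right (f : ι ↪ κ) (X : Matrix ι ι R) (a : κ) {b : κ} (hb : b ∉ Set.range f) :
    injR R f X a b = 0 := by
  classical
  exact dif_neg (fun h => hb h.2)

theorem injR_comp (g : κ ↪ μ) (f : ι ↪ κ) :
    (injR R g).comp (injR R f) = injR R (f.trans g) := by
  apply NonUnitalRingHom.ext
  intro X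
  ext a b
  rw [NonUnitalRingHom.comp_apply]
  by_cases ha : a ∈ Set.range g
  · obtain ⟨c, rfl⟩ := ha
    by_cases hb : b ∈ Set.range g
    · obtain ⟨d, rfl⟩ := hb
      rw [injR_apply]
      by_cases hc : c ∈ Set.range f
      · obtain ⟨i, rfl⟩ := hc
        by_cases hd : d ∈ Set.range f
        · obtain ⟨j, rfl⟩ := hd
          rw [injR_apply]
          exact (injR_apply (f.trans g) X i j).symm
        · rw [injR_right f X _ hd, injR_right (f.trans g)]
          rintro ⟨j, hj⟩
          exact hd ⟨j, g.injective hj⟩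
      · rw [injR_left f X hc, injR_left (f.trans g)]
        rintro ⟨j, hj⟩
        exact hc ⟨j, g.injective hj⟩
    · rw [injR_right g _ _ hb, injR_right (f.trans g)]
      rintro ⟨j, hj⟩
      exact hb ⟨f j, hj⟩
  · rw [injR_left g _ ha, injR_left (f.trans g)]
    rintro ⟨j, hj⟩
    exact ha ⟨f j, hj⟩

/-- The entrywise image of a matrix. -/
def mapR {R S : Type*} [Ring R] [Ring S] (ι : Type*) [Fintype ι] (φ : R →ₙ+* S) :
    Matrix ι ι R →ₙ+* Matrix ι ι S where
  toFun X := X.map φ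
  map_zero' := by ext; simp
  map_add' X Y := by ext; simp
  map_mul' X Y := Matrix.map_mul

theorem mapR_injR {S : Type*} [Ring S] (φ : R →ₙ+* S) (f : ι ↪ κ) :
    (mapR κ φ).comp (injR R f) = (injR S f).comp (mapR ι φ) := by
  apply NonUnitalRingHom.ext
  intro X
  ext a b
  change φ (injR R f X a b) = injR S f (X.map φ) a b
  by_cases ha : a ∈ Set.range f
  · obtain ⟨i, rfl⟩ := ha
    by_cases hb : b ∈ Set.range f
    · obtain ⟨j, rfl⟩ := hb
      rw [injR_apply, injR_apply]
      rfl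
    · rw [injR_right f _ _ hb, injR_right f _ _ hb, map_zero]
  · rw [injR_left f _ ha, injR_left f _ ha, map_zero]

end Inj

/-! ### The group `K₁` -/

section Defs

/-- The relations `[M N] = [M] + [N]` and `[M'] = [M]`, where `M'` is obtained from `M` by
inserting diagonal entries `1`. -/
def K1Rel (R : Type) [Ring R] : Set (FreeAbelianGroup (Σ n : ℕ, (Matrix (Fin n) (Fin n) R)ˣ)) :=
  {x | (∃ (n : ℕ) (M N : (Matrix (Fin n) (Fin n) R)ˣ), x = FreeAbelianGroup.of ⟨n, M * N⟩ -
        (FreeAbelianGroup.of ⟨n, M⟩ + FreeAbelianGroup.of ⟨n, N⟩)) ∨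
      (∃ (n m : ℕ) (f : Fin n ↪ Fin m) (M : (Matrix (Fin n) (Fin n) R)ˣ),
        x = FreeAbelianGroup.of ⟨m, unzU (injR R f) M⟩ - FreeAbelianGroup.of ⟨n, M⟩)}

/-- `K₁(R)`: the abelian group generated by the classes `[M]` of the invertible matrices over `R`
with the relations `[M N] = [M] + [N]` and `[M'] = [M]`, where `M'` is obtained from `M` by
inserting diagonal entries `1`. -/
def K1 (R : Type) [Ring R] : Type :=
  FreeAbelianGroup (Σ n : ℕ, (Matrix (Fin n) (Fin n) R)ˣ) ⧸ AddSubgroup.closure (K1Rel R)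

instance (R : Type) [Ring R] : AddCommGroup (K1 R) :=
  QuotientAddGroup.Quotient.addCommGroup (AddSubgroup.closure (K1Rel R))

/-- The class `[M]` in `K₁(R)` of an invertible matrix. -/
def K1.mk {R : Type} [Ring R] {n : ℕ} (M : (Matrix (Fin n) (Fin n) R)ˣ) : K1 R :=
  QuotientAddGroup.mk (FreeAbelianGroup.of ⟨n, M⟩)

variable {R : Type} [Ring R]

theorem K1.mk_rel {x : FreeAbelianGroup (Σ n : ℕ, (Matrix (Fin n) (Fin n) R)ˣ)}
    (hx : x ∈ K1Rel R) : (QuotientAddGroup.mk x : K1 R) = 0 :=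
  (QuotientAddGroup.eq_zero_iff x).2 (AddSubgroup.subset_closure hx)

theorem K1.mk_mul {n : ℕ} (M N : (Matrix (Fin n) (Fin n) R)ˣ) :
    K1.mk (M * N) = K1.mk M + K1.mk N := by
  rw [← sub_eq_zero]
  exact K1.mk_rel (Or.inl ⟨n, M, N, rfl⟩)

theorem K1.mk_inj {n m : ℕ} (f : Fin n ↪ Fin m) (M : (Matrix (Fin n) (Fin n) R)ˣ) :
    K1.mk (unzU (injR R f) M) = K1.mk M := by
  rw [← sub_eq_zero]
  exact K1.mk_rel (Or.inr ⟨n, m, f, M, rfl⟩)

/-- Additive maps out of `K₁(R)`. -/
def K1.lift {V : Type*} [AddCommGroup V] (F : ∀ n : ℕ, (Matrix (Fin n) (Fin n) R)ˣ → V)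
    (h1 : ∀ n M N, F n (M * N) = F n M + F n N)
    (h2 : ∀ n m (f : Fin n ↪ Fin m) M, F m (unzU (injR R f) M) = F n M) : K1 R →+ V :=
  QuotientAddGroup.lift (AddSubgroup.closure (K1Rel R))
    (FreeAbelianGroup.lift fun x : Σ n : ℕ, (Matrix (Fin n) (Fin n) R)ˣ => F x.1 x.2) (by
      rw [AddSubgroup.closure_le]
      rintro x (⟨n, M, N, rfl⟩ | ⟨n, m, f, M, rfl⟩)
      · change FreeAbelianGroup.lift _ _ = 0
        rw [map_sub, map_add, FreeAbelianGroup.lift_apply_of, FreeAbelianGroup.lift_apply_of,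
          FreeAbelianGroup.lift_apply_of, h1, sub_self]
      · change FreeAbelianGroup.lift _ _ = 0
        rw [map_sub, FreeAbelianGroup.lift_apply_of, FreeAbelianGroup.lift_apply_of, h2,
          sub_self])

theorem K1.lift_mk {V : Type*} [AddCommGroup V] (F : ∀ n : ℕ, (Matrix (Fin n) (Fin n) R)ˣ → V)
    (h1 : ∀ n M N, F n (M * N) = F n M + F n N)
    (h2 : ∀ n m (f : Fin n ↪ Fin m) M, F m (unzU (injR R f) M) = F n M) {n : ℕ}
    (M : (Matrix (Fin n) (Fin n) R)ˣ) : K1.lift F h1 h2 (K1.mk M) = F n M := by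
  change QuotientAddGroup.lift _ _ _ (QuotientAddGroup.mk _) = _
  rw [QuotientAddGroup.lift_mk, FreeAbelianGroup.lift_apply_of]

theorem K1.mk_one (n : ℕ) : K1.mk (1 : (Matrix (Fin n) (Fin n) R)ˣ) = 0 := by
  have h := K1.mk_mul (1 : (Matrix (Fin n) (Fin n) R)ˣ) 1
  rw [mul_one] at h
  exact left_eq_add.mp h

/-- Every class is the class of one matrix. -/
theorem K1.exists_mk (x : K1 R) : ∃ (n : ℕ) (M : (Matrix (Fin n) (Fin n) R)ˣ), K1.mk M = x := by
  obtain ⟨x, rfl⟩ := QuotientAddGroup.mk_surjective x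
  induction x using FreeAbelianGroup.induction_on with
  | zero => exact ⟨0, 1, K1.mk_one 0⟩
  | of x => exact ⟨x.1, x.2, rfl⟩
  | neg x _ =>
    refine ⟨x.1, x.2⁻¹, ?_⟩
    have h := K1.mk_mul x.2 x.2⁻¹
    rw [mul_inv_cancel, K1.mk_one] at h
    have h2 : K1.mk x.2⁻¹ = -K1.mk x.2 := (neg_eq_of_add_eq_zero_right h.symm).symm
    rw [h2]
    rfl
  | add x y hx hy =>
    obtain ⟨n, M, hM⟩ := hx
    obtain ⟨m, N, hN⟩ := hy
    let f : Fin n ↪ Fin (n + m) := Fin.castAddEmb m
    let g : Fin m ↪ Fin (n + m) := Fin.natAddEmb n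
    refine ⟨n + m, unzU (injR R f) M * unzU (injR R g) N, ?_⟩
    rw [K1.mk_mul, K1.mk_inj, K1.mk_inj, hM, hN]
    rfl

theorem K1.hom_ext {V : Type*} [AddCommGroup V] {f g : K1 R →+ V}
    (h : ∀ (n : ℕ) (M : (Matrix (Fin n) (Fin n) R)ˣ), f (K1.mk M) = g (K1.mk M)) (x : K1 R) :
    f x = g x := by
  obtain ⟨n, M, rfl⟩ := K1.exists_mk x
  exact h n M

end Defs

/-! ### Classes of matrices with arbitrary finite index sets -/

section Cls

variable {R : Type} [Ring R] {ι κ μ : Type*} [Fintype ι] [Fintype κ] [Fintype μ] [DecidableEq ι]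
  [DecidableEq κ] [DecidableEq μ]

/-- The class of an invertible matrix with an arbitrary finite index set. -/
noncomputable def cls (M : (Matrix ι ι R)ˣ) : K1 R :=
  K1.mk (unzU (injR R (Fintype.equivFin ι).toEmbedding) M)

theorem cls_mul (M N : (Matrix ι ι R)ˣ) : cls (M * N) = cls M + cls N := by
  unfold cls
  rw [map_mul, K1.mk_mul]

theorem cls_one : cls (1 : (Matrix ι ι R)ˣ) = 0 := by
  have h := cls_mul (1 : (Matrix ι ι R)ˣ) 1
  rw [mul_one] at h
  exact left_eq_add.mp h

theorem cls_inv (M : (Matrix ι ι R)ˣ) : cls M⁻¹ = -cls M := by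
  have h := cls_mul M M⁻¹
  rw [mul_inv_cancel, cls_one] at h
  exact (neg_eq_of_add_eq_zero_right h.symm).symm

theorem cls_conj (M U : (Matrix ι ι R)ˣ) : cls (U * M * U⁻¹) = cls M := by
  rw [cls_mul, cls_mul, cls_inv]
  abel

theorem cls_comm (M N : (Matrix ι ι R)ˣ) : cls (M * N * M⁻¹ * N⁻¹) = 0 := by
  rw [cls_mul, cls_mul, cls_mul, cls_inv, cls_inv]
  abel

theorem mk_injR {n : ℕ} (f : ι ↪ Fin n) (M : (Matrix ι ι R)ˣ) :
    K1.mk (unzU (injR R f) M) = cls M := by
  let g : Fin (Fintype.card ι) ↪ Fin n := (Fintype.equivFin ι).symm.toEmbedding.trans f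
  have h : f = (Fintype.equivFin ι).toEmbedding.trans g := by
    ext i
    simp [g]
  rw [h, ← injR_comp, unzU_comp, K1.mk_inj]
  rfl

theorem cls_injR (f : ι ↪ κ) (M : (Matrix ι ι R)ˣ) : cls (unzU (injR R f) M) = cls M := by
  unfold cls
  rw [← unzU_comp, injR_comp, mk_injR]
  rfl

theorem cls_fin {n : ℕ} (M : (Matrix (Fin n) (Fin n) R)ˣ) : cls M = K1.mk M := by
  unfold cls
  rw [K1.mk_inj]

/-- The upper triangular matrix with blocks `1, B, 1`. -/
def upU (B : Matrix ι κ R) : (Matrix (ι ⊕ κ) (ι ⊕ κ) R)ˣ where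
  val := fromBlocks 1 B 0 1
  inv := fromBlocks 1 (-B) 0 1
  val_inv := by simp [fromBlocks_multiply, fromBlocks_one]
  inv_val := by simp [fromBlocks_multiply, fromBlocks_one]

/-- The lower triangular matrix with blocks `1, B, 1`. -/
def loU (B : Matrix κ ι R) : (Matrix (ι ⊕ κ) (ι ⊕ κ) R)ˣ where
  val := fromBlocks 1 0 B 1
  inv := fromBlocks 1 0 (-B) 1
  val_inv := by simp [fromBlocks_multiply, fromBlocks_one]
  inv_val := by simp [fromBlocks_multiply, fromBlocks_one]

end Cls

end Pool.Agent.Y477.IW
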