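import Pool.Agent.Y477.IW.K1

/-!
Elementary matrices vanish in `K₁`, and `[1 + αβ] = [1 + βα]` for rectangular matrices.
-/

namespace Pool.Agent.Y477.IW

set_option linter.unusedSectionVars false

open Matrix

variable {R : Type} [Ring R] {ι κ μ : Type*} [Fintype ι] [Fintype κ] [Fintype μ] [DecidableEq ι]
  [DecidableEq κ] [DecidableEq μ]

theorem injR_inl (X : Matrix ι ι R) :
    injR R (Function.Embedding.inl : ι ↪ ι ⊕ κ) X = fromBlocks X 0 0 0 := by
  have hr : ∀ b : κ, (Sum.inr b : ι ⊕ κ) ∉ Set.range (Function.Embedding.inl : ι ↪ ι ⊕ κ) := by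
    rintro b ⟨i, hi⟩
    exact Sum.inl_ne_inr hi
  ext a b
  rcases a with a | a
  · rcases b with b | b
    · exact injR_apply Function.Embedding.inl X a b
    · exact injR_right _ _ _ (hr b)
  · rcases b with b | b
    · exact injR_left _ _ (hr a) _
    · exact injR_left _ _ (hr a) _

theorem injR_inr (X : Matrix κ κ R) :
    injR R (Function.Embedding.inr : κ ↪ ι ⊕ κ) X = fromBlocks 0 0 0 X := by
  have hl : ∀ b : ι, (Sum.inl b : ι ⊕ κ) ∉ Set.range (Function.Embedding.inr : κ ↪ ι ⊕ κ) := by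
    rintro b ⟨i, hi⟩
    exact Sum.inr_ne_inl hi
  ext a b
  rcases a with a | a
  · rcases b with b | b
    · exact injR_left _ _ (hl a) _
    · exact injR_left _ _ (hl a) _
  · rcases b with b | b
    · exact injR_right _ _ _ (hl b)
    · exact injR_apply Function.Embedding.inr X a b

theorem unz_inl (U : (Matrix ι ι R)ˣ) :
    (unzU (injR R (Function.Embedding.inl : ι ↪ ι ⊕ κ)) U : Matrix (ι ⊕ κ) (ι ⊕ κ) R) =
      fromBlocks U.val 0 0 1 := by
  rw [unzU_val, injR_inl, injR_inl, ← fromBlocks_one, sub_eq_add_neg, fromBlocks_neg,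
    fromBlocks_add, fromBlocks_add]
  simp

theorem unz_inr (U : (Matrix κ κ R)ˣ) :
    (unzU (injR R (Function.Embedding.inr : κ ↪ ι ⊕ κ)) U : Matrix (ι ⊕ κ) (ι ⊕ κ) R) =
      fromBlocks 1 0 0 U.val := by
  rw [unzU_val, injR_inr, injR_inr, ← fromBlocks_one, sub_eq_add_neg, fromBlocks_neg,
    fromBlocks_add, fromBlocks_add]
  simp

/-- The embedding of `ι ⊕ κ` in `ι ⊕ (κ ⊕ κ)` with `κ` going to the second copy. -/
def embLast (ι κ : Type*) : ι ⊕ κ ↪ ι ⊕ (κ ⊕ κ) :=
  Function.Embedding.sumMap (Function.Embedding.refl ι) Function.Embedding.inr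

theorem embLast_inl (i : ι) : embLast ι κ (Sum.inl i) = Sum.inl i := rfl

theorem embLast_inr (k : κ) : embLast ι κ (Sum.inr k) = Sum.inr (Sum.inr k) := rfl

theorem upU_last (B : Matrix ι κ R) :
    unzU (injR R (embLast ι κ)) (upU B) = upU (fromCols (0 : Matrix ι κ R) B) := by
  apply Units.ext
  rw [unzU_val]
  have hmid : ∀ k : κ, (Sum.inr (Sum.inl k) : ι ⊕ (κ ⊕ κ)) ∉ Set.range (embLast ι κ) := by
    rintro k ⟨s, hs⟩
    rcases s with i | j
    · exact Sum.inl_ne_inr hs
    · exact Sum.inr_ne_inl (Sum.inr_injective hs)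
  change injR R (embLast ι κ) (fromBlocks 1 B 0 1) + (1 - injR R (embLast ι κ) 1) =
    fromBlocks 1 (fromCols 0 B) 0 1
  ext a b
  rw [Matrix.add_apply, Matrix.sub_apply]
  rcases a with a | a | a
  · rcases b with b | b | b
    · rw [← embLast_inl (κ := κ) a, ← embLast_inl (κ := κ) b, injR_apply, injR_apply]
      rw [embLast_inl, embLast_inl, fromBlocks_apply₁₁, fromBlocks_apply₁₁]
      by_cases h : a = b
      · subst h; simp
      · rw [one_apply_ne h, one_apply_ne (fun e => h (Sum.inl_injective e)),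
          one_apply_ne (fun e => h (Sum.inl_injective e))]
        simp
    · rw [injR_right _ _ _ (hmid b), injR_right _ _ _ (hmid b)]
      simp
    · rw [← embLast_inl (κ := κ) a, ← embLast_inr (ι := ι) b, injR_apply, injR_apply]
      rw [embLast_inl, embLast_inr]
      simp
  · rw [injR_left _ _ (hmid a), injR_left _ _ (hmid a)]
    rcases b with b | b | b
    · simp
    · simp [Matrix.one_apply]
    · simp
  · rcases b with b | b | b
    · rw [← embLast_inr (ι := ι) a, ← embLast_inl (κ := κ) b, injR_apply, injR_apply]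
      rw [embLast_inl, embLast_inr]
      simp
    · rw [injR_right _ _ _ (hmid b), injR_right _ _ _ (hmid b)]
      simp
    · rw [← embLast_inr (ι := ι) a, ← embLast_inr (ι := ι) b, injR_apply, injR_apply]
      rw [embLast_inr, embLast_inr, fromBlocks_apply₂₂, fromBlocks_apply₂₂]
      by_cases h : a = b
      · subst h; simp
      · rw [one_apply_ne h, one_apply_ne (fun e => h (Sum.inr_injective e)),
          one_apply_ne (fun e => h (Sum.inr_injective (Sum.inr_injective e))),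
          one_apply_ne (fun e => h (Sum.inr_injective e))]
        simp

theorem upU_mul (B C : Matrix ι κ R) : upU B * upU C = upU (B + C) := by
  apply Units.ext
  change fromBlocks 1 B 0 1 * fromBlocks 1 C 0 1 = fromBlocks 1 (B + C) 0 1
  rw [fromBlocks_multiply]
  simp [add_comm]

/-- Elementary matrices have trivial class. -/
theorem cls_upU (B : Matrix ι κ R) : cls (upU B) = 0 := by
  rw [← cls_injR (embLast ι κ), upU_last]
  let D : (Matrix (κ ⊕ κ) (κ ⊕ κ) R)ˣ := upU (-1 : Matrix κ κ R)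
  let V : (Matrix (ι ⊕ (κ ⊕ κ)) (ι ⊕ (κ ⊕ κ)) R)ˣ :=
    unzU (injR R (Function.Embedding.inr : κ ⊕ κ ↪ ι ⊕ (κ ⊕ κ))) D
  let X : Matrix ι (κ ⊕ κ) R := fromCols B 0
  have hD : (D⁻¹ : (Matrix (κ ⊕ κ) (κ ⊕ κ) R)ˣ) = upU (1 : Matrix κ κ R) := by
    apply inv_eq_of_mul_eq_one_right
    change upU (-1 : Matrix κ κ R) * upU 1 = 1
    rw [upU_mul, neg_add_cancel]
    apply Units.ext
    exact fromBlocks_one
  have hV : V * upU X * V⁻¹ = upU (fromCols (0 : Matrix ι κ R) B) * upU X := by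
    rw [upU_mul]
    apply Units.ext
    have h1 : (V⁻¹ : (Matrix (ι ⊕ (κ ⊕ κ)) (ι ⊕ (κ ⊕ κ)) R)ˣ).val =
        fromBlocks 1 0 0 (fromBlocks 1 1 0 1) := by
      change ((unzU (injR R (Function.Embedding.inr : κ ⊕ κ ↪ ι ⊕ (κ ⊕ κ))) D)⁻¹ :
        (Matrix (ι ⊕ (κ ⊕ κ)) (ι ⊕ (κ ⊕ κ)) R)ˣ).val = _
      rw [unzU_inv, unz_inr, hD]
      rfl
    have h2 : (V : Matrix (ι ⊕ (κ ⊕ κ)) (ι ⊕ (κ ⊕ κ)) R) =
        fromBlocks 1 0 0 (fromBlocks 1 (-1) 0 1) := unz_inr D
    rw [Units.val_mul, Units.val_mul, h1, h2]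
    change fromBlocks 1 0 0 (fromBlocks 1 (-1) 0 1) * fromBlocks 1 X 0 1 *
      fromBlocks 1 0 0 (fromBlocks 1 1 0 1) = fromBlocks 1 (fromCols 0 B + X) 0 1
    rw [fromBlocks_multiply, fromBlocks_multiply]
    congr 1
    · simp
    · simp only [Matrix.mul_zero, Matrix.zero_mul, Matrix.one_mul, add_zero, zero_add, X]
      rw [fromCols_mul_fromBlocks]
      ext i j
      rcases j with j | j <;> simp
    · simp
    · simp only [Matrix.mul_zero, Matrix.zero_mul, Matrix.mul_one, zero_add]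
      rw [fromBlocks_multiply]
      simp [fromBlocks_one]
  have h := congrArg cls hV
  rw [cls_conj, cls_mul] at h
  exact right_eq_add.mp h

theorem loU_eq (B : Matrix κ ι R) :
    loU B = unzU (injR R (Equiv.sumComm κ ι).toEmbedding) (upU B) := by
  apply Units.ext
  rw [unzU_val]
  change fromBlocks 1 0 B 1 = injR R (Equiv.sumComm κ ι).toEmbedding (fromBlocks 1 B 0 1) +
    (1 - injR R (Equiv.sumComm κ ι).toEmbedding 1)
  have hs : ∀ (X : Matrix (κ ⊕ ι) (κ ⊕ ι) R) (a b : ι ⊕ κ),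
      injR R (Equiv.sumComm κ ι).toEmbedding X a b = X a.swap b.swap := by
    intro X a b
    have h := injR_apply (Equiv.sumComm κ ι).toEmbedding X a.swap b.swap
    have ea : (Equiv.sumComm κ ι).toEmbedding a.swap = a := Sum.swap_swap a
    have eb : (Equiv.sumComm κ ι).toEmbedding b.swap = b := Sum.swap_swap b
    rw [ea, eb] at h
    exact h
  ext a b
  rw [Matrix.add_apply, Matrix.sub_apply, hs, hs]
  have h1 : (1 : Matrix (κ ⊕ ι) (κ ⊕ ι) R) a.swap b.swap = (1 : Matrix (ι ⊕ κ) (ι ⊕ κ) R) a b := by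
    by_cases h : a = b
    · subst h; simp
    · rw [one_apply_ne h, one_apply_ne]
      intro e
      apply h
      rw [← Sum.swap_swap a, e, Sum.swap_swap]
  rw [h1, sub_self, add_zero]
  rcases a with a | a <;> rcases b with b | b <;> simp

theorem cls_loU (B : Matrix κ ι R) : cls (loU (ι := ι) (κ := κ) B) = 0 := by
  rw [loU_eq, cls_injR, cls_upU]

/-- `[1 + αβ] = [1 + βα]`. -/
theorem cls_one_add_mul (α : Matrix ι κ R) (β : Matrix κ ι R) (U : (Matrix ι ι R)ˣ)
    (V : (Matrix κ κ R)ˣ) (hU : (U : Matrix ι ι R) = 1 + α * β)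
    (hV : (V : Matrix κ κ R) = 1 + β * α) : cls U = cls V := by
  have h : loU β * unzU (injR R (Function.Embedding.inr : κ ↪ ι ⊕ κ)) V * upU (-α) =
      upU (-α) * unzU (injR R (Function.Embedding.inl : ι ↪ ι ⊕ κ)) U * loU β := by
    apply Units.ext
    rw [Units.val_mul, Units.val_mul, Units.val_mul, Units.val_mul, unz_inl, unz_inr, hU, hV]
    change fromBlocks 1 0 β 1 * fromBlocks 1 0 0 (1 + β * α) * fromBlocks 1 (-α) 0 1 =
      fromBlocks 1 (-α) 0 1 * fromBlocks (1 + α * β) 0 0 1 * fromBlocks 1 0 β 1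
    simp only [fromBlocks_multiply]
    congr 1 <;> simp
  have h2 := congrArg cls h
  rw [cls_mul, cls_mul, cls_mul, cls_mul, cls_loU, cls_upU, cls_injR, cls_injR] at h2
  simpa using h2.symm

end Pool.Agent.Y477.IW
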