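import Pool.Agent.Y477.IW.K1b
import Pool.Agent.Y477.IW.IFun
import Pool.Agent.Y483.QReflect

/-!
`K₁` as a functor for homomorphisms which need not preserve the unit, and its class on matrices
over the ring of adjointable operators which differ from the identity by a finite rank matrix.
-/

namespace Pool.Agent.Y477.IW

set_option linter.unusedSectionVars false

open Matrix Pool.Agent.Y483

section Functor

variable {R S T : Type} [Ring R] [Ring S] [Ring T]

theorem mapR_comp (ι : Type*) [Fintype ι] (g : S →ₙ+* T) (f : R →ₙ+* S) :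
    mapR ι (g.comp f) = (mapR ι g).comp (mapR ι f) := by
  apply NonUnitalRingHom.ext
  intro X
  rfl

theorem mapR_id (ι : Type*) [Fintype ι] :
    mapR ι (NonUnitalRingHom.id R) = NonUnitalRingHom.id (Matrix ι ι R) := by
  apply NonUnitalRingHom.ext
  intro X
  rfl

/-- The map `K₁(R) → K₁(S)`, `[M] ↦ [f(M) + 1 - f(1)]`, induced by a homomorphism `f` which need
not preserve the unit. -/
noncomputable def K1.map (f : R →ₙ+* S) : K1 R →+ K1 S :=
  K1.lift (fun n M => K1.mk (unzU (mapR (Fin n) f) M))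
    (fun n M N => by rw [map_mul, K1.mk_mul])
    (fun n m g M => by
          rw [← unzU_comp, mapR_injR, unzU_comp, K1.mk_inj])

theorem K1.map_mk (f : R →ₙ+* S) {n : ℕ} (M : (Matrix (Fin n) (Fin n) R)ˣ) :
    K1.map f (K1.mk M) = K1.mk (unzU (mapR (Fin n) f) M) := K1.lift_mk _ _ _ _

theorem K1.map_id' (x : K1 R) : K1.map (NonUnitalRingHom.id R) x = x := by
  have h : ∀ x : K1 R, K1.map (NonUnitalRingHom.id R) x = AddMonoidHom.id _ x :=
    K1.hom_ext fun n M => by
      rw [K1.map_mk, mapR_id]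
      change K1.mk _ = K1.mk M
      congr 1
      apply Units.ext
      exact unz_id M.val
  exact h x

theorem K1.map_comp' (g : S →ₙ+* T) (f : R →ₙ+* S) (x : K1 R) :
    K1.map (g.comp f) x = K1.map g (K1.map f x) := by
  have h : ∀ x : K1 R, K1.map (g.comp f) x = (K1.map g).comp (K1.map f) x :=
    K1.hom_ext fun n M => by
      rw [AddMonoidHom.comp_apply, K1.map_mk, K1.map_mk, K1.map_mk, mapR_comp, unzU_comp]
  exact h x

theorem K1.map_add' (f g h : R →ₙ+* S) (h1 : ∀ x, h x = f x + g x)
    (h2 : ∀ x y, f x * g y = 0) (x : K1 R) :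
    K1.map h x = K1.map f x + K1.map g x := by
  have key : ∀ x : K1 R, K1.map h x = (K1.map f + K1.map g) x :=
    K1.hom_ext fun n M => by
      rw [AddMonoidHom.add_apply, K1.map_mk, K1.map_mk, K1.map_mk, ← K1.mk_mul]
      congr 1
      apply Units.ext
      rw [Units.val_mul, unzU_val, unzU_val, unzU_val]
      have e1 : ∀ X : Matrix (Fin n) (Fin n) R, mapR (Fin n) h X = mapR (Fin n) f X +
          mapR (Fin n) g X := by
        intro X
        ext i j
        exact h1 _
      have e2 : ∀ X Y : Matrix (Fin n) (Fin n) R, mapR (Fin n) f X * mapR (Fin n) g Y = 0 := by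
        intro X Y
        ext i j
        change (X.map f * Y.map g) i j = 0
        rw [Matrix.mul_apply]
        exact Finset.sum_eq_zero fun k _ => h2 _ _
      rw [e1, e1]
      simp only [mul_add, add_mul, mul_sub, sub_mul, mul_one, one_mul, e2]
      abel
  exact key x

theorem K1.map_conj' (f g : R →ₙ+* S) (u v : S) (huv : u * v = 1) (hvu : v * u = 1)
    (h : ∀ x, g x = u * f x * v) (x : K1 R) : K1.map g x = K1.map f x := by
  refine K1.hom_ext (fun n M => ?_) x
  rw [K1.map_mk, K1.map_mk]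
  let U : (Matrix (Fin n) (Fin n) S)ˣ :=
    { val := Matrix.diagonal fun _ => u
      inv := Matrix.diagonal fun _ => v
      val_inv := by rw [Matrix.diagonal_mul_diagonal, huv]; exact Matrix.diagonal_one
      inv_val := by rw [Matrix.diagonal_mul_diagonal, hvu]; exact Matrix.diagonal_one }
  rw [← cls_fin, ← cls_fin, ← cls_conj (unzU (mapR (Fin n) f) M) U]
  congr 1
  apply Units.ext
  have e : ∀ X : Matrix (Fin n) (Fin n) R, mapR (Fin n) g X =
      (Matrix.diagonal fun _ => u) * mapR (Fin n) f X * (Matrix.diagonal fun _ => v) := by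
    intro X
    ext i j
    rw [Matrix.mul_diagonal, Matrix.diagonal_mul]
    exact h _
  have e2 : (Matrix.diagonal fun _ => u) * (Matrix.diagonal fun _ => v) =
      (1 : Matrix (Fin n) (Fin n) S) := U.val_inv
  rw [unzU_val, Units.val_mul, Units.val_mul, unzU_val, e, e]
  change _ = (Matrix.diagonal fun _ => u) * (mapR (Fin n) f M.val + (1 - mapR (Fin n) f 1)) *
    (Matrix.diagonal fun _ => v)
  simp only [mul_add, add_mul, mul_sub, sub_mul, mul_one, e2]

end Functor

/-! ### Finite rank perturbations of the identity -/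

section Window

variable {S : Type} [Ring S] [StarRing S] {A : Type} {ι κ μ : Type} [Fintype ι] [Fintype κ]
  [Fintype μ] [DecidableEq ι] [DecidableEq κ] [DecidableEq μ]

/-- All entries are supported in the finite set `F`. -/
def SupF (F : Finset A) (M : Matrix ι κ (Op S A)) : Prop :=
  ∀ i j s t, (s ∉ F ∨ t ∉ F) → entry (M i j) s t = 0

/-- All entries have finite rank. -/
def FR (M : Matrix ι κ (Op S A)) : Prop := ∀ i j, FinRank (M i j)

theorem SupF.mono {F F' : Finset A} (h : F ⊆ F') {M : Matrix ι κ (Op S A)} (hM : SupF F M) :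
    SupF F' M := fun i j s t hst => hM i j s t (hst.imp (fun h1 h2 => h1 (h h2))
      (fun h1 h2 => h1 (h h2)))

theorem FR.exists_sup {M : Matrix ι κ (Op S A)} (h : FR M) : ∃ F, SupF F M := by
  classical
  choose F₀ hF₀ using h
  refine ⟨Finset.univ.biUnion fun i => Finset.univ.biUnion fun j => F₀ i j, ?_⟩
  intro i j s t hst
  apply entry_of_finRank (hF₀ i j)
  have hsub : F₀ i j ⊆ Finset.univ.biUnion fun i => Finset.univ.biUnion fun j => F₀ i j := by
    intro b hb
    rw [Finset.mem_biUnion]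
    refine ⟨i, Finset.mem_univ _, ?_⟩
    rw [Finset.mem_biUnion]
    exact ⟨j, Finset.mem_univ _, hb⟩
  exact hst.imp (fun h1 h2 => h1 (hsub h2)) (fun h1 h2 => h1 (hsub h2))

theorem finRank_sum {K : Type*} (s : Finset K) (f : K → Op S A) (h : ∀ k ∈ s, FinRank (f k)) :
    FinRank (∑ k ∈ s, f k) := by
  classical
  induction s using Finset.induction_on with
  | empty => rw [Finset.sum_empty]; exact FinRank.zero
  | insert a s ha ih =>
    rw [Finset.sum_insert ha]
    exact (h a (Finset.mem_insert_self _ _)).add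
      (ih fun k hk => h k (Finset.mem_insert_of_mem hk))

theorem FR.mul_left (X : Matrix μ ι (Op S A)) {M : Matrix ι κ (Op S A)} (h : FR M) :
    FR (X * M) := by
  intro i j
  rw [Matrix.mul_apply]
  exact finRank_sum _ _ fun k _ => FinRank.mul_left _ (h k j)

theorem FR.mul_right {M : Matrix ι κ (Op S A)} (h : FR M) (X : Matrix κ μ (Op S A)) :
    FR (M * X) := by
  intro i j
  rw [Matrix.mul_apply]
  exact finRank_sum _ _ fun k _ => FinRank.mul_right (h i k) _

theorem FR.add {M N : Matrix ι κ (Op S A)} (h : FR M) (h' : FR N) : FR (M + N) :=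
  fun i j => (h i j).add (h' i j)

/-- The rectangular window. -/
noncomputable def win (F F' : Finset A) (M : Matrix ι κ (Op S A)) : Matrix (ι × F) (κ × F') S :=
  Matrix.of fun p q => entry (M p.1 q.1) p.2 q.2

theorem win_mul (F F' F'' : Finset A) (M : Matrix ι κ (Op S A)) (N : Matrix κ μ (Op S A))
    (h : ∀ i k j s t c, s ∈ F → t ∈ F'' → c ∉ F' → entry (M i k) s c = 0 ∨ entry (N k j) c t = 0) :
    win F F'' (M * N) = win F F' M * win F' F'' N := by
  ext p q
  change entry ((M * N) p.1 q.1) p.2 q.2 = _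
  rw [Matrix.mul_apply, entry_sum, Matrix.mul_apply, Fintype.sum_prod_type]
  apply Finset.sum_congr rfl
  intro k _
  exact entry_mul_left _ _ _ _ (fun c hc => h _ _ _ _ _ _ p.2.2 q.2.2 hc)

theorem win_add (F F' : Finset A) (M N : Matrix ι κ (Op S A)) :
    win F F' (M + N) = win F F' M + win F F' N := by
  ext p q; exact entry_add _ _ _ _

theorem win_one [DecidableEq A] (F : Finset A) :
    win F F (1 : Matrix ι ι (Op S A)) = 1 := by
  ext p q
  change entry ((1 : Matrix ι ι (Op S A)) p.1 q.1) p.2 q.2 = _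
  by_cases h : p.1 = q.1
  · rw [h, one_apply_eq]
    by_cases h' : p.2 = q.2
    · rw [h', entry_one_eq, Prod.ext h h', one_apply_eq]
    · rw [entry_one_ne (fun e => h' (Subtype.ext e)), one_apply_ne]
      intro e
      exact h' (congrArg Prod.snd e)
  · rw [one_apply_ne h, entry_zero, one_apply_ne]
    intro e
    exact h (congrArg Prod.fst e)

theorem entry_one_of {F : Finset A} (i j : ι) (s t : A) (h : (s ∈ F ∧ t ∉ F) ∨ (s ∉ F ∧ t ∈ F)) :
    entry ((1 : Matrix ι ι (Op S A)) i j) s t = 0 := by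
  have hst : s ≠ t := by
    rintro rfl
    rcases h with h | h
    · exact h.2 h.1
    · exact h.1 h.2
  by_cases hij : i = j
  · rw [hij, one_apply_eq, entry_one_ne hst]
  · rw [one_apply_ne hij, entry_zero]

theorem entry_split (Z : Matrix ι ι (Op S A)) (i j : ι) (s t : A) :
    entry (Z i j) s t = entry ((Z - 1) i j) s t +
      entry ((1 : Matrix ι ι (Op S A)) i j) s t := by
  rw [← entry_add, Matrix.sub_apply, sub_add_cancel]

theorem entry_off {F : Finset A} {Z : Matrix ι ι (Op S A)} (h : SupF F (Z - 1)) (i j : ι) (s t : A)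
    (hst : (s ∈ F ∧ t ∉ F) ∨ (s ∉ F ∧ t ∈ F)) : entry (Z i j) s t = 0 := by
  rw [entry_split, h i j s t (hst.elim (fun h => Or.inr h.2) (fun h => Or.inl h.1)), zero_add]
  exact entry_one_of i j s t hst

variable [DecidableEq A]

/-- The window of an invertible matrix which differs from the identity inside `F`. -/
noncomputable def wU (F : Finset A) (Z : (Matrix ι ι (Op S A))ˣ) (h : SupF F (Z.val - 1)) :
    (Matrix (ι × F) (ι × F) S)ˣ where
  val := win F F Z.val
  inv := win F F (Z⁻¹ : (Matrix ι ι (Op S A))ˣ).val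
  val_inv := by
    rw [← win_mul, Units.mul_inv, win_one]
    intro i k j s t c hs _ hc
    exact Or.inl (entry_off h i k s c (Or.inl ⟨hs, hc⟩))
  inv_val := by
    rw [← win_mul, Units.inv_mul, win_one]
    intro i k j s t c _ ht hc
    exact Or.inr (entry_off h k j c t (Or.inr ⟨hc, ht⟩))

/-- The inclusion of index sets for `F ⊆ F'`. -/
def incF (ι : Type) {F F' : Finset A} (h : F ⊆ F') : ι × F ↪ ι × F' where
  toFun p := (p.1, ⟨p.2.1, h p.2.2⟩)
  inj' p q hpq := by
    have h1 := congrArg Prod.fst hpq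
    have h2 : (⟨p.2.1, h p.2.2⟩ : F') = ⟨q.2.1, h q.2.2⟩ := congrArg Prod.snd hpq
    have h3 : p.2.1 = q.2.1 := Subtype.mk.inj h2
    exact Prod.ext h1 (Subtype.ext h3)

theorem wU_mono {F F' : Finset A} (hF : F ⊆ F') (Z : (Matrix ι ι (Op S A))ˣ)
    (h : SupF F (Z.val - 1)) (h' : SupF F' (Z.val - 1)) :
    wU F' Z h' = unzU (injR S (incF ι hF)) (wU F Z h) := by
  apply Units.ext
  rw [unzU_val]
  ext ⟨i, s⟩ ⟨j, t⟩
  change entry (Z.val i j) s t = injR S (incF ι hF) (win F F Z.val) (i, s) (j, t) +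
    ((1 : Matrix (ι × F') (ι × F') S) (i, s) (j, t) - injR S (incF ι hF) 1 (i, s) (j, t))
  have hout : ∀ (X : Matrix (ι × F) (ι × F) S), (s.1 ∉ F ∨ t.1 ∉ F) →
      injR S (incF ι hF) X (i, s) (j, t) = 0 := by
    intro X hst
    rcases hst with hs | ht
    · apply injR_left
      rintro ⟨p, hp⟩
      apply hs
      have := congrArg (fun q => q.2.1) hp
      exact this ▸ p.2.2
    · apply injR_right
      rintro ⟨p, hp⟩
      apply ht
      have := congrArg (fun q => q.2.1) hp
      exact this ▸ p.2.2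
  by_cases hs : s.1 ∈ F
  · by_cases ht : t.1 ∈ F
    · have e1 : ((i, s) : ι × F') = incF ι hF (i, ⟨s.1, hs⟩) := rfl
      have e2 : ((j, t) : ι × F') = incF ι hF (j, ⟨t.1, ht⟩) := rfl
      rw [e1, e2, injR_apply, injR_apply]
      have e3 : (1 : Matrix (ι × F') (ι × F') S) (incF ι hF (i, ⟨s.1, hs⟩))
          (incF ι hF (j, ⟨t.1, ht⟩)) = (1 : Matrix (ι × F) (ι × F) S) (i, ⟨s.1, hs⟩)
            (j, ⟨t.1, ht⟩) := by
        rw [Matrix.one_apply, Matrix.one_apply]
        simp only [(incF ι hF).injective.eq_iff]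
      rw [e3, sub_self, add_zero]
      rfl
    · rw [hout _ (Or.inr ht), hout _ (Or.inr ht), zero_add, sub_zero,
        entry_off h i j s t (Or.inl ⟨hs, ht⟩), one_apply_ne]
      intro e
      apply ht
      have : s = t := congrArg Prod.snd e
      exact this ▸ hs
  · rw [hout _ (Or.inl hs), hout _ (Or.inl hs), zero_add, sub_zero, entry_split,
      h i j s t (Or.inl hs), zero_add]
    have h2 := congrFun (congrFun (win_one (ι := ι) (S := S) F') (i, s)) (j, t)
    exact h2

/-- The class of an invertible matrix which differs from the identity by a matrix of finite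
rank. -/
noncomputable def om (Z : (Matrix ι ι (Op S A))ˣ) (h : FR (Z.val - 1)) : K1 S :=
  cls (wU h.exists_sup.choose Z h.exists_sup.choose_spec)

theorem om_eq (Z : (Matrix ι ι (Op S A))ˣ) (h : FR (Z.val - 1)) (F : Finset A)
    (hF : SupF F (Z.val - 1)) : om Z h = cls (wU F Z hF) := by
  unfold om
  set F₀ := h.exists_sup.choose
  have h₀ : SupF F₀ (Z.val - 1) := h.exists_sup.choose_spec
  have h1 : SupF (F₀ ∪ F) (Z.val - 1) := h₀.mono Finset.subset_union_left
  have e1 := wU_mono Finset.subset_union_left Z h₀ h1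
  have e2 := wU_mono Finset.subset_union_right Z hF h1
  rw [← cls_injR (incF ι Finset.subset_union_left), ← e1, e2, cls_injR]

theorem FR.of_mul {Z Z' : Matrix ι ι (Op S A)} (h : FR (Z - 1)) (h' : FR (Z' - 1)) :
    FR (Z * Z' - 1) := by
  have e : Z * Z' - 1 = (Z - 1) * Z' + (Z' - 1) := by
    rw [sub_mul, one_mul]; abel
  rw [e]
  exact (h.mul_right _).add h'

theorem om_mul (Z Z' : (Matrix ι ι (Op S A))ˣ) (h : FR (Z.val - 1)) (h' : FR (Z'.val - 1))
    (h'' : FR ((Z * Z').val - 1)) : om (Z * Z') h'' = om Z h + om Z' h' := by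
  obtain ⟨F₁, hF₁⟩ := h.exists_sup
  obtain ⟨F₂, hF₂⟩ := h'.exists_sup
  obtain ⟨F₃, hF₃⟩ := h''.exists_sup
  let F := F₁ ∪ F₂ ∪ F₃
  have k1 : SupF F (Z.val - 1) := hF₁.mono (Finset.subset_union_left.trans
    Finset.subset_union_left)
  have k2 : SupF F (Z'.val - 1) := hF₂.mono (Finset.subset_union_right.trans
    Finset.subset_union_left)
  have k3 : SupF F ((Z * Z').val - 1) := hF₃.mono Finset.subset_union_right
  rw [om_eq _ _ F k1, om_eq _ _ F k2, om_eq _ _ F k3, ← cls_mul]
  congr 1
  apply Units.ext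
  change win F F (Z.val * Z'.val) = win F F Z.val * win F F Z'.val
  apply win_mul
  intro i k j s t c hs _ hc
  exact Or.inl (entry_off k1 i k s c (Or.inl ⟨hs, hc⟩))

/-- The class is invariant under conjugation by arbitrary invertible matrices. -/
theorem om_conj (X Z : (Matrix ι ι (Op S A))ˣ) (h : FR (Z.val - 1))
    (h' : FR ((X * Z * X⁻¹).val - 1)) : om (X * Z * X⁻¹) h' = om Z h := by
  obtain ⟨F, hF⟩ := h.exists_sup
  obtain ⟨F₁, hF₁⟩ := (h.mul_left X.val).exists_sup
  obtain ⟨F₂, hF₂⟩ := h'.exists_sup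
  let F' := F₁ ∪ F₂
  have k1 : SupF F' (X.val * (Z.val - 1)) := hF₁.mono Finset.subset_union_left
  have k2 : SupF F' ((X * Z * X⁻¹).val - 1) := hF₂.mono Finset.subset_union_right
  rw [om_eq _ _ F' k2, om_eq _ _ F hF]
  have e0 : (X * Z * X⁻¹).val = 1 + X.val * (Z.val - 1) * (X⁻¹ : (Matrix ι ι (Op S A))ˣ).val := by
    rw [Units.val_mul, Units.val_mul, mul_sub, mul_one, sub_mul, Units.mul_inv]
    abel
  apply cls_one_add_mul (win F' F (X.val * (Z.val - 1)))
    (win F F' (X⁻¹ : (Matrix ι ι (Op S A))ˣ).val)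
  · rw [← win_mul, ← win_one (ι := ι) (S := S) F', ← win_add, ← e0]
    · rfl
    · intro i k j s t c _ _ hc
      left
      rw [Matrix.mul_apply, entry_sum]
      apply Finset.sum_eq_zero
      intro l _
      rw [entry_mul_left (F := F) _ _ _ _ (fun d hd => Or.inr (hF l k d c (Or.inl hd)))]
      apply Finset.sum_eq_zero
      intro d _
      rw [hF l k d c (Or.inr hc), mul_zero]
  · rw [← win_mul]
    · rw [← mul_assoc, Units.inv_mul, one_mul, ← win_one (ι := ι) (S := S) F, ← win_add,
        add_sub_cancel]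
      rfl
    · intro i k j s t c _ _ hc
      exact Or.inr (k1 k j c t (Or.inl hc))

theorem om_injR (f : ι ↪ κ) (Z : (Matrix ι ι (Op S A))ˣ) (h : FR (Z.val - 1))
    (h' : FR ((unzU (injR (Op S A) f) Z).val - 1)) :
    om (unzU (injR (Op S A) f) Z) h' = om Z h := by
  obtain ⟨F, hF⟩ := h.exists_sup
  have e0 : (unzU (injR (Op S A) f) Z).val - 1 = injR (Op S A) f (Z.val - 1) := by
    rw [unzU_val, map_sub]; abel
  have k1 : SupF F ((unzU (injR (Op S A) f) Z).val - 1) := by
    rw [e0]
    intro a b s t hst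
    by_cases ha : a ∈ Set.range f
    · obtain ⟨i, rfl⟩ := ha
      by_cases hb : b ∈ Set.range f
      · obtain ⟨j, rfl⟩ := hb
        rw [injR_apply]
        exact hF i j s t hst
      · rw [injR_right f _ _ hb, entry_zero]
    · rw [injR_left f _ ha, entry_zero]
  rw [om_eq _ _ F k1, om_eq _ _ F hF]
  let g : ι × F ↪ κ × F := f.prodMap (Function.Embedding.refl F)
  rw [← cls_injR g]
  congr 1
  apply Units.ext
  have e1 : win F F (unzU (injR (Op S A) f) Z).val = 1 +
      win F F (injR (Op S A) f (Z.val - 1)) := by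
    rw [← win_one (ι := κ) (S := S) F, ← win_add, ← e0, add_sub_cancel]
  have e2 : (unzU (injR S g) (wU F Z hF)).val = 1 + injR S g (win F F (Z.val - 1)) := by
    have e3 : win F F (Z.val - 1) = win F F Z.val - 1 := by
      rw [eq_sub_iff_add_eq, ← win_one (ι := ι) (S := S) F, ← win_add, sub_add_cancel]
    rw [e3, map_sub, unzU_val]
    change injR S g (win F F Z.val) + _ = _
    abel
  change win F F (unzU (injR (Op S A) f) Z).val = _
  rw [e1, e2]
  congr 1
  ext ⟨a, s⟩ ⟨b, t⟩
  change entry (injR (Op S A) f (Z.val - 1) a b) s t = _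
  by_cases ha : a ∈ Set.range f
  · obtain ⟨i, rfl⟩ := ha
    by_cases hb : b ∈ Set.range f
    · obtain ⟨j, rfl⟩ := hb
      rw [injR_apply]
      exact (injR_apply g (win F F (Z.val - 1)) (i, s) (j, t)).symm
    · rw [injR_right f _ _ hb, entry_zero]
      symm
      apply injR_right
      rintro ⟨p, hp⟩
      exact hb ⟨p.1, congrArg Prod.fst hp⟩
  · rw [injR_left f _ ha, entry_zero]
    symm
    apply injR_left
    rintro ⟨p, hp⟩
    exact ha ⟨p.1, congrArg Prod.fst hp⟩

end Window

end Pool.Agent.Y477.IW
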