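import Pool.Agent.Y477.IW.K1c
import Pool.Agent.Y477.IW.LFun

/-!
The corner embedding `S → D_A(S)` induces a split injection of `K₁`, and `K₁` is an integral
functor.
-/

namespace Pool.Agent.Y477.IW

set_option linter.unusedSectionVars false

open Matrix Pool.Agent.Y483

section Retraction

variable {S A : Type} [Ring S] [StarRing S]

/-- The first coordinate of an invertible matrix over `D_A(S)`. -/
noncomputable def fU (n : ℕ) :
    (Matrix (Fin n) (Fin n) (DD S A))ˣ →* (Matrix (Fin n) (Fin n) (Op S A))ˣ :=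
  unzU (mapR (Fin n) (fstHom S A).toNonUnitalRingHom)

/-- The second coordinate of an invertible matrix over `D_A(S)`. -/
noncomputable def sU (n : ℕ) :
    (Matrix (Fin n) (Fin n) (DD S A))ˣ →* (Matrix (Fin n) (Fin n) (Op S A))ˣ :=
  unzU (mapR (Fin n) (sndHom S A).toNonUnitalRingHom)

theorem mapR_one' {R T : Type} [Ring R] [Ring T] (n : ℕ) (f : R →ₙ+* T) (h : f 1 = 1) :
    mapR (Fin n) f 1 = 1 := by
  ext i j
  change f ((1 : Matrix (Fin n) (Fin n) R) i j) = _
  by_cases hij : i = j
  · rw [hij, one_apply_eq, one_apply_eq, h]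
  · rw [one_apply_ne hij, one_apply_ne hij, map_zero]

theorem fU_val (n : ℕ) (M : (Matrix (Fin n) (Fin n) (DD S A))ˣ) (i j : Fin n) :
    (fU n M).val i j = (M.val i j).fst := by
  change (mapR (Fin n) (fstHom S A).toNonUnitalRingHom M.val +
    (1 - mapR (Fin n) (fstHom S A).toNonUnitalRingHom 1)) i j = _
  rw [mapR_one' n _ (show (fstHom S A).toNonUnitalRingHom 1 = 1 from rfl), sub_self, add_zero]
  rfl

theorem sU_val (n : ℕ) (M : (Matrix (Fin n) (Fin n) (DD S A))ˣ) (i j : Fin n) :
    (sU n M).val i j = (M.val i j).snd := by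
  change (mapR (Fin n) (sndHom S A).toNonUnitalRingHom M.val +
    (1 - mapR (Fin n) (sndHom S A).toNonUnitalRingHom 1)) i j = _
  rw [mapR_one' n _ (show (sndHom S A).toNonUnitalRingHom 1 = 1 from rfl), sub_self, add_zero]
  rfl

theorem fr_ratio (n : ℕ) (M : (Matrix (Fin n) (Fin n) (DD S A))ˣ) :
    FR ((fU n M * (sU n M)⁻¹).val - 1) := by
  have e : (fU n M * (sU n M)⁻¹).val - 1 = ((fU n M).val - (sU n M).val) *
      ((sU n M)⁻¹ : (Matrix (Fin n) (Fin n) (Op S A))ˣ).val := by
    rw [sub_mul, Units.mul_inv, Units.val_mul]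
  rw [e]
  apply FR.mul_right
  intro i j
  rw [Matrix.sub_apply, fU_val, sU_val]
  exact DD.diff _

variable [DecidableEq A]

/-- The retraction `K₁(D_A(S)) → K₁(S)`. -/
noncomputable def retr (S A : Type) [Ring S] [StarRing S] [DecidableEq A] :
    K1 (DD S A) →+ K1 S :=
  K1.lift (fun n M => om (fU n M * (sU n M)⁻¹) (fr_ratio n M))
    (fun n M N => by
      have e : fU n (M * N) * (sU n (M * N))⁻¹ =
          (fU n M * (fU n N * (sU n N)⁻¹) * (fU n M)⁻¹) * (fU n M * (sU n M)⁻¹) := by
        rw [map_mul, map_mul]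
        group
      have h1 : FR ((fU n M * (fU n N * (sU n N)⁻¹) * (fU n M)⁻¹).val - 1) := by
        have e1 : (fU n M * (fU n N * (sU n N)⁻¹) * (fU n M)⁻¹).val - 1 =
            (fU n M).val * ((fU n N * (sU n N)⁻¹).val - 1) *
              ((fU n M)⁻¹ : (Matrix (Fin n) (Fin n) (Op S A))ˣ).val := by
          rw [mul_sub, sub_mul, mul_one, Units.mul_inv]
          simp only [Units.val_mul]
        rw [e1]
        exact ((fr_ratio n N).mul_left _).mul_right _
      have h2 : FR (((fU n M * (fU n N * (sU n N)⁻¹) * (fU n M)⁻¹) *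
          (fU n M * (sU n M)⁻¹)).val - 1) := by
        rw [← e]; exact fr_ratio n (M * N)
      have e2 : om (fU n (M * N) * (sU n (M * N))⁻¹) (fr_ratio n (M * N)) =
          om ((fU n M * (fU n N * (sU n N)⁻¹) * (fU n M)⁻¹) * (fU n M * (sU n M)⁻¹)) h2 := by
        congr 1
      rw [e2, om_mul _ _ h1 (fr_ratio n M) h2, om_conj _ _ (fr_ratio n N) h1, add_comm])
    (fun n m f M => by
      have e : fU m (unzU (injR (DD S A) f) M) * (sU m (unzU (injR (DD S A) f) M))⁻¹ =
          unzU (injR (Op S A) f) (fU n M * (sU n M)⁻¹) := by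
        rw [map_mul, map_inv]
        unfold fU sU
        rw [← unzU_comp, ← unzU_comp, ← unzU_comp, ← unzU_comp, mapR_injR, mapR_injR]
      have h2 : FR ((unzU (injR (Op S A) f) (fU n M * (sU n M)⁻¹)).val - 1) := by
        rw [← e]; exact fr_ratio m _
      have e2 : om (fU m (unzU (injR (DD S A) f) M) * (sU m (unzU (injR (DD S A) f) M))⁻¹)
          (fr_ratio m _) = om (unzU (injR (Op S A) f) (fU n M * (sU n M)⁻¹)) h2 := by
        congr 1
      rw [e2, om_injR f _ (fr_ratio n M) h2])

theorem retr_mk {n : ℕ} (M : (Matrix (Fin n) (Fin n) (DD S A))ˣ) :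
    retr S A (K1.mk M) = om (fU n M * (sU n M)⁻¹) (fr_ratio n M) := K1.lift_mk _ _ _ _

theorem retr_corner (a : A) (x : K1 S) :
    retr S A (K1.map (corner S A a).toNonUnitalRingHom x) = x := by
  have h : ∀ x : K1 S, (retr S A).comp (K1.map (corner S A a).toNonUnitalRingHom) x =
      AddMonoidHom.id _ x := by
    refine K1.hom_ext fun n M => ?_
    rw [AddMonoidHom.comp_apply, K1.map_mk, retr_mk, AddMonoidHom.id_apply]
    set N := unzU (mapR (Fin n) (corner S A a).toNonUnitalRingHom) M with hN
    have hs : sU n N = 1 := by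
      apply Units.ext
      ext i j
      rw [sU_val, hN, unzU_val]
      change ((corner S A a (M.val i j)) + ((1 : Matrix (Fin n) (Fin n) (DD S A)) i j -
        corner S A a ((1 : Matrix (Fin n) (Fin n) S) i j))).snd = _
      rw [sub_eq_add_neg, DD.snd_add, DD.snd_add, corner_snd, zero_add]
      have hneg : (-(corner S A a ((1 : Matrix (Fin n) (Fin n) S) i j))).snd = 0 := by
        rw [← map_neg, corner_snd]
      rw [hneg, add_zero]
      by_cases hij : i = j
      · rw [hij, one_apply_eq, Units.val_one, one_apply_eq]; rfl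
      · rw [one_apply_ne hij, Units.val_one, one_apply_ne hij]; rfl
    have hfv : ∀ i j, (fU n N).val i j = (1 : Matrix (Fin n) (Fin n) (Op S A)) i j +
        fstHom S A (corner S A a (M.val i j - (1 : Matrix (Fin n) (Fin n) S) i j)) := by
      intro i j
      rw [fU_val, hN, unzU_val]
      change fstHom S A ((corner S A a (M.val i j)) +
        ((1 : Matrix (Fin n) (Fin n) (DD S A)) i j -
          corner S A a ((1 : Matrix (Fin n) (Fin n) S) i j))) = _
      have h1 : fstHom S A ((1 : Matrix (Fin n) (Fin n) (DD S A)) i j) =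
          (1 : Matrix (Fin n) (Fin n) (Op S A)) i j := by
        by_cases hij : i = j
        · rw [hij, one_apply_eq, one_apply_eq]; rfl
        · rw [one_apply_ne hij, one_apply_ne hij, map_zero]
      rw [map_add, map_sub, h1, map_sub, map_sub]
      abel
    have hfr := fr_ratio n N
    have e1 : fU n N * (sU n N)⁻¹ = fU n N := by rw [hs, inv_one, mul_one]
    have hfr' : FR ((fU n N).val - 1) := by rw [← e1]; exact hfr
    have e2 : om (fU n N * (sU n N)⁻¹) hfr = om (fU n N) hfr' := by congr 1
    rw [e2]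
    have hsup : SupF ({a} : Finset A) ((fU n N).val - 1) := by
      intro i j s t hst
      rw [Matrix.sub_apply, hfv, add_sub_cancel_left, entry_corner, if_neg]
      rintro ⟨h1, h2⟩
      rw [h1, h2] at hst
      simp at hst
    rw [om_eq _ _ _ hsup]
    let g : Fin n ↪ Fin n × ({a} : Finset A) :=
      ⟨fun i => (i, ⟨a, Finset.mem_singleton_self a⟩), fun i j h => congrArg Prod.fst h⟩
    have hg : ∀ p : Fin n × ({a} : Finset A), p = g p.1 := by
      rintro ⟨i, s⟩
      have : s = ⟨a, Finset.mem_singleton_self a⟩ := Subtype.ext (Finset.mem_singleton.mp s.2)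
      rw [this]
      rfl
    rw [← cls_fin, ← cls_injR g M]
    congr 1
    apply Units.ext
    ext p q
    rw [unzU_val, Matrix.add_apply, Matrix.sub_apply]
    change entry ((fU n N).val p.1 q.1) p.2 q.2 = _
    rw [hg p, hg q, injR_apply, injR_apply]
    have e3 : (1 : Matrix (Fin n × ({a} : Finset A)) (Fin n × ({a} : Finset A)) S) (g p.1)
        (g q.1) = (1 : Matrix (Fin n) (Fin n) S) p.1 q.1 := by
      rw [Matrix.one_apply, Matrix.one_apply]
      simp only [g.injective.eq_iff]
    rw [e3, sub_self, add_zero]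
    change entry ((fU n N).val p.1 q.1) a a = _
    rw [hfv, entry_add, entry_corner, if_pos ⟨rfl, rfl⟩]
    by_cases hpq : p.1 = q.1
    · rw [hpq, one_apply_eq, one_apply_eq, entry_one_eq]; abel
    · rw [one_apply_ne hpq, one_apply_ne hpq, entry_zero]; abel
  exact h x

end Retraction

/-- `K₁` as an integral functor. -/
noncomputable def kFun : IFunctor.{0} where
  obj R _ _ := K1 R
  grp R _ _ := inferInstance
  map f := K1.map f.toNonUnitalRingHom
  map_id R _ _ z := K1.map_id' z
  map_comp g f z := K1.map_comp' g.toNonUnitalRingHom f.toNonUnitalRingHom z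
  map_add f g h h1 h2 z := K1.map_add' f.toNonUnitalRingHom g.toNonUnitalRingHom
    h.toNonUnitalRingHom h1 h2 z
  map_conj f g u h1 h2 h3 z := K1.map_conj' f.toNonUnitalRingHom g.toNonUnitalRingHom u (star u)
    h2 h1 h3 z
  corner_inj S _ _ A a := by
    classical
    exact Function.LeftInverse.injective (retr_corner a)

theorem kFun_cont (R : Type) [Ring R] [StarRing R] : kFun.Cont R := by
  classical
  intro G _ z
  obtain ⟨n, M, rfl⟩ := K1.exists_mk (R := MonoidAlgebra R G) z
  refine ⟨(Finset.univ.biUnion fun i => Finset.univ.biUnion fun j =>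
    (M.val i j).coeff.support), fun f hf => ?_⟩
  change K1.map (grMap R f).toNonUnitalRingHom (K1.mk M) = K1.mk M
  rw [K1.map_mk]
  congr 1
  apply Units.ext
  rw [unzU_val, mapR_one' n _ (show (grMap R f).toNonUnitalRingHom 1 = 1 from ?_), sub_self,
    add_zero]
  · refine Matrix.ext fun i j => ?_
    change grMap R f (M.val i j) = M.val i j
    apply grMap_fix
    intro g hg
    apply hf
    rw [Finset.mem_biUnion]
    refine ⟨i, Finset.mem_univ _, ?_⟩
    rw [Finset.mem_biUnion]
    exact ⟨j, Finset.mem_univ _, hg⟩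
  · change grMap R f 1 = 1
    rw [MonoidAlgebra.one_def, grMap_single, map_one]

end Pool.Agent.Y477.IW
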