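import Pool.Agent.Y477.IW.KRing
import Pool.Agent.Y477.IW.ColFInj

/-!
The functor `G ↦ K₁(R[G])`, `R` an arbitrary ring: the coinvariants of `K₁(R[N])` embed in
`K₁(R[N ⋊ Γ])`, and the colimit over the finite subgroups.
-/

namespace Pool.Agent.Y477.IW

open Pool.Agent.Y483 Pointwise CategoryTheory

section Coinv

variable {Γ N : Type} [Group Γ] [Group N] {φ : Γ →* MulAut N} (R : Type) [Ring R]

/-- The subgroup of `K₁(R[N])` generated by the elements `γ z - z`. -/
noncomputable def coDk (φ : Γ →* MulAut N) : AddSubgroup (K1 (MonoidAlgebra R N)) :=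
  AddSubgroup.closure {w | ∃ (γ : Γ) (z : K1 (MonoidAlgebra R N)),
    w = km (NonUnitalRingHom.id R) (φ γ).toMonoidHom z - z}

variable {R}

theorem km_gmap {R : Type} [Ring R] [StarRing R] {G K : Type} [Group G] [Group K] (f : G →* K)
    (z : K1 (MonoidAlgebra R G)) : kFun.gmap R f z = km (NonUnitalRingHom.id R) f z := by
  change K1.map (grMap R f).toNonUnitalRingHom z = _
  rw [grm_star]
  rfl

theorem coinv_k (ss : SupportSystem φ) (x : K1 (MonoidAlgebra R N)) (y : K1 (MonoidAlgebra R Γ))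
    (hxy : km (NonUnitalRingHom.id R) (SemidirectProduct.inl : N →* N ⋊[φ] Γ) x =
      km (NonUnitalRingHom.id R) (SemidirectProduct.inr : Γ →* N ⋊[φ] Γ) y) (m : ℕ)
    (hm : ∀ H : Subgroup Γ, Finite H → Nat.card H ∣ m) :
    m • (x - km (NonUnitalRingHom.id R) (1 : N →* N) x) ∈ coDk R φ := by
  have h := coinv (E := kFun) (R := Sw R) (kFun_cont (Sw R)) ss (km (swI R) (MonoidHom.id N) x)
    (km (swI R) (MonoidHom.id Γ) y) (by rw [← km_nat, ← km_nat, hxy]) m hm
  let pm : kFun.gobj (Sw R) N →+ K1 (MonoidAlgebra R N) := km (swP R) (MonoidHom.id N)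
  have hpm : ∀ z : K1 (MonoidAlgebra R N), pm (km (swI R) (MonoidHom.id N) z) = z := by
    intro z
    change km (swP R) (MonoidHom.id N) (km (swI R) (MonoidHom.id N) z) = z
    rw [km_comp, swP_swI]
    exact km_id z
  have hle : coD kFun (Sw R) φ ≤ (coDk R φ).comap pm := by
    unfold coD
    rw [AddSubgroup.closure_le]
    rintro w ⟨γ, z, rfl⟩
    rw [SetLike.mem_coe, AddSubgroup.mem_comap, map_sub]
    have e : pm (kFun.gmap (Sw R) (φ γ).toMonoidHom z) =
        km (NonUnitalRingHom.id R) (φ γ).toMonoidHom (pm z) := by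
      rw [km_gmap]
      change km (swP R) (MonoidHom.id N) (km (NonUnitalRingHom.id (Sw R)) _ z) =
        km (NonUnitalRingHom.id R) _ (km (swP R) (MonoidHom.id N) z)
      rw [km_comp, km_comp]; rfl
    rw [e]
    exact AddSubgroup.subset_closure ⟨γ, pm z, rfl⟩
  have h2 : pm _ ∈ coDk R φ := hle h
  rw [map_nsmul, map_sub, ← km_nat, hpm, hpm] at h2
  exact h2

theorem cont_k (G : Type) [Group G] (x : K1 (MonoidAlgebra R G)) :
    ∃ X : Finset G, ∀ f : G →* G, (∀ g ∈ X, f g = g) → km (NonUnitalRingHom.id R) f x = x := by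
  obtain ⟨X, hX⟩ := kFun_cont (Sw R) G (km (swI R) (MonoidHom.id G) x)
  refine ⟨X, fun f hf => ?_⟩
  apply km_inj G
  rw [km_nat]
  exact hX f hf

theorem cont_ss (ss : SupportSystem φ) (x : K1 (MonoidAlgebra R N)) :
    ∃ F : Finset Γ, ∀ F' : Finset Γ, F ⊆ F' →
      km (NonUnitalRingHom.id R) (ss.e (F' : Set Γ)) x = x := by
  classical
  obtain ⟨X, hX⟩ := cont_k N x
  choose S hS using ss.finite
  refine ⟨X.biUnion (fun n => (hS n).1.toFinset), fun F' hF' => hX _ ?_⟩
  intro n hn
  have h1 : S n ⊆ (F' : Set Γ) := by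
    intro s hs
    apply hF'
    rw [Finset.mem_biUnion]
    exact ⟨n, hn, (hS n).1.mem_toFinset.mpr hs⟩
  have h2 := ss.inter (F' : Set Γ) (S n) n
  rw [(hS n).2, Set.inter_eq_self_of_subset_right h1, (hS n).2] at h2
  exact h2


/-! ### The hypotheses of the general theorems for the functor `K₁(R[-])` -/

theorem kgr_inner (R : Type) [Ring R] : InnerTrivial (kgr R) := by
  intro G g
  apply AddCommGrpCat.hom_ext
  ext x
  apply km_inj G
  change km (swI R) (MonoidHom.id G) (km (NonUnitalRingHom.id R) _ x) =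
    km (swI R) (MonoidHom.id G) x
  rw [km_nat]
  have h := kFun.gmap_conj (Sw R) (MonoidHom.id G) g (km (swI R) (MonoidHom.id G) x)
  rw [kFun.gmap_id] at h
  exact h

theorem kgr_cont (ss : SupportSystem φ) : ContS (kgr R) ss := fun x => cont_ss ss x

theorem kgr_coinj (htf : ∀ H : Subgroup Γ, Finite H → H = ⊥) (ss : SupportSystem φ) :
    CoInj (kgr R) φ := by
  intro x y hxy
  have h := coinv_k ss x y hxy 1 (fun H hH => by rw [htf H hH, Subgroup.card_bot])
  rw [one_nsmul] at h
  exact h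

end Coinv

end Pool.Agent.Y477.IW
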