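import Pool.Agent.Y477.IW.Kernel
import Pool.Agent.Y483.Present

/-!
Restricted wreath products: the direct sum inside `E(R[P ≀ Γ])` and the integral kernel formula.
-/

namespace Pool.Agent.Y477.IW

open Pool.Agent.Y483 Pointwise CategoryTheory

universe v w

/-! ### Functors of groups -/

section Functors

/-- Inner automorphisms act trivially. -/
def InnerTrivial (H : GrpCat.{0} ⥤ AddCommGrpCat.{w}) : Prop :=
  ∀ (G : GrpCat.{0}) (g : G), H.map (GrpCat.ofHom (MulAut.conj g).toMonoidHom) = 𝟙 (H.obj G)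

/-- The subgroup of `H(P ≀ Γ)` generated by the images of `H(Γ)` and of the groups `H(P^n)`. -/
def genAll (H : GrpCat.{0} ⥤ AddCommGrpCat.{w}) (P Γ : Type) [Group P] [Group Γ] :
    AddSubgroup (H.obj (rwr P Γ)) :=
  AddSubgroup.closure ({w | ∃ y : H.obj (GrpCat.of Γ), w = (H.map (top P Γ)).hom y} ∪
    {w | ∃ (n : ℕ) (f : Fin n ↪ Γ) (z : H.obj (pow P n)), w = (H.map (placeAt P f)).hom z})

/-- The subgroup of `H(P ≀ Γ)` generated by the images of the kernels of `α` for `Γ` and for the
groups `P^n`. -/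
def genKer {H : GrpCat.{0} ⥤ AddCommGrpCat.{w}} {L : GrpCat.{0} ⥤ AddCommGrpCat.{w}} (α : H ⟶ L)
    (P Γ : Type) [Group P] [Group Γ] : AddSubgroup (H.obj (rwr P Γ)) :=
  AddSubgroup.closure ({w | ∃ y : H.obj (GrpCat.of Γ), (α.app (GrpCat.of Γ)).hom y = 0 ∧
      w = (H.map (top P Γ)).hom y} ∪
    {w | ∃ (n : ℕ) (f : Fin n ↪ Γ) (z : H.obj (pow P n)), (α.app (pow P n)).hom z = 0 ∧
      w = (H.map (placeAt P f)).hom z})

open Classical in
/-- The endomorphism of `P^n` which replaces the coordinate `c` by `1`. -/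
noncomputable def forgetHom (P : Type) [Group P] {n : ℕ} (c : Fin n) : (Fin n → P) →* (Fin n → P) where
  toFun p := Function.update p c 1
  map_one' := by
    funext i
    by_cases h : i = c
    · subst h; simp
    · simp [Function.update_of_ne h]
  map_mul' p q := by
    funext i
    by_cases h : i = c
    · subst h; simp
    · simp [Function.update_of_ne h]

/-- The endomorphism of `P^n` which replaces the coordinate `c` by `1`. -/
noncomputable def forget (P : Type) [Group P] {n : ℕ} (c : Fin n) : pow P n ⟶ pow P n :=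
  GrpCat.ofHom (forgetHom P c)

end Functors

section Generic

variable (E : IFunctor.{v}) (R : Type) [Ring R] [StarRing R]

/-- The functor `G ↦ E(R[G])`. -/
noncomputable def eg : GrpCat.{0} ⥤ AddCommGrpCat.{v} where
  obj G := AddCommGrpCat.of (E.gobj R G)
  map f := AddCommGrpCat.ofHom (E.gmap R f.hom)
  map_id G := by
    apply AddCommGrpCat.hom_ext
    ext x
    exact E.gmap_id R x
  map_comp f g := by
    apply AddCommGrpCat.hom_ext
    ext x
    exact E.gmap_comp R g.hom f.hom x

variable {E R} {P Γ : Type} [Group P] [Group Γ]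

theorem placeBase_fix {n : ℕ} (f : Fin n ↪ Γ) (F : Finset Γ) (hF : ∀ i, f i ∈ F) :
    ((rSupp P Γ).e (F : Set Γ)).comp (placeBase P Γ f) = placeBase P Γ f := by
  ext1 p
  apply Subtype.ext
  funext x
  by_cases hx : x ∈ (F : Set Γ)
  · exact rSupp_mem P Γ _ hx
  · rw [placeBase_notMem P Γ f _ x]
    · exact rSupp_notMem P Γ _ hx
    · rintro ⟨i, rfl⟩
      exact hx (hF i)

/-- Evaluation at the points of an embedding. -/
def evB {n : ℕ} (f : Fin n ↪ Γ) : rBase P Γ →* (Fin n → P) where
  toFun u i := u.1 (f i)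
  map_one' := rfl
  map_mul' _ _ := rfl

theorem evB_place {n : ℕ} (f : Fin n ↪ Γ) :
    (evB f).comp (placeBase P Γ f) = MonoidHom.id (Fin n → P) := by
  ext1 p
  funext i
  exact placeBase_apply P Γ f p i

/-- **Direct sum for restricted wreath products.** -/
theorem dsum_place (htf : ∀ H : Subgroup Γ, Finite H → H = ⊥) (k : ℕ) (n : Fin k → ℕ)
    (f : ∀ i, Fin (n i) ↪ Γ) (hn : ∀ i, 0 < n i)
    (hf : ∀ (i j : Fin k) (γ : Γ), (∀ g, g ∈ Set.range (f j) ↔ γ⁻¹ * g ∈ Set.range (f i)) → i = j)
    (x : ∀ i, E.gobj R (Fin (n i) → P))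
    (hx : ∀ i c, E.gmap R (forgetHom P c) (x i) = 0) (y : E.gobj R Γ)
    (hxy : ∑ i, E.gmap R (place P Γ (f i)) (x i) +
      E.gmap R (SemidirectProduct.inr : Γ →* RWreath P Γ) y = 0) :
    (∀ i, x i = 0) ∧ y = 0 := by
  classical
  have h0 : ∀ i, E.gmap R (placeBase P Γ (f i)) (x i) = 0 := by
    intro i
    refine dsum htf (rSupp P Γ) Finset.univ (fun i => Finset.univ.map (f i)) ?_ ?_
      (fun i => E.gmap R (placeBase P Γ (f i)) (x i)) ?_ ?_ (-y) ?_ i (Finset.mem_univ _)
    · intro i _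
      exact ⟨f i ⟨0, hn i⟩, Finset.mem_map_of_mem _ (Finset.mem_univ _)⟩
    · intro i _ j _ γ h
      apply hf i j γ
      intro g
      have := h g
      simpa using this
    · intro i _
      rw [← E.gmap_comp, placeBase_fix]
      intro c
      simp
    · intro i _ U hU
      obtain ⟨s, hs, hsU⟩ := Finset.exists_of_ssubset hU
      obtain ⟨c, -, rfl⟩ := Finset.mem_map.mp hs
      have e : ((rSupp P Γ).e (U : Set Γ)).comp (placeBase P Γ (f i)) =
          (((rSupp P Γ).e (U : Set Γ)).comp (placeBase P Γ (f i))).comp (forgetHom P c) := by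
        ext1 p
        apply Subtype.ext
        funext z
        by_cases hz : z ∈ (U : Set Γ)
        · rw [MonoidHom.comp_apply, MonoidHom.comp_apply, MonoidHom.comp_apply,
            rSupp_mem P Γ _ hz, rSupp_mem P Γ _ hz]
          by_cases hz' : z ∈ Set.range (f i)
          · obtain ⟨d, rfl⟩ := hz'
            rw [placeBase_apply, placeBase_apply]
            have hdc : d ≠ c := by
              rintro rfl
              exact hsU hz
            change p d = Function.update p c 1 d
            rw [Function.update_of_ne hdc]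
          · rw [placeBase_notMem P Γ _ _ _ hz', placeBase_notMem P Γ _ _ _ hz']
        · rw [MonoidHom.comp_apply, MonoidHom.comp_apply, MonoidHom.comp_apply,
            rSupp_notMem P Γ _ hz, rSupp_notMem P Γ _ hz]
      rw [← E.gmap_comp, e, E.gmap_comp]
      have h1 := hx i c
      refine (congrArg _ h1).trans (map_zero _)
    · rw [map_neg, ← add_eq_zero_iff_eq_neg, ← hxy]
      congr 1
      apply Finset.sum_congr rfl
      intro i _
      rw [← E.gmap_comp]
      rfl
  have h1 : ∀ i, x i = 0 := by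
    intro i
    have h2 := congrArg (E.gmap R (evB (P := P) (f i))) (h0 i)
    rw [map_zero, ← E.gmap_comp, evB_place, E.gmap_id] at h2
    exact h2
  refine ⟨h1, ?_⟩
  have h3 : E.gmap R (SemidirectProduct.inr : Γ →* RWreath P Γ) y = 0 := by
    rw [← hxy]
    symm
    rw [Finset.sum_eq_zero, zero_add]
    intro i _
    rw [h1 i, map_zero]
  have h4 := congrArg (E.gmap R (SemidirectProduct.rightHom : RWreath P Γ →* Γ)) h3
  rw [map_zero, ← E.gmap_comp, SemidirectProduct.rightHom_comp_inr, E.gmap_id] at h4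
  exact h4

/-- The direct sum statement in the category of groups. -/
theorem dsum_rwr (htf : ∀ H : Subgroup Γ, Finite H → H = ⊥) (k : ℕ) (n : Fin k → ℕ)
    (f : ∀ i, Fin (n i) ↪ Γ) (hn : ∀ i, 0 < n i)
    (hf : ∀ (i j : Fin k) (γ : Γ), (∀ g, g ∈ Set.range (f j) ↔ γ⁻¹ * g ∈ Set.range (f i)) → i = j)
    (x : ∀ i, (eg E R).obj (pow P (n i)))
    (hx : ∀ i c, ((eg E R).map (forget P c)).hom (x i) = 0) (y : (eg E R).obj (GrpCat.of Γ))
    (hxy : ∑ i, ((eg E R).map (placeAt P (f i))).hom (x i) +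
      ((eg E R).map (top P Γ)).hom y = 0) :
    (∀ i, x i = 0) ∧ y = 0 := by
  apply dsum_place (E := E) (R := R) htf k n f hn hf x hx y
  have h1 := (congrArg (E.gmap R (rwIso P Γ).symm.toMonoidHom) hxy).trans
    (map_zero (E.gmap R (rwIso P Γ).symm.toMonoidHom))
  refine Eq.trans ?_ h1
  have h2 : ∀ {K : Type} [Group K] (j : K →* RWreath P Γ) (z : E.gobj R K),
      E.gmap R (rwIso P Γ).symm.toMonoidHom (E.gmap R ((rwIso P Γ).toMonoidHom.comp j) z) =
        E.gmap R j z := by
    intro K _ j z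
    rw [← E.gmap_comp]
    congr 2
  refine Eq.trans ?_ (map_add (E.gmap R (rwIso P Γ).symm.toMonoidHom) _ _).symm
  congr 1
  · refine Eq.trans ?_ (map_sum (E.gmap R (rwIso P Γ).symm.toMonoidHom) _ _).symm
    apply Finset.sum_congr rfl
    intro i _
    rw [← h2 (place P Γ (f i)), rwIso_place]
    rfl
  · rw [← h2 (SemidirectProduct.inr : Γ →* RWreath P Γ), rwIso_inr]
    rfl

/-- The subgroup of `H(P ≀ Γ)` generated by the images of `H(Γ)` and of the groups `H(P^n)`. -/
def genAllG (H : GFun.{w}) (P Γ : Type) [Group P] [Group Γ] : AddSubgroup (H.obj (RWr P Γ)) :=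
  AddSubgroup.closure ({w | ∃ y : H.obj Γ, w = H.map (topHom P Γ) y} ∪
    {w | ∃ (n : ℕ) (f : Fin n ↪ Γ) (z : H.obj (Fin n → P)), w = H.map (placeHom f) z})

/-- The subgroup of `H(P ≀ Γ)` generated by the images of the kernels. -/
def genKerG {H : GFun.{w}} (α : GTr H E R) (P Γ : Type) [Group P] [Group Γ] :
    AddSubgroup (H.obj (RWr P Γ)) :=
  AddSubgroup.closure ({w | ∃ y : H.obj Γ, α.app Γ y = 0 ∧ w = H.map (topHom P Γ) y} ∪
    {w | ∃ (n : ℕ) (f : Fin n ↪ Γ) (z : H.obj (Fin n → P)), α.app (Fin n → P) z = 0 ∧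
      w = H.map (placeHom f) z})

theorem shape (H : GFun.{w}) (x : H.obj (RWr P Γ)) (hx : x ∈ genAllG H P Γ) :
    ∃ (F : Finset Γ) (a : H.obj (rBase P Γ)) (b : H.obj Γ),
      H.map ((rSupp P Γ).e (F : Set Γ)) a = a ∧
      x = H.map ((rwIso P Γ).toMonoidHom.comp SemidirectProduct.inl) a +
        H.map ((rwIso P Γ).toMonoidHom.comp SemidirectProduct.inr) b := by
  classical
  induction hx using AddSubgroup.closure_induction with
  | mem w hw =>
    rcases hw with ⟨y, rfl⟩ | ⟨n, f, z, rfl⟩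
    · refine ⟨∅, 0, y, map_zero _, ?_⟩
      rw [map_zero, zero_add]
      rfl
    · refine ⟨Finset.univ.map f, H.map (placeBase P Γ f) z, 0, ?_, ?_⟩
      · rw [← H.map_comp, placeBase_fix]
        intro c
        simp
      · rw [map_zero, add_zero, ← H.map_comp]
        have e : ((rwIso P Γ).toMonoidHom.comp SemidirectProduct.inl).comp (placeBase P Γ f) =
            placeHom f := rwIso_place P Γ f
        rw [e]
  | zero =>
    refine ⟨∅, 0, 0, map_zero _, ?_⟩
    rw [map_zero, map_zero, zero_add]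
  | add u v _ _ hu hv =>
    obtain ⟨F₁, a₁, b₁, h₁, rfl⟩ := hu
    obtain ⟨F₂, a₂, b₂, h₂, rfl⟩ := hv
    refine ⟨F₁ ∪ F₂, a₁ + a₂, b₁ + b₂, ?_, ?_⟩
    · have hfix : ∀ (F : Finset Γ) (a : H.obj (rBase P Γ)), F ⊆ F₁ ∪ F₂ →
          H.map ((rSupp P Γ).e (F : Set Γ)) a = a →
          H.map ((rSupp P Γ).e ((F₁ ∪ F₂ : Finset Γ) : Set Γ)) a = a := by
        intro F a hF ha
        conv_lhs => rw [← ha]
        rw [← H.map_comp]
        have e : ((rSupp P Γ).e ((F₁ ∪ F₂ : Finset Γ) : Set Γ)).comp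
            ((rSupp P Γ).e (F : Set Γ)) = (rSupp P Γ).e (F : Set Γ) := by
          ext1 n
          rw [MonoidHom.comp_apply, (rSupp P Γ).inter,
            Set.inter_eq_self_of_subset_right (Finset.coe_subset.mpr hF)]
        rw [e, ha]
      rw [map_add, hfix F₁ a₁ Finset.subset_union_left h₁,
        hfix F₂ a₂ Finset.subset_union_right h₂]
    · rw [map_add, map_add]
      abel
  | neg u _ hu =>
    obtain ⟨F₁, a₁, b₁, h₁, rfl⟩ := hu
    refine ⟨F₁, -a₁, -b₁, by rw [map_neg, h₁], ?_⟩
    rw [map_neg, map_neg]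
    exact neg_add _ _

/-- **Integral kernel formula for restricted wreath products.** -/
theorem kernelG {H : GFun.{w}} (α : GTr H E R) (m : ℕ)
    (hm : ∀ K : Subgroup Γ, Finite K → Nat.card K ∣ m) (x : H.obj (RWr P Γ))
    (hx : x ∈ genAllG H P Γ) (hα : α.app (RWr P Γ) x = 0) : m • x ∈ genKerG α P Γ := by
  classical
  obtain ⟨F, a, b, ha, hxab⟩ := shape H x hx
  have hJ : ∀ z : H.obj (RWreath P Γ), α.app (RWreath P Γ) z =
      E.gmap R (rwIso P Γ).symm.toMonoidHom
        (α.app (RWr P Γ) (H.map (rwIso P Γ).toMonoidHom z)) := by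
    intro z
    rw [α.nat, ← H.map_comp]
    have e : ((rwIso P Γ).symm.toMonoidHom).comp ((rwIso P Γ).toMonoidHom) =
        MonoidHom.id (RWreath P Γ) := by
      ext1 w
      exact (rwIso P Γ).symm_apply_apply _
    rw [e, H.map_id]
  have hz : x = H.map (rwIso P Γ).toMonoidHom
      (H.map SemidirectProduct.inl a + H.map SemidirectProduct.inr b) := by
    rw [hxab, H.map_comp, H.map_comp, map_add]
  have hα' : α.app (RWreath P Γ)
      (H.map SemidirectProduct.inl a + H.map SemidirectProduct.inr b) = 0 := by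
    rw [hJ, ← hz, hα, map_zero]
  have hk := kernel α (rSupp P Γ) F a ha b hα' m hm
  have hle : (imK α (rSupp P Γ)) ≤ (genKerG α P Γ).comap (H.map (rwIso P Γ).toMonoidHom) := by
    unfold imK
    rw [AddSubgroup.closure_le]
    rintro w (⟨y, hy, rfl⟩ | ⟨T, z, hz, rfl⟩)
    · rw [SetLike.mem_coe, AddSubgroup.mem_comap, ← H.map_comp]
      exact AddSubgroup.subset_closure (Or.inl ⟨y, hy, rfl⟩)
    · rw [SetLike.mem_coe, AddSubgroup.mem_comap, ← H.map_comp]
      let f : Fin T.card ↪ Γ := T.equivFin.symm.toEmbedding.trans (Function.Embedding.subtype _)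
      let q : (rSupp P Γ).part (T : Set Γ) →* (Fin T.card → P) :=
        (evB f).comp ((rSupp P Γ).e (T : Set Γ)).range.subtype
      have hfact0 : (rSupp P Γ).partIncl (T : Set Γ) = (place P Γ f).comp q := by
        ext1 u
        apply SemidirectProduct.ext
        · apply Subtype.ext
          funext x
          change u.1.1 x = (placeBase P Γ f (q u)).1 x
          by_cases hx : x ∈ Set.range f
          · obtain ⟨i, rfl⟩ := hx
            rw [placeBase_apply]
            rfl
          · rw [placeBase_notMem P Γ f _ x hx]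
            obtain ⟨w, hw⟩ := u.2
            rw [← hw]
            apply rSupp_notMem
            intro hxF
            apply hx
            refine ⟨T.equivFin ⟨x, hxF⟩, ?_⟩
            simp [f]
        · rfl
      rw [hfact0, ← MonoidHom.comp_assoc, rwIso_place, H.map_comp]
      refine AddSubgroup.subset_closure (Or.inr ⟨T.card, f, H.map q z, ?_, rfl⟩)
      rw [← α.nat, hz, map_zero]
  have h6 := hle hk
  rw [AddSubgroup.mem_comap, map_nsmul, ← hz] at h6
  exact h6

/-- A functor on the category of groups as a functor in the sense of `GFun`. -/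
def toG (H : GrpCat.{0} ⥤ AddCommGrpCat.{w}) (hH : InnerTrivial H) : GFun.{w} where
  obj G _ := H.obj (GrpCat.of G)
  grp G _ := inferInstance
  map f := (H.map (GrpCat.ofHom f)).hom
  map_id G _ x := by
    have h : H.map (GrpCat.ofHom (MonoidHom.id G)) = 𝟙 _ := H.map_id (GrpCat.of G)
    rw [h]; rfl
  map_comp {G K L} _ _ _ g f x := by
    have h : H.map (GrpCat.ofHom (g.comp f)) = H.map (GrpCat.ofHom f) ≫ H.map (GrpCat.ofHom g) :=
      H.map_comp (GrpCat.ofHom f) (GrpCat.ofHom g)
    rw [h]; rfl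
  map_conj {G K} _ _ f k x := by
    have h : H.map (GrpCat.ofHom ((MulAut.conj k).toMonoidHom.comp f)) =
        H.map (GrpCat.ofHom f) ≫ H.map (GrpCat.ofHom (MulAut.conj k).toMonoidHom) :=
      H.map_comp (GrpCat.ofHom f) (GrpCat.ofHom (MulAut.conj k).toMonoidHom)
    have h2 : H.map (GrpCat.ofHom (MulAut.conj k).toMonoidHom) = 𝟙 (H.obj (GrpCat.of K)) :=
      hH (GrpCat.of K) k
    rw [h, h2, Category.comp_id]

/-- A natural transformation in the sense of `GTr`. -/
noncomputable def toT {H : GrpCat.{0} ⥤ AddCommGrpCat.{v}} (hH : InnerTrivial H) (α : H ⟶ eg E R) :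
    GTr (toG H hH) E R where
  app G _ := (α.app (GrpCat.of G)).hom
  nat {G K} _ _ f x := by
    have h := α.naturality (GrpCat.ofHom f)
    exact (congrArg (fun g => g.hom x) h).symm

/-- **Integral kernel formula for restricted wreath products**, in the category of groups. -/
theorem kernel_rwr {H : GrpCat.{0} ⥤ AddCommGrpCat.{v}} (hH : InnerTrivial H) (α : H ⟶ eg E R)
    (m : ℕ) (hm : ∀ K : Subgroup Γ, Finite K → Nat.card K ∣ m) (x : H.obj (rwr P Γ))
    (hx : x ∈ genAll H P Γ) (hα : (α.app (rwr P Γ)).hom x = 0) : m • x ∈ genKer α P Γ :=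
  kernelG (toT hH α) m hm x hx hα

end Generic

end Pool.Agent.Y477.IW
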