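import Pool.Agent.Y477.IW.K1d
import Pool.Agent.Y477.IW.Pres
import Pool.Agent.Y477.IW.LPres

/-!
The group `K₁` of group rings with coefficients in an arbitrary ring `R`: the ring `R` is a direct
factor (for homomorphisms which need not preserve the unit) of the ring `R × Rᵒᵖ`, which has an
involution.
-/

namespace Pool.Agent.Y477.IW

open Pool.Agent.Y483 CategoryTheory

section Coef

variable {R S T G K L : Type} [Ring R] [Ring S] [Ring T] [Group G] [Group K] [Group L]

/-- The additive map of group rings `∑ r_g g ↦ ∑ c(r_g) f(g)`. -/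
noncomputable def grmAdd (c : R →ₙ+* S) (f : G →* K) : MonoidAlgebra R G →+ MonoidAlgebra S K :=
  MonoidAlgebra.liftNC ((MonoidAlgebra.singleAddHom (1 : K)).comp (c : R →+ S))
    (fun g => MonoidAlgebra.single (f g) 1)

theorem grmAdd_single (c : R →ₙ+* S) (f : G →* K) (g : G) (r : R) :
    grmAdd c f (MonoidAlgebra.single g r) = MonoidAlgebra.single (f g) (c r) := by
  unfold grmAdd
  rw [MonoidAlgebra.liftNC_single]
  change MonoidAlgebra.single (1 : K) (c r) * MonoidAlgebra.single (f g) 1 = _
  rw [MonoidAlgebra.single_mul_single, one_mul, mul_one]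

theorem grmAdd_mul (c : R →ₙ+* S) (f : G →* K) (x y : MonoidAlgebra R G) :
    grmAdd c f (x * y) = grmAdd c f x * grmAdd c f y := by
  have h : ∀ (g : G) (r : R) (y : MonoidAlgebra R G),
      grmAdd c f (MonoidAlgebra.single g r * y) =
        grmAdd c f (MonoidAlgebra.single g r) * grmAdd c f y := by
    intro g r y
    have h1 : (grmAdd c f).comp (AddMonoidHom.mulLeft (MonoidAlgebra.single g r)) =
        (AddMonoidHom.mulLeft (grmAdd c f (MonoidAlgebra.single g r))).comp (grmAdd c f) := by
      apply MonoidAlgebra.addMonoidHom_ext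
      intro k s
      simp only [AddMonoidHom.comp_apply, AddMonoidHom.coe_mulLeft,
        MonoidAlgebra.single_mul_single, grmAdd_single, map_mul]
    exact DFunLike.congr_fun h1 y
  have h2 : (grmAdd c f).comp (AddMonoidHom.mulRight y) =
      (AddMonoidHom.mulRight (grmAdd c f y)).comp (grmAdd c f) := by
    apply MonoidAlgebra.addMonoidHom_ext
    intro k s
    simp only [AddMonoidHom.comp_apply, AddMonoidHom.coe_mulRight]
    exact h k s y
  exact DFunLike.congr_fun h2 x

/-- The homomorphism of group rings `∑ r_g g ↦ ∑ c(r_g) f(g)` attached to a homomorphism `f` of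
groups and a homomorphism `c` of rings which need not preserve the unit. -/
noncomputable def grm (c : R →ₙ+* S) (f : G →* K) : MonoidAlgebra R G →ₙ+* MonoidAlgebra S K where
  toFun := grmAdd c f
  map_zero' := map_zero _
  map_add' := map_add _
  map_mul' := grmAdd_mul c f

theorem grm_single (c : R →ₙ+* S) (f : G →* K) (g : G) (r : R) :
    grm c f (MonoidAlgebra.single g r) = MonoidAlgebra.single (f g) (c r) := grmAdd_single c f g r

theorem grm_ext {f f' : MonoidAlgebra R G →ₙ+* S}
    (h : ∀ g r, f (MonoidAlgebra.single g r) = f' (MonoidAlgebra.single g r)) : f = f' := by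
  apply NonUnitalRingHom.ext
  intro x
  have key : (f : MonoidAlgebra R G →+ S) = (f' : MonoidAlgebra R G →+ S) := by
    apply MonoidAlgebra.addMonoidHom_ext
    intro g n
    exact h g n
  exact DFunLike.congr_fun key x

theorem grm_comp (d : S →ₙ+* T) (g : K →* L) (c : R →ₙ+* S) (f : G →* K) :
    (grm d g).comp (grm c f) = grm (d.comp c) (g.comp f) := by
  apply grm_ext
  intro x r
  rw [NonUnitalRingHom.comp_apply, grm_single, grm_single, grm_single]
  rfl

theorem grm_id (R G : Type) [Ring R] [Group G] :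
    grm (NonUnitalRingHom.id R) (MonoidHom.id G) = NonUnitalRingHom.id (MonoidAlgebra R G) := by
  apply grm_ext
  intro x r
  rw [grm_single]
  rfl

theorem grm_star [StarRing R] (f : G →* K) :
    (grMap R f).toNonUnitalRingHom = grm (NonUnitalRingHom.id R) f := by
  apply grm_ext
  intro x r
  rw [grm_single]
  exact grMap_single f x r

end Coef

/-! ### The functor `K₁(R[G])` -/

/-- The map `K₁(R[G]) → K₁(S[K])` induced by homomorphisms of the coefficients and of the groups. -/
noncomputable def km {R S G K : Type} [Ring R] [Ring S] [Group G] [Group K] (c : R →ₙ+* S)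
    (f : G →* K) : K1 (MonoidAlgebra R G) →+ K1 (MonoidAlgebra S K) := K1.map (grm c f)

theorem km_comp {R S T G K L : Type} [Ring R] [Ring S] [Ring T] [Group G] [Group K] [Group L]
    (d : S →ₙ+* T) (g : K →* L) (c : R →ₙ+* S) (f : G →* K) (x : K1 (MonoidAlgebra R G)) :
    km d g (km c f x) = km (d.comp c) (g.comp f) x := by
  unfold km
  rw [← K1.map_comp', grm_comp]

theorem km_id {R G : Type} [Ring R] [Group G] (x : K1 (MonoidAlgebra R G)) :
    km (NonUnitalRingHom.id R) (MonoidHom.id G) x = x := by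
  unfold km
  rw [grm_id, K1.map_id']

/-- The group `K₁(R[G])`. -/
def KG (R G : Type) [Ring R] [Group G] : Type := K1 (MonoidAlgebra R G)

noncomputable instance (R G : Type) [Ring R] [Group G] : AddCommGroup (KG R G) :=
  (inferInstance : AddCommGroup (K1 (MonoidAlgebra R G)))

/-- The map `K₁(R[G]) → K₁(R[K])` induced by a homomorphism `f : G → K`. -/
noncomputable def kf (R : Type) {G K : Type} [Ring R] [Group G] [Group K] (f : G →* K) :
    KG R G →+ KG R K := km (NonUnitalRingHom.id R) f

theorem kf_comp {R G K L : Type} [Ring R] [Group G] [Group K] [Group L] (g : K →* L) (f : G →* K)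
    (x : KG R G) : kf R g (kf R f x) = kf R (g.comp f) x :=
  km_comp (NonUnitalRingHom.id R) g (NonUnitalRingHom.id R) f x

theorem kf_id {R G : Type} [Ring R] [Group G] (x : KG R G) : kf R (MonoidHom.id G) x = x :=
  km_id x

/-- The functor `G ↦ K₁(R[G])`. -/
noncomputable def kgr (R : Type) [Ring R] : GrpCat.{0} ⥤ AddCommGrpCat.{0} where
  obj G := AddCommGrpCat.of (KG R G)
  map f := AddCommGrpCat.ofHom (kf R f.hom)
  map_id G := by
    apply AddCommGrpCat.hom_ext
    ext x
    exact kf_id x
  map_comp f g := by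
    apply AddCommGrpCat.hom_ext
    ext x
    exact (kf_comp g.hom f.hom x).symm

/-! ### The ring `R × Rᵒᵖ` -/

/-- The ring `R × Rᵒᵖ`. -/
def Sw (R : Type) : Type := R × Rᵐᵒᵖ

noncomputable instance (R : Type) [Ring R] : Ring (Sw R) := inferInstanceAs (Ring (R × Rᵐᵒᵖ))

noncomputable instance (R : Type) [Ring R] : StarRing (Sw R) where
  star x := (MulOpposite.unop x.2, MulOpposite.op x.1)
  star_involutive _ := rfl
  star_mul _ _ := rfl
  star_add _ _ := rfl

/-- The inclusion of the first factor. -/
def swI (R : Type) [Ring R] : R →ₙ+* Sw R where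
  toFun r := (r, 0)
  map_zero' := rfl
  map_add' _ _ := Prod.ext rfl (add_zero (0 : Rᵐᵒᵖ)).symm
  map_mul' _ _ := Prod.ext rfl (mul_zero (0 : Rᵐᵒᵖ)).symm

/-- The projection to the first factor. -/
def swP (R : Type) [Ring R] : Sw R →ₙ+* R where
  toFun r := r.1
  map_zero' := rfl
  map_add' _ _ := rfl
  map_mul' _ _ := rfl

theorem swP_swI (R : Type) [Ring R] : (swP R).comp (swI R) = NonUnitalRingHom.id R := rfl

section Double

variable {R : Type} [Ring R]

theorem km_inj (G : Type) [Group G] : Function.Injective (km (swI R) (MonoidHom.id G)) := by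
  apply Function.LeftInverse.injective (g := km (swP R) (MonoidHom.id G))
  intro x
  rw [km_comp, swP_swI]
  exact km_id x

theorem km_nat {G K : Type} [Group G] [Group K] (f : G →* K) (x : K1 (MonoidAlgebra R G)) :
    km (swI R) (MonoidHom.id K) (km (NonUnitalRingHom.id R) f x) =
      kFun.gmap (Sw R) f (km (swI R) (MonoidHom.id G) x) := by
  have h : ∀ z, kFun.gmap (Sw R) f z = km (NonUnitalRingHom.id (Sw R)) f z := by
    intro z
    change K1.map (grMap (Sw R) f).toNonUnitalRingHom z = _
    rw [grm_star]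
    rfl
  rw [h, km_comp, km_comp]
  rfl

/-- The natural transformation `K₁(R[G]) → K₁((R × Rᵒᵖ)[G])`. -/
noncomputable def dbl (R : Type) [Ring R] : kgr R ⟶ eg kFun (Sw R) where
  app G := AddCommGrpCat.ofHom (km (swI R) (MonoidHom.id G))
  naturality G K f := by
    apply AddCommGrpCat.hom_ext
    ext x
    exact km_nat f.hom x

end Double

variable {R : Type} [Ring R] {P Γ : Type} [Group P] [Group Γ]

/-- The direct sum statement for `K₁` with arbitrary coefficients. -/
theorem dsum_k (htf : ∀ H : Subgroup Γ, Finite H → H = ⊥) (k : ℕ) (n : Fin k → ℕ)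
    (f : ∀ i, Fin (n i) ↪ Γ) (hn : ∀ i, 0 < n i)
    (hf : ∀ (i j : Fin k) (γ : Γ), (∀ g, g ∈ Set.range (f j) ↔ γ⁻¹ * g ∈ Set.range (f i)) → i = j)
    (x : ∀ i, (kgr R).obj (pow P (n i)))
    (hx : ∀ i c, ((kgr R).map (forget P c)).hom (x i) = 0) (y : (kgr R).obj (GrpCat.of Γ))
    (hxy : ∑ i, ((kgr R).map (placeAt P (f i))).hom (x i) +
      ((kgr R).map (top P Γ)).hom y = 0) :
    (∀ i, x i = 0) ∧ y = 0 := by
  have hnat : ∀ {G K : GrpCat.{0}} (f : G ⟶ K) (z : (kgr R).obj G),
      ((dbl R).app K).hom (((kgr R).map f).hom z) =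
        ((eg kFun (Sw R)).map f).hom (((dbl R).app G).hom z) := fun f z => km_nat f.hom z
  have hinj : ∀ (G : GrpCat.{0}) (z : (kgr R).obj G), ((dbl R).app G).hom z = 0 → z = 0 := by
    intro G z hz
    exact km_inj G (hz.trans (map_zero _).symm)
  obtain ⟨h1, h2⟩ := dsum_rwr (E := kFun) (R := Sw R) htf k n f hn hf
    (fun i => ((dbl R).app (pow P (n i))).hom (x i)) (fun i c => by
      rw [← hnat, hx, map_zero]) (((dbl R).app (GrpCat.of Γ)).hom y) (by
      have h3 := congrArg ((dbl R).app (rwr P Γ)).hom hxy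
      rw [map_add, map_sum, map_zero, hnat] at h3
      rw [← h3]
      congr 1
      apply Finset.sum_congr rfl
      intro i _
      rw [hnat])
  exact ⟨fun i => hinj _ _ (h1 i), hinj _ _ h2⟩

/-- The kernel formula for `K₁` with arbitrary coefficients. -/
theorem kernel_k {H : GrpCat.{0} ⥤ AddCommGrpCat.{0}} (hH : InnerTrivial H) (α : H ⟶ kgr R)
    (m : ℕ) (hm : ∀ K : Subgroup Γ, Finite K → Nat.card K ∣ m) (x : H.obj (rwr P Γ))
    (hx : x ∈ genAll H P Γ) (hα : (α.app (rwr P Γ)).hom x = 0) : m • x ∈ genKer α P Γ := by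
  have hinj : ∀ (G : GrpCat.{0}) (z : (kgr R).obj G), ((dbl R).app G).hom z = 0 → z = 0 := by
    intro G z hz
    exact km_inj G (hz.trans (map_zero _).symm)
  have happ : ∀ (G : GrpCat.{0}) (z : H.obj G), ((α ≫ dbl R).app G).hom z =
      ((dbl R).app G).hom ((α.app G).hom z) := fun G z => rfl
  have h := kernel_rwr (E := kFun) (R := Sw R) hH (α ≫ dbl R) m hm x hx (by
    rw [happ, hα, map_zero])
  have hle : genKer (α ≫ dbl R) P Γ ≤ genKer α P Γ := by
    unfold genKer
    apply AddSubgroup.closure_mono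
    rintro w (⟨y, hy, rfl⟩ | ⟨n, f, z, hz, rfl⟩)
    · left
      refine ⟨y, hinj _ _ ?_, rfl⟩
      rw [← happ, hy]
    · right
      refine ⟨n, f, z, hinj _ _ ?_, rfl⟩
      rw [← happ, hz]
  exact hle h

end Pool.Agent.Y477.IW
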