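import Pool.Agent.Y477.IW.Base

/-!
The direct sum decomposition inside `E(R[N ⋊ Γ])` for torsion-free `Γ`, and the integral kernel
formula for natural transformations.
-/

namespace Pool.Agent.Y477.IW

open Pool.Agent.Y483 Pointwise

universe v w

section Moeb

variable {X V : Type*} [DecidableEq X] [AddCommGroup V]

theorem moeb_unique (k g : Finset X → V) (h : ∀ S, ∑ T ∈ S.powerset, k T = g S) (S : Finset X) :
    moeb g S = k S := by
  induction S using Finset.strongInduction with
  | H S ih =>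
    have h1 := moeb_sum g S
    rw [← h S, ← Finset.add_sum_erase _ _ (Finset.mem_powerset_self S),
      ← Finset.add_sum_erase _ k (Finset.mem_powerset_self S)] at h1
    have h2 : ∑ T ∈ S.powerset.erase S, moeb g T = ∑ T ∈ S.powerset.erase S, k T := by
      apply Finset.sum_congr rfl
      intro T hT
      rw [Finset.mem_erase, Finset.mem_powerset] at hT
      exact ih T (Finset.ssubset_iff_subset_ne.mpr ⟨hT.2, hT.1⟩)
    rw [h2] at h1
    exact add_right_cancel h1

theorem moeb_delta (T₀ : Finset X) (x : V) (S : Finset X) :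
    moeb (fun S => if T₀ ⊆ S then x else 0) S = if S = T₀ then x else 0 := by
  apply moeb_unique (fun S => if S = T₀ then x else 0)
  intro S
  rw [Finset.sum_ite_eq' S.powerset T₀ (fun _ => x)]
  simp only [Finset.mem_powerset]

omit [DecidableEq X] in
theorem moeb_sum_fun {ι : Type*} (s : Finset ι) (g : ι → Finset X → V) (S : Finset X) :
    moeb (fun S => ∑ i ∈ s, g i S) S = ∑ i ∈ s, moeb (g i) S := by
  unfold moeb
  rw [Finset.sum_comm]
  apply Finset.sum_congr rfl
  intro T _
  rw [Finset.smul_sum]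

end Moeb

section

variable {Γ N : Type} [Group Γ] [Group N] {φ : Γ →* MulAut N} {E : IFunctor.{v}}
  {R : Type} [Ring R] [StarRing R]

/-- The key identity for a support system. -/
theorem key_ss [DecidableEq Γ] (ss : SupportSystem φ) (F : Finset Γ) (x : E.gobj R N)
    (hx : E.gmap R (ss.e (F : Set Γ)) x = x) (y : E.gobj R Γ)
    (hxy : E.gmap R (SemidirectProduct.inl : N →* N ⋊[φ] Γ) x =
      E.gmap R (SemidirectProduct.inr : Γ →* N ⋊[φ] Γ) y) (T Y : Finset Γ)
    (hY : ∀ y ∉ Y, Disjoint (y • T) F) :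
    ∑ a ∈ Y, (E.gmap R (φ a⁻¹).toMonoidHom (E.gmap R (ss.e ((a • T : Finset Γ) : Set Γ)) x) -
      E.gmap R (1 : N →* N) x) = 0 := by
  classical
  have hTfin : (T : Set Γ).Finite := T.finite_toSet
  have hj : ∀ (g : N) (a : Pt φ), ss.incl (F : Set Γ) g • a = a := by
    intro g a
    exact one_mul (show Γ from a)
  have hlab : ∀ a ∉ (Y : Finset (Pt φ)), ∀ g : N,
      (ss.cocycle (T : Set Γ) hTfin).c (ss.incl (F : Set Γ) g) a = 1 := by
    intro a ha g
    apply Subtype.ext
    change ss.e T (φ ((1 : Γ) * (show Γ from a))⁻¹ (ss.e (F : Set Γ) g)) = 1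
    rw [one_mul, ss.equivariant]
    rw [ss.inter]
    have hd : (T : Set Γ) ∩ ((show Γ from a)⁻¹ • (F : Set Γ)) = ∅ := by
      rw [← Set.disjoint_iff_inter_eq_empty, Set.disjoint_left]
      intro t ht ht'
      have h2 := Finset.disjoint_left.mp (hY a ha)
        (Finset.smul_mem_smul_finset (a := (show Γ from a)) ht)
      apply h2
      rw [Set.mem_inv_smul_set_iff] at ht'
      simpa using ht'
    rw [hd, ss.empty]
  have hi : ∀ (g : Γ) (a : Pt φ), (ss.cocycle (T : Set Γ) hTfin).c
      ((SemidirectProduct.inr : Γ →* N ⋊[φ] Γ) g) a = 1 := by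
    intro g a
    apply Subtype.ext
    change ss.e T (φ (g * (show Γ from a))⁻¹ (1 : N)) = 1
    rw [map_one, map_one]
  have hxy' : E.gmap R (ss.incl (F : Set Γ)) x =
      E.gmap R (SemidirectProduct.inr : Γ →* N ⋊[φ] Γ) y := by
    rw [← hxy]
    conv_rhs => rw [← hx]
    rw [← E.gmap_comp]
    rfl
  have hk := key E (ss.cocycle (T : Set Γ) hTfin) (ss.incl (F : Set Γ)) hj Y hlab
    (SemidirectProduct.inr : Γ →* N ⋊[φ] Γ) hi x y hxy'
  have hk2 := congrArg (E.gmap R (ss.e (T : Set Γ)).range.subtype) hk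
  rw [map_zero, map_sum] at hk2
  refine Eq.trans ?_ hk2
  refine Finset.sum_congr (ι := Γ) rfl ?_
  intro a _
  have e1 : ((ss.e (T : Set Γ)).range.subtype).comp (1 : N →* ss.part (T : Set Γ)) = 1 := by
    ext1 n; rfl
  have e2 : ((ss.e (T : Set Γ)).range.subtype).comp
      ((ss.cocycle (T : Set Γ) hTfin).label (ss.incl (F : Set Γ)) hj a) =
      ((φ a⁻¹).toMonoidHom.comp (ss.e ((a • T : Finset Γ) : Set Γ))).comp (ss.e (F : Set Γ)) := by
    ext1 n
    change ss.e T (φ ((1 : Γ) * a)⁻¹ (ss.e (F : Set Γ) n)) =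
      φ a⁻¹ (ss.e ((a • T : Finset Γ) : Set Γ) (ss.e (F : Set Γ) n))
    have h6 := ss.equivariant a⁻¹ (a • (T : Set Γ)) (ss.e (F : Set Γ) n)
    rw [inv_smul_smul] at h6
    rw [one_mul, Finset.coe_smul_finset, h6]
  have e3 : E.gmap R (ss.e (T : Set Γ)).range.subtype (E.gmap R
      ((ss.cocycle (T : Set Γ) hTfin).label (ss.incl (F : Set Γ)) hj a) x) =
      E.gmap R (φ a⁻¹).toMonoidHom (E.gmap R (ss.e ((a • T : Finset Γ) : Set Γ)) x) := by
    have e4 := congrArg (fun f => E.gmap R f x) e2
    refine (E.gmap_comp R _ _ x).symm.trans (e4.trans ?_)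
    rw [E.gmap_comp R _ (ss.e (F : Set Γ)), hx, E.gmap_comp]
  have e5 : E.gmap R (ss.e (T : Set Γ)).range.subtype
      (E.gmap R (1 : N →* ss.part (T : Set Γ)) x) = E.gmap R (1 : N →* N) x := by
    rw [← E.gmap_comp, e1]
  refine Eq.trans ?_ (map_sub (E.gmap R (ss.e (T : Set Γ)).range.subtype) _ _).symm
  exact (congrArg₂ (fun u v => u - v) e3 e5).symm

/-- **Direct sum.** Let `Γ` be torsion-free, `T_i` nonempty finite subsets of `Γ`, pairwise not
translates of each other, `x_i` a class of `E(R[N])` supported on `T_i` and killed by the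
retractions to the proper subsets of `T_i`. If the image of `∑ x_i` in `E(R[N ⋊ Γ])` comes from
`E(R[Γ])`, all `x_i` vanish. -/
theorem dsum (htf : ∀ H : Subgroup Γ, Finite H → H = ⊥) (ss : SupportSystem φ)
    {ι : Type} (I : Finset ι) (T : ι → Finset Γ) (hT : ∀ i ∈ I, (T i).Nonempty)
    (hTT : ∀ i ∈ I, ∀ j ∈ I, ∀ γ : Γ, (∀ g, g ∈ T j ↔ γ⁻¹ * g ∈ T i) → i = j)
    (x : ι → E.gobj R N) (hx : ∀ i ∈ I, E.gmap R (ss.e (T i : Set Γ)) (x i) = x i)
    (hred : ∀ i ∈ I, ∀ U : Finset Γ, U ⊂ T i → E.gmap R (ss.e (U : Set Γ)) (x i) = 0)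
    (y : E.gobj R Γ)
    (hxy : ∑ i ∈ I, E.gmap R (SemidirectProduct.inl : N →* N ⋊[φ] Γ) (x i) =
      E.gmap R (SemidirectProduct.inr : Γ →* N ⋊[φ] Γ) y) (i : ι) (hi : i ∈ I) : x i = 0 := by
  classical
  have hES : ∀ j ∈ I, ∀ S : Finset Γ, E.gmap R (ss.e (S : Set Γ)) (x j) =
      if T j ⊆ S then x j else 0 := by
    intro j hj S
    have h1 : E.gmap R (ss.e (S : Set Γ)) (x j) =
        E.gmap R (ss.e ((S ∩ T j : Finset Γ) : Set Γ)) (x j) := by
      conv_lhs => rw [← hx j hj]
      rw [← E.gmap_comp]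
      congr 2
      ext1 n
      rw [MonoidHom.comp_apply, ss.inter, Finset.coe_inter]
    rw [h1]
    split_ifs with h
    · rw [Finset.inter_eq_right.mpr h, hx j hj]
    · apply hred j hj
      refine Finset.ssubset_iff_subset_ne.mpr ⟨Finset.inter_subset_right, fun h2 => h ?_⟩
      exact Finset.inter_eq_right.mp h2
  set xs : E.gobj R N := ∑ j ∈ I, x j with hxs
  let F : Finset Γ := I.biUnion T
  have hF : E.gmap R (ss.e (F : Set Γ)) xs = xs := by
    rw [hxs, map_sum]
    apply Finset.sum_congr rfl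
    intro j hj
    rw [hES j hj, if_pos (Finset.subset_biUnion_of_mem T hj)]
  have h1 : E.gmap R (1 : N →* N) xs = 0 := by
    have e : (1 : N →* N) = ss.e ((∅ : Finset Γ) : Set Γ) := by
      ext1 n
      rw [Finset.coe_empty, ss.empty]; rfl
    rw [e, hxs, map_sum]
    apply Finset.sum_eq_zero
    intro j hj
    rw [hES j hj, if_neg]
    intro h
    exact (hT j hj).ne_empty (Finset.subset_empty.mp h)
  let Y : Finset Γ := (F ×ˢ F).image (fun p => p.1 * p.2⁻¹)
  have hYmem : ∀ (z : Γ) (s : Γ), s ∈ F → z * s ∈ F → z ∈ Y := by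
    intro z s hs hys
    simp only [Y, Finset.mem_image, Finset.mem_product, Prod.exists]
    exact ⟨z * s, s, ⟨hys, hs⟩, by group⟩
  have hTF : T i ⊆ F := Finset.subset_biUnion_of_mem T hi
  have hY : ∀ U ⊆ T i, ∀ z ∉ Y, Disjoint (z • U) F := by
    intro U hU z hz
    rw [Finset.disjoint_left]
    intro t ht htF
    obtain ⟨u, hu, rfl⟩ := Finset.mem_smul_finset.mp ht
    exact hz (hYmem z u (hTF (hU hu)) (by simpa using htF))
  have hxy' : E.gmap R (SemidirectProduct.inl : N →* N ⋊[φ] Γ) xs =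
      E.gmap R (SemidirectProduct.inr : Γ →* N ⋊[φ] Γ) y := by
    rw [hxs, map_sum]; exact hxy
  let c : Finset Γ → E.gobj R N := fun S => E.gmap R (ss.e (S : Set Γ)) xs
  have hkey : ∀ U ⊆ T i, ∑ a ∈ Y, E.gmap R (φ a⁻¹).toMonoidHom (c (a • U)) = 0 := by
    intro U hU
    have h2 := key_ss ss F xs hF y hxy' U Y (hY U hU)
    rw [h1] at h2
    simpa only [sub_zero] using h2
  have hm : ∑ a ∈ Y, E.gmap R (φ a⁻¹).toMonoidHom (moeb c (a • T i)) = 0 := by
    simp_rw [moeb_smul', map_sum, map_zsmul]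
    rw [Finset.sum_comm]
    apply Finset.sum_eq_zero
    intro U hU
    rw [← Finset.smul_sum, hkey U (Finset.mem_powerset.mp hU), smul_zero]
  have hc : ∀ S, moeb c S = ∑ j ∈ I, if S = T j then x j else 0 := by
    intro S
    have e1 : c = fun S => ∑ j ∈ I, (if T j ⊆ S then x j else 0) := by
      funext S
      change E.gmap R (ss.e (S : Set Γ)) (∑ j ∈ I, x j) = _
      rw [map_sum]
      exact Finset.sum_congr rfl fun j hj => hES j hj S
    rw [e1, moeb_sum_fun]
    apply Finset.sum_congr rfl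
    intro j _
    exact moeb_delta (T j) (x j) S
  have hterm : ∀ a : Γ, moeb c (a • T i) = if a = 1 then x i else 0 := by
    intro a
    rw [hc]
    split_ifs with ha
    · subst ha
      rw [one_smul, Finset.sum_eq_single i]
      · rw [if_pos rfl]
      · intro j hj hji
        rw [if_neg]
        intro h
        apply hji
        symm
        apply hTT i hi j hj 1
        intro g
        rw [inv_one, one_mul, h]
      · intro h; exact absurd hi h
    · apply Finset.sum_eq_zero
      intro j hj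
      rw [if_neg]
      intro h
      have hij : i = j := by
        apply hTT i hi j hj a
        intro g
        rw [← h, ← Finset.inv_smul_mem_iff]
        rfl
      subst hij
      apply ha
      have h2 := finite_stab (T i) (hT i hi)
      have h3 := htf _ h2
      have h4 : a ∈ MulAction.stabilizer Γ (T i) := h
      rw [h3, Subgroup.mem_bot] at h4
      exact h4
  have h1Y : (1 : Γ) ∈ Y := by
    obtain ⟨s, hs⟩ := hT i hi
    exact hYmem 1 s (hTF hs) (by rw [one_mul]; exact hTF hs)
  rw [Finset.sum_eq_single_of_mem 1 h1Y] at hm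
  · rw [hterm, if_pos rfl, inv_one, map_one] at hm
    have e : (1 : MulAut N).toMonoidHom = MonoidHom.id N := rfl
    rw [e, E.gmap_id] at hm
    exact hm
  · intro a _ ha
    rw [hterm, if_neg ha, map_zero]

end

/-! ### The kernel formula -/

/-- A functor from groups to abelian groups on which inner automorphisms act trivially. -/
structure GFun where
  /-- The values. -/
  obj : ∀ (G : Type) [Group G], Type w
  /-- The group structure. -/
  grp : ∀ (G : Type) [Group G], AddCommGroup (obj G)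
  /-- The induced maps. -/
  map : ∀ {G K : Type} [Group G] [Group K], (G →* K) → (obj G →+ obj K)
  map_id : ∀ (G : Type) [Group G] (x : obj G), map (MonoidHom.id G) x = x
  map_comp : ∀ {G K L : Type} [Group G] [Group K] [Group L] (g : K →* L) (f : G →* K) (x : obj G),
    map (g.comp f) x = map g (map f x)
  map_conj : ∀ {G K : Type} [Group G] [Group K] (f : G →* K) (k : K) (x : obj G),
    map ((MulAut.conj k).toMonoidHom.comp f) x = map f x

attribute [instance] GFun.grp

/-- A natural transformation from `H` to `G ↦ E(R[G])`. -/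
structure GTr (H : GFun.{w}) (E : IFunctor.{v}) (R : Type) [Ring R] [StarRing R] where
  /-- The components. -/
  app : ∀ (G : Type) [Group G], H.obj G →+ E.gobj R G
  nat : ∀ {G K : Type} [Group G] [Group K] (f : G →* K) (x : H.obj G),
    E.gmap R f (app G x) = app K (H.map f x)

section Kernel

variable {Γ N : Type} [Group Γ] [Group N] {φ : Γ →* MulAut N} {H : GFun.{w}} {E : IFunctor.{v}}
  {R : Type} [Ring R] [StarRing R]

/-- The subgroup generated by the images of the kernels of `Γ` and of the parts of `N` supported on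
finite sets. -/
noncomputable def imK (α : GTr H E R) (ss : SupportSystem φ) : AddSubgroup (H.obj (N ⋊[φ] Γ)) :=
  AddSubgroup.closure ({w | ∃ y : H.obj Γ, α.app Γ y = 0 ∧ w = H.map SemidirectProduct.inr y} ∪
    {w | ∃ (T : Finset Γ) (z : H.obj (ss.part (T : Set Γ))), α.app _ z = 0 ∧
      w = H.map (ss.partIncl (T : Set Γ)) z})

/-- **Integral kernel formula.** -/
theorem kernel (α : GTr H E R) (ss : SupportSystem φ) (F : Finset Γ) (a : H.obj N)
    (ha : H.map (ss.e (F : Set Γ)) a = a) (b : H.obj Γ)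
    (hab : α.app (N ⋊[φ] Γ) (H.map SemidirectProduct.inl a + H.map SemidirectProduct.inr b) = 0)
    (m : ℕ) (hm : ∀ K : Subgroup Γ, Finite K → Nat.card K ∣ m) :
    m • (H.map (SemidirectProduct.inl : N →* N ⋊[φ] Γ) a + H.map SemidirectProduct.inr b) ∈
      imK α ss := by
  classical
  have hmain := smul_eq_zero_of_translates (V := H.obj (N ⋊[φ] Γ) ⧸ imK α ss)
    (fun S : Finset Γ => QuotientAddGroup.mk' (imK α ss)
      (H.map (ss.incl ((S : Set Γ) ∩ (F : Set Γ))) a - H.map (1 : N →* N ⋊[φ] Γ) a))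
    F ?_ ?_ m ?_ ?_
  · have e1 : H.map (ss.incl ((F : Set Γ) ∩ (F : Set Γ))) a =
        H.map (SemidirectProduct.inl : N →* N ⋊[φ] Γ) a := by
      rw [Set.inter_self]
      unfold SupportSystem.incl
      rw [H.map_comp, ha]
    rw [e1, ← map_nsmul] at hmain
    have h1 : m • (H.map (SemidirectProduct.inl : N →* N ⋊[φ] Γ) a -
        H.map (1 : N →* N ⋊[φ] Γ) a) ∈ imK α ss := (QuotientAddGroup.eq_zero_iff _).mp hmain
    have h2 : H.map (SemidirectProduct.inr : Γ →* N ⋊[φ] Γ) (b + H.map (1 : N →* Γ) a) ∈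
        imK α ss := by
      apply AddSubgroup.subset_closure
      refine Or.inl ⟨_, ?_, rfl⟩
      have h3 := congrArg (E.gmap R (SemidirectProduct.rightHom : N ⋊[φ] Γ →* Γ)) hab
      rw [map_zero, α.nat, map_add, ← H.map_comp, ← H.map_comp,
        SemidirectProduct.rightHom_comp_inl, SemidirectProduct.rightHom_comp_inr, H.map_id] at h3
      rw [add_comm]
      exact h3
    have h4 := (imK α ss).add_mem h1 ((imK α ss).nsmul_mem h2 m)
    rw [← nsmul_add] at h4
    convert h4 using 2
    rw [map_add, ← H.map_comp]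
    have e2 : (SemidirectProduct.inr : Γ →* N ⋊[φ] Γ).comp (1 : N →* Γ) = 1 := by
      ext1 n
      rw [MonoidHom.comp_apply, MonoidHom.one_apply, map_one]
      rfl
    rw [e2]
    abel
  · intro S
    simp [Set.inter_assoc]
  · have : ss.incl (((∅ : Finset Γ) : Set Γ) ∩ (F : Set Γ)) = 1 := by
      ext1 n
      unfold SupportSystem.incl
      rw [MonoidHom.comp_apply, Finset.coe_empty, Set.empty_inter, ss.empty, map_one,
        MonoidHom.one_apply]
    rw [this, sub_self, map_zero]
  · intro S _ hne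
    exact hm _ (finite_stab S hne)
  · intro T Y hY
    have hTfin : (T : Set Γ).Finite := T.finite_toSet
    have hj : ∀ (g : N) (a : Pt φ), ss.incl (F : Set Γ) g • a = a := by
      intro g a
      exact one_mul (show Γ from a)
    have hlab : ∀ a ∉ (Y : Finset (Pt φ)), ∀ g : N,
        (ss.cocycle (T : Set Γ) hTfin).c (ss.incl (F : Set Γ) g) a = 1 := by
      intro a ha g
      apply Subtype.ext
      change ss.e T (φ ((1 : Γ) * (show Γ from a))⁻¹ (ss.e (F : Set Γ) g)) = 1
      rw [one_mul, ss.equivariant]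
      rw [ss.inter]
      have hd : (T : Set Γ) ∩ ((show Γ from a)⁻¹ • (F : Set Γ)) = ∅ := by
        rw [← Set.disjoint_iff_inter_eq_empty, Set.disjoint_left]
        intro t ht ht'
        have h2 := Finset.disjoint_left.mp (hY a ha)
          (Finset.smul_mem_smul_finset (a := (show Γ from a)) ht)
        apply h2
        rw [Set.mem_inv_smul_set_iff] at ht'
        simpa using ht'
      rw [hd, ss.empty]
    have hi : ∀ (g : Γ) (a : Pt φ), (ss.cocycle (T : Set Γ) hTfin).c
        ((SemidirectProduct.inr : Γ →* N ⋊[φ] Γ) g) a = 1 := by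
      intro g a
      apply Subtype.ext
      change ss.e T (φ (g * (show Γ from a))⁻¹ (1 : N)) = 1
      rw [map_one, map_one]
    have hxy : E.gmap R (ss.incl (F : Set Γ)) (α.app N a) =
        E.gmap R (SemidirectProduct.inr : Γ →* N ⋊[φ] Γ) (-(α.app Γ b)) := by
      rw [map_neg, α.nat, α.nat]
      unfold SupportSystem.incl
      rw [H.map_comp, ha]
      rw [map_add] at hab
      exact eq_neg_of_add_eq_zero_left hab
    have hk := key E (ss.cocycle (T : Set Γ) hTfin) (ss.incl (F : Set Γ)) hj Y hlab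
      (SemidirectProduct.inr : Γ →* N ⋊[φ] Γ) hi (α.app N a) (-(α.app Γ b)) hxy
    have hk1 : α.app (ss.part (T : Set Γ)) (∑ y ∈ (Y : Finset (Pt φ)),
        (H.map ((ss.cocycle (T : Set Γ) hTfin).label (ss.incl (F : Set Γ)) hj y) a -
          H.map (1 : N →* ss.part (T : Set Γ)) a)) = 0 := by
      rw [map_sum, ← hk]
      apply Finset.sum_congr rfl
      intro y _
      rw [map_sub, α.nat, α.nat]
    have hk2 : H.map (ss.partIncl (T : Set Γ)) (∑ y ∈ (Y : Finset (Pt φ)),
        (H.map ((ss.cocycle (T : Set Γ) hTfin).label (ss.incl (F : Set Γ)) hj y) a -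
          H.map (1 : N →* ss.part (T : Set Γ)) a)) ∈ imK α ss :=
      AddSubgroup.subset_closure (Or.inr ⟨T, _, hk1, rfl⟩)
    have hk3 := (QuotientAddGroup.eq_zero_iff _).mpr hk2
    rw [← QuotientAddGroup.mk'_apply (imK α ss), map_sum, map_sum] at hk3
    refine Eq.trans ?_ hk3
    refine Finset.sum_congr (ι := Γ) rfl ?_
    intro y _
    congr 1
    rw [map_sub (H.map (ss.partIncl (T : Set Γ))), ← H.map_comp, ← H.map_comp]
    have e1 : (ss.partIncl (T : Set Γ)).comp (1 : N →* ss.part (T : Set Γ)) = 1 := by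
      ext1 n
      rw [MonoidHom.comp_apply, MonoidHom.one_apply, map_one]
      rfl
    rw [e1]
    congr 1
    rw [← H.map_conj _ ((SemidirectProduct.inr y : N ⋊[φ] Γ)⁻¹)]
    congr 1
    congr 1
    ext1 n
    simp only [MonoidHom.comp_apply, MulEquiv.coe_toMonoidHom, MulAut.conj_apply, inv_inv]
    rw [Finset.coe_smul_finset, ss.incl_smul]
    change SemidirectProduct.inl (ss.e T (φ y⁻¹ (ss.e (F : Set Γ) n))) =
      SemidirectProduct.inl (ss.e T (φ ((1 : Γ) * y)⁻¹ (ss.e (F : Set Γ) n)))
    rw [one_mul]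

end Kernel

end Pool.Agent.Y477.IW
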