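import Pool.Agent.Y477.IW.LPres

/-!
Inner automorphisms act trivially on the L-groups of group rings.
-/

namespace Pool.Agent.Y477.IW

open Pool.Agent.Y483 CategoryTheory

theorem lgr_inner (A : Type) [Ring A] [StarRing A] (ε : ℤˣ) : InnerTrivial (lgr A ε) := by
  intro G g
  apply AddCommGrpCat.hom_ext
  ext x
  have h := (lFun ε).gmap_conj A (MonoidHom.id G) g x
  rw [(lFun ε).gmap_id] at h
  exact h

end Pool.Agent.Y477.IW
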