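import Pool.Agent.Y477.IW.UKey

/-!
Injectivity of the map from the colimit of the groups `L(H)` over the finite subgroups `H` of
`N ⋊ Γ` to `L(N ⋊ Γ)`, for semidirect products with equivariant retractions.
-/

namespace Pool.Agent.Y477.IW

open Pool.Agent.Y483 Pointwise CategoryTheory

universe w

section

variable {Γ N X : Type} [Group Γ] [Group N] [MulAction Γ X] {φ : Γ →* MulAut N}
  {L : GrpCat.{0} ⥤ AddCommGrpCat.{w}} (us : USupp φ X) {C : Set (Finset X)}
  (hfin : ∀ S ∈ C, Finite (us.part (S : Set X)))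

/-- The inclusion of `N`. -/
def iN (φ : Γ →* MulAut N) : N →* (sdp φ) := (SemidirectProduct.inl : N →* N ⋊[φ] Γ)

/-- The inclusion of `Γ`. -/
def iΓ (φ : Γ →* MulAut N) : Γ →* (sdp φ) := (SemidirectProduct.inr : Γ →* N ⋊[φ] Γ)

theorem iN_act (φ : Γ →* MulAut N) (γ : Γ) (n : N) : iN φ (φ γ n) = iΓ φ γ * iN φ n * (iΓ φ γ)⁻¹ := by
  have h : (SemidirectProduct.inl (φ γ n) : N ⋊[φ] Γ) =
      SemidirectProduct.inr γ * SemidirectProduct.inl n * (SemidirectProduct.inr γ)⁻¹ := by
    rw [SemidirectProduct.inl_aut, ← map_inv]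
  exact h

theorem iN_inj (φ : Γ →* MulAut N) : Function.Injective (iN φ) :=
  SemidirectProduct.inl_injective

/-- The finite subgroup of `N ⋊ Γ` given by the elements of `N` supported in `S`. -/
def pS {S : Finset X} (hS : S ∈ C) : FS (sdp φ) :=
  ⟨((us.e (S : Set X)).range).map (iN φ), by
    have := hfin S hS
    exact Set.Finite.to_subtype (Set.Finite.image _ (Set.toFinite _))⟩

/-- The retraction to the support `S`. -/
def rS {S : Finset X} (hS : S ∈ C) : N →* (pS us hfin hS).1 :=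
  ((iN φ).comp (us.e (S : Set X))).codRestrict _ (fun n => ⟨us.e (S : Set X) n, ⟨n, rfl⟩, rfl⟩)

/-- The map from `L(N)` to the colimit given by the retraction to the support `S`. -/
noncomputable def mkS {S : Finset X} (hS : S ∈ C) : FO L N →+ Col L (sdp φ) :=
  AddMonoidHom.mk' (fun x => Col.mk (pS us hfin hS) (fm L (rS us hfin hS) x)) (by
    intro x y
    rw [map_add]
    exact Col.mk_add (pS us hfin hS) _ _)

theorem mkS_apply {S : Finset X} (hS : S ∈ C) (x : FO L N) :
    mkS us hfin hS x = Col.mk (pS us hfin hS) (fm L (rS us hfin hS) x) := rfl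

theorem e_sub {T S : Finset X} (h : T ⊆ S) (n : N) :
    us.e (S : Set X) (us.e (T : Set X) n) = us.e (T : Set X) n := by
  rw [us.inter, Set.inter_eq_self_of_subset_right (Finset.coe_subset.mpr h)]

theorem pS_mono {T S : Finset X} (hT : T ∈ C) (hS : S ∈ C) (h : T ⊆ S) :
    (pS us hfin hT).1 ≤ (pS us hfin hS).1 := by
  rintro _ ⟨_, ⟨n, rfl⟩, rfl⟩
  exact ⟨us.e (T : Set X) n, ⟨us.e (T : Set X) n, e_sub us h n⟩, rfl⟩

theorem mkS_mono {T S : Finset X} (hT : T ∈ C) (hS : S ∈ C) (h : T ⊆ S) (x : FO L N)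
    (hx : fm L (us.e (T : Set X)) x = x) :
    mkS us hfin hS x = mkS us hfin hT x := by
  refine Eq.trans ?_ (Col.mk_incl (pS us hfin hT) (pS us hfin hS) (pS_mono us hfin hT hS h)
    (fm L (rS us hfin hT) x))
  have e1 : (rS us hfin hS).comp (us.e (T : Set X)) =
      (Subgroup.inclusion (pS_mono us hfin hT hS h)).comp (rS us hfin hT) := by
    ext1 n
    apply Subtype.ext
    change iN φ (us.e (S : Set X) (us.e (T : Set X) n)) = iN φ (us.e (T : Set X) n)
    rw [e_sub us h]
  have h1 : fm L (rS us hfin hS) x =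
      fm L (Subgroup.inclusion (pS_mono us hfin hT hS h)) (fm L (rS us hfin hT) x) := by
    rw [fm_comp, ← e1]
    conv_lhs => rw [← hx]
    rw [fm_comp]
  exact congrArg (Col.mk (F := L) (pS us hfin hS)) h1

theorem mkS_act [DecidableEq X] (γ : Γ) {S : Finset X} (hS : S ∈ C) (hS' : γ • S ∈ C)
    (x : FO L N) : mkS us hfin hS' (fm L (φ γ).toMonoidHom x) = mkS us hfin hS x := by
  have hc : ∀ a ∈ (pS us hfin hS).1, iΓ φ γ * a * (iΓ φ γ)⁻¹ ∈ (pS us hfin hS').1 := by
    rintro _ ⟨_, ⟨n, rfl⟩, rfl⟩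
    refine ⟨φ γ (us.e (S : Set X) n), ⟨φ γ n, ?_⟩, ?_⟩
    · rw [us.equivariant, Finset.coe_smul_finset]
    · exact iN_act φ γ _
  refine Eq.trans ?_ (Col.mk_conj (pS us hfin hS) (pS us hfin hS') (iΓ φ γ) hc
    (fm L (rS us hfin hS) x))
  have e1 : (rS us hfin hS').comp (φ γ).toMonoidHom =
      (conjTo (pS us hfin hS).1 (pS us hfin hS').1 (iΓ φ γ) hc).comp (rS us hfin hS) := by
    ext1 n
    apply Subtype.ext
    change iN φ (us.e ((γ • S : Finset X) : Set X) (φ γ n)) =
      iΓ φ γ * iN φ (us.e (S : Set X) n) * (iΓ φ γ)⁻¹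
    rw [← iN_act, us.equivariant, Finset.coe_smul_finset]
  have h1 : fm L (rS us hfin hS') (fm L (φ γ).toMonoidHom x) =
      fm L (conjTo (pS us hfin hS).1 (pS us hfin hS').1 (iΓ φ γ) hc)
        (fm L (rS us hfin hS) x) := by
    rw [fm_comp, fm_comp, e1]
  exact congrArg (Col.mk (F := L) (pS us hfin hS')) h1

theorem to_mkS (hL : InnerTrivial L) {S : Finset X} (hS : S ∈ C) (x : FO L N) :
    Col.to hL (sdp φ) (mkS us hfin hS x) = fm L (iN φ) (fm L (us.e (S : Set X)) x) := by
  rw [mkS_apply, Col.to_mk]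
  have h1 : fm L (iN φ) (fm L (us.e (S : Set X)) x) =
      fm L (pS us hfin hS).1.subtype (fm L (rS us hfin hS) x) := by
    rw [fm_comp, fm_comp]
    rfl
  exact h1.symm

/-- The component in `N`. -/
def leftN (φ : Γ →* MulAut N) (a : sdp φ) : N := SemidirectProduct.left (show N ⋊[φ] Γ from a)

theorem leftN_iN (φ : Γ →* MulAut N) (n : N) : leftN φ (iN φ n) = n := rfl

/-- The inclusion of the finite subgroup in `N`. -/
def backS {S : Finset X} (hS : S ∈ C) : (pS us hfin hS).1 →* N where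
  toFun a := leftN φ a.1
  map_one' := rfl
  map_mul' a b := by
    obtain ⟨_, ⟨a', ha', rfl⟩⟩ := a
    obtain ⟨_, ⟨b', hb', rfl⟩⟩ := b
    change leftN φ (iN φ a' * iN φ b') = a' * b'
    rw [← map_mul, leftN_iN]

theorem rS_backS {S : Finset X} (hS : S ∈ C) :
    (rS us hfin hS).comp (backS us hfin hS) = MonoidHom.id _ := by
  ext1 a
  obtain ⟨_, ⟨_, ⟨n, rfl⟩, rfl⟩⟩ := a
  apply Subtype.ext
  change iN φ (us.e (S : Set X) (us.e (S : Set X) n)) = iN φ (us.e (S : Set X) n)
  rw [e_sub us (Finset.Subset.refl S)]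

theorem e_backS {S : Finset X} (hS : S ∈ C) :
    (us.e (S : Set X)).comp (backS us hfin hS) = backS us hfin hS := by
  ext1 a
  obtain ⟨_, ⟨_, ⟨n, rfl⟩, rfl⟩⟩ := a
  exact e_sub us (Finset.Subset.refl S) n

theorem mk_eq_mkS {S : Finset X} (hS : S ∈ C) (w : L.obj (pS us hfin hS).grp) :
    Col.mk (pS us hfin hS) w = mkS us hfin hS (fm L (backS us hfin hS) w) := by
  rw [mkS_apply]
  have h : fm L (rS us hfin hS) (fm L (backS us hfin hS) w) = w := by
    rw [fm_comp, rS_backS, fm_id]
  rw [h]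

/-! ### The Möbius components -/

open Classical in
/-- The Möbius component of `a` for `T`. -/
noncomputable def mc (a : FO L N) (T : Finset X) : FO L N :=
  moeb (fun U : Finset X => fm L (us.e (U : Set X)) a) T

theorem fm_ee (U T : Finset X) [DecidableEq X] (a : FO L N) :
    fm L (us.e (U : Set X)) (fm L (us.e (T : Set X)) a) =
      fm L (us.e ((U ∩ T : Finset X) : Set X)) a := by
  have e : (us.e (U : Set X)).comp (us.e (T : Set X)) = us.e ((U ∩ T : Finset X) : Set X) := by
    ext1 n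
    rw [MonoidHom.comp_apply, us.inter, Finset.coe_inter]
  rw [fm_comp, e]

theorem mc_zero_of {F : Finset X} {a : FO L N} (ha : fm L (us.e (F : Set X)) a = a)
    {T : Finset X} (hT : ¬ T ⊆ F) : mc us a T = 0 := by
  classical
  refine moeb_eq_zero (F := F) ?_ hT
  intro U
  conv_lhs => rw [← ha, fm_ee]

theorem mc_fix (a : FO L N) (T : Finset X) : fm L (us.e (T : Set X)) (mc us a T) = mc us a T := by
  classical
  unfold mc
  rw [← moeb_map (fm L (us.e (T : Set X)))]
  unfold moeb
  apply Finset.sum_congr rfl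
  intro U hU
  congr 1
  change fm L (us.e (T : Set X)) (fm L (us.e (U : Set X)) a) = fm L (us.e (U : Set X)) a
  rw [fm_ee, Finset.inter_eq_right.mpr (Finset.mem_powerset.mp hU)]

theorem mc_sum {F : Finset X} {a : FO L N} (ha : fm L (us.e (F : Set X)) a = a) :
    ∑ T ∈ F.powerset, mc us a T = a := by
  classical
  have h := moeb_sum (fun U : Finset X => fm L (us.e (U : Set X)) a) F
  exact h.trans ha

theorem mc_add (a b : FO L N) (T : Finset X) : mc us (a + b) T = mc us a T + mc us b T := by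
  classical
  unfold mc
  rw [← moeb_add]
  congr 1
  funext U
  rw [map_add]

open Classical in
/-- The component in the colimit. -/
noncomputable def kk (a : FO L N) (T : Finset X) : Col L (sdp φ) :=
  if h : T ∈ C then mkS us hfin h (mc us a T) else 0

theorem kk_mem {T : Finset X} (h : T ∈ C) (a : FO L N) :
    kk us hfin a T = mkS us hfin h (mc us a T) := by
  unfold kk
  rw [dif_pos h]

theorem kk_notMem {T : Finset X} (h : T ∉ C) (a : FO L N) : kk us hfin a T = 0 := by
  unfold kk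
  rw [dif_neg h]

theorem kk_zero_of {F : Finset X} {a : FO L N} (ha : fm L (us.e (F : Set X)) a = a)
    {T : Finset X} (hT : ¬ T ⊆ F) : kk us hfin a T = 0 := by
  by_cases h : T ∈ C
  · rw [kk_mem us hfin h, mc_zero_of us ha hT, map_zero]
  · exact kk_notMem us hfin h a

theorem kk_add (a b : FO L N) (T : Finset X) :
    kk us hfin (a + b) T = kk us hfin a T + kk us hfin b T := by
  by_cases h : T ∈ C
  · rw [kk_mem us hfin h, kk_mem us hfin h, kk_mem us hfin h, mc_add, map_add]
  · rw [kk_notMem us hfin h, kk_notMem us hfin h, kk_notMem us hfin h, add_zero]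

theorem kk_sum_mono {F F' : Finset X} (hF : F ⊆ F') {a : FO L N}
    (ha : fm L (us.e (F : Set X)) a = a) :
    ∑ T ∈ F'.powerset, kk us hfin a T = ∑ T ∈ F.powerset, kk us hfin a T := by
  symm
  apply Finset.sum_subset (Finset.powerset_mono.mpr hF)
  intro T _ hT
  rw [Finset.mem_powerset] at hT
  exact kk_zero_of us hfin ha hT

theorem fm_mono {F F' : Finset X} (hF : F ⊆ F') {a : FO L N}
    (ha : fm L (us.e (F : Set X)) a = a) : fm L (us.e (F' : Set X)) a = a := by
  classical
  conv_lhs => rw [← ha]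
  rw [fm_ee, Finset.inter_eq_right.mpr hF, ha]

end

end Pool.Agent.Y477.IW
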