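import Pool.Agent.Y477.IW.UCol

/-!
Injectivity of the map from the colimit of the groups `L(H)` over the finite subgroups `H` of
`N ⋊ Γ` to `L(N ⋊ Γ)`: the theorem.
-/

namespace Pool.Agent.Y477.IW

open Pool.Agent.Y483 Pointwise CategoryTheory

universe w

variable {Γ N X : Type} [Group Γ] [Group N] [MulAction Γ X] {φ : Γ →* MulAut N}
  {L : GrpCat.{0} ⥤ AddCommGrpCat.{w}} (us : USupp φ X) {C : Set (Finset X)}
  (hfin : ∀ S ∈ C, Finite (us.part (S : Set X)))

/-- The elements of the colimit given by finitely many of the finite subgroups `N_S`, `S ∈ C`. -/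
def Shape (hL : InnerTrivial L) (z : Col L (sdp φ)) : Prop :=
  ∃ (a : FO L N) (F : Finset X), fm L (us.e (F : Set X)) a = a ∧ (∀ S ∉ C, mc us a S = 0) ∧
    z = ∑ T ∈ F.powerset, kk us hfin a T ∧ Col.to hL (sdp φ) z = fm L (iN φ) a

theorem shape_single (hL : InnerTrivial L) (hC : ∀ S ∈ C, ∀ T ⊆ S, T ∈ C) {S : Finset X}
    (hS : S ∈ C) (w : L.obj (pS us hfin hS).grp) :
    Shape us hfin hL (Col.mk (pS us hfin hS) w) := by
  classical
  have ha : fm L (us.e (S : Set X)) (fm L (backS us hfin hS) w) = fm L (backS us hfin hS) w := by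
    rw [fm_comp, e_backS]
  refine ⟨fm L (backS us hfin hS) w, S, ha, ?_, ?_, ?_⟩
  · intro U hU
    exact mc_zero_of us ha (fun h => hU (hC S hS U h))
  · rw [mk_eq_mkS]
    conv_lhs => rw [← mc_sum us ha]
    rw [map_sum]
    apply Finset.sum_congr rfl
    intro T hT
    rw [Finset.mem_powerset] at hT
    rw [kk_mem us hfin (hC S hS T hT)]
    exact mkS_mono us hfin (hC S hS T hT) hS hT _ (mc_fix us _ T)
  · rw [mk_eq_mkS, to_mkS, ha]

theorem shape_add (hL : InnerTrivial L) (z z' : Col L (sdp φ)) (h : Shape us hfin hL z)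
    (h' : Shape us hfin hL z') : Shape us hfin hL (z + z') := by
  classical
  obtain ⟨a, F, h1, h2, h3, h4⟩ := h
  obtain ⟨a', F', h1', h2', h3', h4'⟩ := h'
  refine ⟨a + a', F ∪ F', ?_, ?_, ?_, ?_⟩
  · rw [map_add, fm_mono us Finset.subset_union_left h1, fm_mono us Finset.subset_union_right h1']
  · intro S hS
    rw [mc_add, h2 S hS, h2' S hS, add_zero]
  · rw [h3, h3', ← kk_sum_mono us hfin (Finset.subset_union_left (s₂ := F')) h1,
      ← kk_sum_mono us hfin (Finset.subset_union_right (s₁ := F)) h1', ← Finset.sum_add_distrib]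
    apply Finset.sum_congr rfl
    intro T _
    rw [kk_add]
  · rw [map_add, map_add, h4, h4']

theorem shape_all (hL : InnerTrivial L) (hC : ∀ S ∈ C, ∀ T ⊆ S, T ∈ C)
    (hconj : ∀ H : Subgroup (sdp φ), Finite H → ∃ S ∈ C, ∃ g : sdp φ, ∀ a ∈ H,
      g * a * g⁻¹ ∈ ((us.e (S : Set X)).range).map (iN φ)) (z : Col L (sdp φ)) :
    Shape us hfin hL z := by
  refine Col.ind (fun z => Shape us hfin hL z) ?_ (fun z z' h h' => shape_add us hfin hL z z' h h') z
  intro H x
  obtain ⟨S, hS, g, hg⟩ := hconj H.1 H.2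
  rw [← Col.mk_conj H (pS us hfin hS) g hg x]
  exact shape_single us hfin hL hC hS _

theorem col_main (hL : InnerTrivial L) (hkey : KeyProp L us)
    (hst : ∀ v : X, Finite (MulAction.stabilizer Γ v))
    (hC : ∀ S ∈ C, ∀ T ⊆ S, T ∈ C) (hne : (∅ : Finset X) ∈ C)
    (hinv : ∀ S ∈ C, ∀ γ : Γ, ∀ T : Finset X, (∀ v, v ∈ T ↔ γ⁻¹ • v ∈ S) → T ∈ C)
    (z : Col L (sdp φ)) (hz : Shape us hfin hL z) (y : FO L Γ)
    (hy : Col.to hL (sdp φ) z = fm L (iΓ φ) y) (m : ℕ)
    (hm : ∀ K : Subgroup Γ, Finite K → Nat.card K ∣ m) :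
    m • (z - Col.triv L (sdp φ) (GrpCat.of Γ) y) = 0 ∧ y = fm L (1 : Γ →* Γ) y := by
  classical
  obtain ⟨a, F, h1, h2, h3, h4⟩ := hz
  have hay : fm L (iN φ) a = fm L (iΓ φ) y := by rw [← h4, hy]
  have hq : ∀ {K : Type} [Group K] (q : sdp φ →* K),
      fm L (q.comp (iN φ)) a = fm L (q.comp (iΓ φ)) y := by
    intro K _ q
    have h := congrArg (fm L q) hay
    rw [fm_comp, fm_comp] at h
    exact h
  have hsm : ∀ (S : Finset X) (γ : Γ), γ • S ∈ C ↔ S ∈ C := by
    intro S γ
    constructor
    · intro h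
      refine hinv _ h γ⁻¹ S (fun v => ?_)
      rw [inv_inv]
      exact (Finset.smul_mem_smul_finset_iff γ).symm
    · intro h
      refine hinv _ h γ (γ • S) (fun v => ?_)
      rw [← Finset.inv_smul_mem_iff]
  let g : Finset X → Col L (sdp φ) := fun S => ∑ T ∈ S.powerset, kk us hfin a T - kk us hfin a ∅
  have hmoeb : ∀ S : Finset X, S.Nonempty → moeb g S = kk us hfin a S := by
    intro S hS
    have e1 : moeb g S = moeb (fun S : Finset X => ∑ T ∈ S.powerset, kk us hfin a T) S :=
      moeb_sub_const _ _ S hS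
    rw [e1]
    exact moeb_unique (fun S => kk us hfin a S) _ (fun _ => rfl) S
  have hmain := smul_eq_zero_of_moeb hst g F ?_ ?_ m ?_ ?_
  · constructor
    · have e1 : g F = z - Col.triv L (sdp φ) (GrpCat.of Γ) y := by
        change ∑ T ∈ F.powerset, kk us hfin a T - kk us hfin a ∅ = _
        rw [← h3]
        congr 1
        rw [kk_mem us hfin hne]
        have e2 : mc us a ∅ = fm L (1 : N →* N) a := by
          unfold mc
          rw [moeb_empty]
          have e0 : us.e ((∅ : Finset X) : Set X) = 1 := by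
            ext1 n
            rw [Finset.coe_empty, us.empty]
            rfl
          rw [e0]
        have e3 : fm L (1 : N →* N) a = fm L (1 : Γ →* N) y := hq (1 : sdp φ →* N)
        rw [e2, e3, mkS_apply]
        refine Eq.trans ?_ (Col.mk_incl ⟨⊥, inferInstance⟩ (pS us hfin hne) bot_le
          (fm L (1 : Γ →* (⊥ : Subgroup (sdp φ))) y))
        have e4 : (rS us hfin hne).comp (1 : Γ →* N) =
            (Subgroup.inclusion (bot_le : ⊥ ≤ (pS us hfin hne).1)).comp
              (1 : Γ →* (⊥ : Subgroup (sdp φ))) := by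
          ext1 b
          rw [MonoidHom.comp_apply, MonoidHom.comp_apply, MonoidHom.one_apply,
            MonoidHom.one_apply, map_one, map_one]
        have h6 : fm L (rS us hfin hne) (fm L (1 : Γ →* N) y) =
            fm L (Subgroup.inclusion (bot_le : ⊥ ≤ (pS us hfin hne).1))
              (fm L (1 : Γ →* (⊥ : Subgroup (sdp φ))) y) := by
          rw [fm_comp, fm_comp, e4]
        exact congrArg (Col.mk (F := L) (pS us hfin hne)) h6
      rw [← e1]
      exact hmain
    · have h6 := hq (SemidirectProduct.rightHom : N ⋊[φ] Γ →* Γ)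
      have h7 := hq (1 : sdp φ →* Γ)
      have e1 : (SemidirectProduct.rightHom : N ⋊[φ] Γ →* Γ).comp (iΓ φ) = MonoidHom.id Γ :=
        SemidirectProduct.rightHom_comp_inr
      have e2 : (SemidirectProduct.rightHom : N ⋊[φ] Γ →* Γ).comp (iN φ) = 1 :=
        SemidirectProduct.rightHom_comp_inl
      have h8 : fm L (1 : N →* Γ) a = y := by
        have h9 : fm L ((SemidirectProduct.rightHom : N ⋊[φ] Γ →* Γ).comp (iΓ φ)) y = y := by
          rw [e1, fm_id]
        rw [← h9, ← e2]
        exact h6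
      exact h8.symm.trans h7
  · intro S
    change ∑ T ∈ S.powerset, kk us hfin a T - kk us hfin a ∅ =
      ∑ T ∈ (S ∩ F).powerset, kk us hfin a T - kk us hfin a ∅
    congr 1
    symm
    apply Finset.sum_subset (Finset.powerset_mono.mpr Finset.inter_subset_left)
    intro T hT hT'
    rw [Finset.mem_powerset] at hT hT'
    apply kk_zero_of us hfin h1
    exact fun h => hT' (Finset.subset_inter hT h)
  · change ∑ T ∈ (∅ : Finset X).powerset, kk us hfin a T - kk us hfin a ∅ = 0
    rw [Finset.powerset_empty, Finset.sum_singleton, sub_self]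
  · intro S _ hS
    exact hm _ (finite_stabV hst S hS)
  · intro S _ hS Y hY
    by_cases hSC : S ∈ C
    · have h5 : ∀ b : Γ, kk us hfin a (b • S) =
          mkS us hfin hSC (fm L (φ b⁻¹).toMonoidHom (mc us a (b • S))) := by
        intro b
        have hbS : b • S ∈ C := (hsm S b).mpr hSC
        rw [kk_mem us hfin hbS, ← mkS_act us hfin b hSC hbS, fm_comp]
        have e : (φ b).toMonoidHom.comp (φ b⁻¹).toMonoidHom = MonoidHom.id N := by
          ext1 n
          change (φ b * φ b⁻¹) n = n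
          rw [← map_mul, mul_inv_cancel, map_one]
          rfl
        rw [e, fm_id]
      have h6 := hkey F a h1 y hay S hS Y hY
      have h7 := congrArg (mkS us hfin hSC) h6
      rw [map_zero, map_sum] at h7
      rw [← h7]
      apply Finset.sum_congr rfl
      intro b _
      rw [hmoeb _ hS.smul_finset, h5]
      rfl
    · apply Finset.sum_eq_zero
      intro b _
      rw [hmoeb _ hS.smul_finset, kk_notMem us hfin (fun h => hSC ((hsm S b).mp h))]

end Pool.Agent.Y477.IW
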