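import Pool.Agent.Y477.IW.UFinDef
import Pool.Agent.Y477.IW.UColInj
import Pool.Agent.Y477.IW.LInner

/-!
The colimit over the finite subgroups of `N ⋊ Γ`, for semidirect products with equivariant
retractions: the theorems.
-/

namespace Pool.Agent.Y477.IW

open Pool.Agent.Y483 CategoryTheory Pointwise

universe w

variable {Γ N X : Type} [Group Γ] [Group N] [MulAction Γ X] {φ : Γ →* MulAut N}
  {L : GrpCat.{0} ⥤ AddCommGrpCat.{w}} (us : USupp φ X) {C : Set (Finset X)}

theorem range_eq (S : Finset X) : (show Subgroup (sdp φ) from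
    (us.partIncl (S : Set X)).range) = ((us.e (S : Set X)).range).map (iN φ) := by
  apply le_antisymm
  · rintro _ ⟨⟨n, hn⟩, rfl⟩
    exact ⟨n, hn, rfl⟩
  · rintro _ ⟨n, hn, rfl⟩
    exact ⟨⟨n, hn⟩, rfl⟩

theorem shape_neg (hL : InnerTrivial L) (hfin : ∀ S ∈ C, Finite (us.part (S : Set X)))
    (z : Col L (sdp φ)) (h : Shape us hfin hL z) : Shape us hfin hL (-z) := by
  classical
  obtain ⟨a, F, h1, h2, h3, h4⟩ := h
  have hmc : ∀ T, mc us (-a) T = -(mc us a T) := by
    intro T
    have h5 := mc_add us a (-a) T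
    have h6 : mc us (0 : FO L N) T = 0 := by
      have h7 := mc_add us (0 : FO L N) 0 T
      rw [add_zero] at h7
      exact left_eq_add.mp h7
    rw [add_neg_cancel, h6] at h5
    exact (neg_eq_of_add_eq_zero_right h5.symm).symm
  refine ⟨-a, F, by rw [map_neg, h1], ?_, ?_, ?_⟩
  · intro S hS
    rw [hmc, h2 S hS, neg_zero]
  · rw [h3, ← Finset.sum_neg_distrib]
    apply Finset.sum_congr rfl
    intro T _
    by_cases hT : T ∈ C
    · rw [kk_mem us hfin hT, kk_mem us hfin hT, hmc, map_neg]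
    · rw [kk_notMem us hfin hT, kk_notMem us hfin hT, neg_zero]
  · rw [map_neg, map_neg, h4]

theorem shape_zero (hL : InnerTrivial L) (hfin : ∀ S ∈ C, Finite (us.part (S : Set X)))
    (hC : ∀ S ∈ C, ∀ T ⊆ S, T ∈ C) (hne : (∅ : Finset X) ∈ C) :
    Shape us hfin hL (0 : Col L (sdp φ)) := by
  have h := shape_single us hfin hL hC hne 0
  have h0 : Col.mk (pS us hfin hne) (0 : L.obj (pS us hfin hne).grp) = 0 := Col.mk_zero _
  rwa [h0] at h

theorem shape_part (hL : InnerTrivial L) (hfin : ∀ S ∈ C, Finite (us.part (S : Set X)))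
    (hC : ∀ S ∈ C, ∀ T ⊆ S, T ∈ C) (hne : (∅ : Finset X) ∈ C) (z : Col L (sdp φ))
    (hz : z ∈ colPart L us C) : Shape us hfin hL z := by
  unfold colPart at hz
  induction hz using AddSubgroup.closure_induction with
  | mem w hw =>
    obtain ⟨H, ⟨S, hS, hle⟩, x, rfl⟩ := hw
    have hle2 : H.1 ≤ (pS us hfin hS).1 := by
      intro a ha
      have h1 : a ∈ (show Subgroup (sdp φ) from (us.partIncl (S : Set X)).range) := hle ha
      rw [range_eq us S] at h1
      exact h1
    rw [← Col.mk_incl H (pS us hfin hS) hle2 x]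
    exact shape_single us hfin hL hC hS _
  | zero => exact shape_zero us hL hfin hC hne
  | add u v _ _ hu hv => exact shape_add us hfin hL u v hu hv
  | neg u _ hu => exact shape_neg us hL hfin u hu

theorem partEmbeds_of (hL : InnerTrivial L) (hkey : KeyProp L us)
    (hst : ∀ v : X, Finite (MulAction.stabilizer Γ v)) (hF : IsFamily Γ C)
    (hfin : ∀ S ∈ C, Finite (us.part (S : Set X))) (m : ℕ)
    (hm : ∀ K : Subgroup Γ, Finite K → Nat.card K ∣ m) : PartEmbeds hL us C m := by
  intro z hz y hy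
  by_cases hne : (∅ : Finset X) ∈ C
  · exact col_main us hfin hL hkey hst hF.1 hne hF.2 z (shape_part us hL hfin hF.1 hne z hz) y hy
      m hm
  · -- `C` is empty
    have hCe : ∀ S, S ∉ C := fun S hS => hne (hF.1 S hS ∅ (Finset.empty_subset S))
    have hz0 : z = 0 := by
      have h1 : colPart L us C ≤ ⊥ := by
        unfold colPart
        rw [AddSubgroup.closure_le]
        rintro w ⟨H, ⟨S, hS, -⟩, -⟩
        exact absurd hS (hCe S)
      exact (AddSubgroup.mem_bot).mp (h1 hz)
    subst hz0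
    rw [map_zero] at hy
    have hq : ∀ {K : Type} [Group K] (q : sdp φ →* K), fm L (q.comp (iΓ φ)) y = 0 := by
      intro K _ q
      have h := congrArg (fm L q) hy
      rw [map_zero] at h
      have h2 : fm L q (fm L (iΓ φ) y) = 0 := h.symm
      rw [fm_comp] at h2
      exact h2
    have h1 : fm L (1 : Γ →* (⊥ : Subgroup (sdp φ))) y = 0 := hq (1 : sdp φ →* _)
    have h2 : fm L (1 : Γ →* Γ) y = 0 := hq (1 : sdp φ →* Γ)
    have h3 : y = 0 := by
      have e1 : (SemidirectProduct.rightHom : N ⋊[φ] Γ →* Γ).comp (iΓ φ) = MonoidHom.id Γ :=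
        SemidirectProduct.rightHom_comp_inr
      have h4 : fm L ((SemidirectProduct.rightHom : N ⋊[φ] Γ →* Γ).comp (iΓ φ)) y = 0 :=
        hq (SemidirectProduct.rightHom : N ⋊[φ] Γ →* Γ)
      rw [e1, fm_id] at h4
      exact h4
    refine ⟨?_, ?_⟩
    · have h5 : Col.triv L (sdp φ) (GrpCat.of Γ) y = 0 := by
        refine (congrArg (Col.mk (F := L) (G := sdp φ) ⟨⊥, inferInstance⟩) h1).trans ?_
        exact Col.mk_zero (F := L) (G := sdp φ) ⟨⊥, inferInstance⟩
      rw [h5, sub_zero, smul_zero]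
    · exact h3.trans h2.symm

theorem colimitEmbeds_of (hL : InnerTrivial L) (hkey : KeyProp L us)
    (hst : ∀ v : X, Finite (MulAction.stabilizer Γ v)) (hF : IsFamily Γ C)
    (hfin : ∀ S ∈ C, Finite (us.part (S : Set X))) : ColimitEmbeds hL us C := by
  classical
  refine ⟨fun m hm => partEmbeds_of us hL hkey hst hF hfin m hm, fun hconj => ?_⟩
  have hne : (∅ : Finset X) ∈ C := by
    obtain ⟨S, hS, -⟩ := hconj ⊥ inferInstance
    exact hF.1 S hS ∅ (Finset.empty_subset S)
  have htf : ∀ K : Subgroup Γ, Finite K → Nat.card K ∣ 1 := by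
    intro K hK
    have hfinK : Finite (K.map (SemidirectProduct.inr : Γ →* N ⋊[φ] Γ)) :=
      Set.Finite.to_subtype (Set.Finite.image _ (Set.toFinite _))
    obtain ⟨S, -, g, hg⟩ := hconj _ hfinK
    have hbot : K = ⊥ := by
      rw [eq_bot_iff]
      intro k hk
      rw [Subgroup.mem_bot]
      obtain ⟨⟨n, hn⟩, h1⟩ := hg (SemidirectProduct.inr k) ⟨k, hk, rfl⟩
      have h2 := congrArg (SemidirectProduct.rightHom : N ⋊[φ] Γ →* Γ) h1
      have h3 : (SemidirectProduct.rightHom : N ⋊[φ] Γ →* Γ)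
          (us.partIncl (S : Set X) ⟨n, hn⟩) = 1 := rfl
      rw [h3, map_mul, map_mul, map_inv, SemidirectProduct.rightHom_inr] at h2
      have h4 : k = ((SemidirectProduct.rightHom : N ⋊[φ] Γ →* Γ) g)⁻¹ * (1 : Γ) *
          (SemidirectProduct.rightHom : N ⋊[φ] Γ →* Γ) g := by
        rw [h2]
        group
      rw [h4]
      group
    rw [hbot, Subgroup.card_bot]
  have hall : ∀ z : Col L (sdp φ), Shape us hfin hL z := by
    apply shape_all us hfin hL hF.1
    intro H hH
    obtain ⟨S, hS, g, hg⟩ := hconj H hH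
    exact ⟨S, hS, (show sdp φ from g), fun a ha => (range_eq us S).le (hg a ha)⟩
  have hmain : ∀ (z : Col L (sdp φ)) (y : FO L Γ), Col.to hL (sdp φ) z = fm L (iΓ φ) y →
      z = Col.triv L (sdp φ) (GrpCat.of Γ) y ∧ y = fm L (1 : Γ →* Γ) y := by
    intro z y hy
    obtain ⟨h1, h2⟩ := col_main us hfin hL hkey hst hF.1 hne hF.2 z (hall z) y hy 1 htf
    rw [one_nsmul, sub_eq_zero] at h1
    exact ⟨h1, h2⟩
  refine ⟨?_, hmain⟩
  rw [injective_iff_map_eq_zero]
  intro z hz
  have h := (hmain z 0 (by rw [hz, map_zero])).1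
  rw [h]
  unfold Col.triv
  rw [map_zero]
  exact Col.mk_zero (F := L) (G := sdp φ) ⟨⊥, inferInstance⟩

/-! ### L-groups and K-groups -/

theorem col_l (A : Type) [Ring A] [StarRing A] (ε : ℤˣ)
    (hst : ∀ v : X, Finite (MulAction.stabilizer Γ v)) (hF : IsFamily Γ C)
    (hfin : ∀ S ∈ C, Finite (us.part (S : Set X))) : ColimitEmbeds (lgr_inner A ε) us C :=
  colimitEmbeds_of us (lgr_inner A ε) (keyProp_l ε A us hst) hst hF hfin

theorem col_k (R : Type) [Ring R] (hst : ∀ v : X, Finite (MulAction.stabilizer Γ v))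
    (hF : IsFamily Γ C) (hfin : ∀ S ∈ C, Finite (us.part (S : Set X))) :
    ColimitEmbeds (kgr_inner R) us C :=
  colimitEmbeds_of us (kgr_inner R) (keyProp_k R us hst) hst hF hfin

end Pool.Agent.Y477.IW
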