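import Pool.Agent.Y477.IW.USCat
import Pool.Agent.Y477.IW.ColF

/-!
The colimit over the finite subgroups of `N ⋊ Γ`, for semidirect products with equivariant
retractions: the statements.
-/

namespace Pool.Agent.Y477.IW

open CategoryTheory Pointwise

universe w

variable {Γ N X : Type} [Group Γ] [Group N] [MulAction Γ X] {φ : Γ →* MulAut N}

/-- The subgroup of the colimit over the finite subgroups of `N ⋊ Γ` generated by the classes of the
elements of `L(H)`, `H` contained in the part of `N` supported on a member of `C`. -/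
def colPart (L : GrpCat.{0} ⥤ AddCommGrpCat.{w}) (us : USupp φ X) (C : Set (Finset X)) :
    AddSubgroup (Col L (sdp φ)) :=
  AddSubgroup.closure {z | ∃ H : FS (sdp φ),
    (∃ S ∈ C, H.1 ≤ (us.partIncl (S : Set X)).range) ∧ ∃ x : L.obj H.grp, z = Col.mk H x}

/-- If the image in `L(N ⋊ Γ)` of an element `z` of this subgroup is the image of `y ∈ L(Γ)`, then
`m z` is `m` times the class of the image of `y` in `L(1)`, and `y` comes from `L(1)`. -/
def PartEmbeds {L : GrpCat.{0} ⥤ AddCommGrpCat.{w}} (hL : InnerTrivial L) (us : USupp φ X)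
    (C : Set (Finset X)) (m : ℕ) : Prop :=
  ∀ z ∈ colPart L us C, ∀ y : L.obj (GrpCat.of Γ),
    Col.to hL (sdp φ) z = (L.map (inΓ φ)).hom y →
    m • (z - Col.triv L (sdp φ) (GrpCat.of Γ) y) = 0 ∧
      y = (L.map (GrpCat.ofHom (1 : Γ →* Γ))).hom y

/-- Every finite subgroup of `N ⋊ Γ` is conjugate to a subgroup of the part of `N` supported on a
member of `C`. -/
def FiniteConjInto (us : USupp φ X) (C : Set (Finset X)) : Prop :=
  ∀ H : Subgroup (N ⋊[φ] Γ), Finite H → ∃ S ∈ C, ∃ g : N ⋊[φ] Γ, ∀ a ∈ H,
    g * a * g⁻¹ ∈ (us.partIncl (S : Set X)).range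

/-- The theorem for the functor `L`: the statement for the part of the colimit given by `C`; and if
every finite subgroup is conjugate into this part and `m = 1` is allowed, the map from the colimit
to `L(N ⋊ Γ)` is injective, and its image meets that of `L(Γ)` in that of `L(1)` only. -/
def ColimitEmbeds {L : GrpCat.{0} ⥤ AddCommGrpCat.{w}} (hL : InnerTrivial L) (us : USupp φ X)
    (C : Set (Finset X)) : Prop :=
  (∀ m : ℕ, (∀ K : Subgroup Γ, Finite K → Nat.card K ∣ m) → PartEmbeds hL us C m) ∧
    (FiniteConjInto us C → Function.Injective (Col.to hL (sdp φ)) ∧ MeetsTrivially hL (inΓ φ))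

end Pool.Agent.Y477.IW
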