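import Pool.Agent.Y477.IW.USThm
import Pool.Agent.Y477.IW.KFin

/-!
The theorems on semidirect products with equivariant retractions for the functor `K₁(R[-])`, `R` an
arbitrary ring, and the key identity for functors on the category of groups.
-/

namespace Pool.Agent.Y477.IW

open Pool.Agent.Y483 CategoryTheory Pointwise

universe v w

section Transfer

variable {Γ N X : Type} [Group Γ] [Group N] [MulAction Γ X] {φ : Γ →* MulAut N}
  {L L' : GrpCat.{0} ⥤ AddCommGrpCat.{w}} (j : L ⟶ L') (p : L' ⟶ L)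

theorem nat_app {G K : GrpCat.{0}} (f : G ⟶ K) (x : L.obj G) :
    (j.app K).hom ((L.map f).hom x) = (L'.map f).hom ((j.app G).hom x) := by
  have h := j.naturality f
  exact congrArg (fun g => g.hom x) h

variable (hjp : ∀ (G : GrpCat.{0}) (x : L.obj G), (p.app G).hom ((j.app G).hom x) = x)

include hjp

theorem coinv_transfer (m : ℕ) (h : CoinvariantsEmbed L' φ m) : CoinvariantsEmbed L φ m := by
  intro x y hxy
  have h1 := h ((j.app _).hom x) ((j.app _).hom y) (by
    rw [← nat_app, ← nat_app, hxy])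
  have hle : (AddSubgroup.closure {w | ∃ (γ : Γ) (z : L'.obj (GrpCat.of N)),
      w = (L'.map (act φ γ)).hom z - z}) ≤
      (AddSubgroup.closure {w | ∃ (γ : Γ) (z : L.obj (GrpCat.of N)),
        w = (L.map (act φ γ)).hom z - z}).comap (p.app (GrpCat.of N)).hom := by
    rw [AddSubgroup.closure_le]
    rintro w ⟨γ, z, rfl⟩
    rw [SetLike.mem_coe, AddSubgroup.mem_comap, map_sub, nat_app]
    exact AddSubgroup.subset_closure ⟨γ, _, rfl⟩
  have h2 := hle h1
  rw [AddSubgroup.mem_comap, map_nsmul, map_sub, nat_app, hjp] at h2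
  exact h2

theorem orbits_transfer (us : USupp φ X) (h : OrbitsIndependent L' us) :
    OrbitsIndependent L us := by
  intro k T hne hor x hx hred y hxy i
  have h1 := h k T hne hor (fun i => (j.app _).hom (x i))
    (fun i => by rw [← nat_app, hx i])
    (fun i U hU => by rw [← nat_app, hred i U hU, map_zero]) ((j.app _).hom y)
    (by
      rw [← nat_app, ← hxy, nat_app]
      congr 1
      exact (map_sum (j.app (GrpCat.of N)).hom x Finset.univ).symm) i
  rw [← hjp _ (x i), h1, map_zero]

theorem kernel_transfer (us : USupp φ X) (m : ℕ) (h : KernelFormulaOver L' us m) :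
    KernelFormulaOver L us m := by
  intro C hC H hH α x hx hα
  have hinj : ∀ (G : GrpCat.{0}) (z : L.obj G), (j.app G).hom z = 0 → z = 0 := by
    intro G z hz
    rw [← hjp _ z, hz, map_zero]
  have happ : ∀ (G : GrpCat.{0}) (z : H.obj G), ((α ≫ j).app G).hom z =
      (j.app G).hom ((α.app G).hom z) := fun G z => rfl
  have h1 := h C hC H hH (α ≫ j) x hx (by rw [happ, hα, map_zero])
  have hle : ∀ {K G : GrpCat.{0}} (f : K ⟶ G), imKer (α ≫ j) f ≤ imKer α f := by
    rintro K G f _ ⟨z, hz, rfl⟩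
    exact ⟨z, hinj _ _ hz, rfl⟩
  have hle2 : kerOver (α ≫ j) us C ≤ kerOver α us C :=
    sup_le_sup (hle _) (iSup₂_mono fun S _ => hle _)
  exact hle2 h1

end Transfer

section KOne

variable {R : Type} [Ring R]

/-- The projection of `K₁((R × Rᵒᵖ)[G])` to `K₁(R[G])`. -/
noncomputable def undbl (R : Type) [Ring R] : eg kFun (Sw R) ⟶ kgr R where
  app G := AddCommGrpCat.ofHom (km (swP R) (MonoidHom.id G))
  naturality G K f := by
    apply AddCommGrpCat.hom_ext
    ext x
    change km (swP R) (MonoidHom.id K) (kFun.gmap (Sw R) f.hom x) =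
      km (NonUnitalRingHom.id R) f.hom (km (swP R) (MonoidHom.id G) x)
    rw [km_gmap, km_comp, km_comp]
    rfl

theorem undbl_dbl (G : GrpCat.{0}) (x : (kgr R).obj G) :
    ((undbl R).app G).hom (((dbl R).app G).hom x) = x := by
  change km (swP R) (MonoidHom.id G) (km (swI R) (MonoidHom.id G) x) = x
  rw [km_comp, swP_swI]
  exact km_id x

variable {Γ N X : Type} [Group Γ] [Group N] [MulAction Γ X] {φ : Γ →* MulAut N}
  (us : USupp φ X)

theorem us_k (hst : ∀ v : X, Finite (MulAction.stabilizer Γ v)) (m : ℕ)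
    (hm : ∀ K : Subgroup Γ, Finite K → Nat.card K ∣ m) :
    CoinvariantsEmbed (kgr R) φ m ∧
    ((∀ g : Γ, g ≠ 1 → ¬ IsOfFinOrder g) → OrbitsIndependent (kgr R) us) ∧
    KernelFormulaOver (kgr R) us m :=
  ⟨coinv_transfer (dbl R) (undbl R) undbl_dbl m
      (coinvariantsEmbed_of (E := kFun) us (kFun_cont (Sw R)) hst m hm),
    fun htf => orbits_transfer (dbl R) (undbl R) undbl_dbl us
      (orbitsIndependent_of (E := kFun) us hst (finite_eq_bot htf)),
    kernel_transfer (dbl R) (undbl R) undbl_dbl us m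
      (kernelFormulaOver_of (E := kFun) us hst m hm)⟩

end KOne

/-! ### The key identity -/

section Key

variable {Γ N X : Type} [Group Γ] [Group N] [MulAction Γ X] {φ : Γ →* MulAut N}

open Classical in
/-- The key identity for a functor on the category of groups. -/
def KeyProp (L : GrpCat.{0} ⥤ AddCommGrpCat.{w}) (us : USupp φ X) : Prop :=
  ∀ (F : Finset X) (x : FO L N), fm L (us.e (F : Set X)) x = x → ∀ y : FO L Γ,
    fm L (SemidirectProduct.inl : N →* N ⋊[φ] Γ) x =
      fm L (SemidirectProduct.inr : Γ →* N ⋊[φ] Γ) y →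
    ∀ S : Finset X, S.Nonempty → ∀ Y : Finset Γ, (∀ y ∉ Y, Disjoint (y • S) F) →
      ∑ a ∈ Y, fm L (φ a⁻¹).toMonoidHom
        (moeb (fun U : Finset X => fm L (us.e (U : Set X)) x) (a • S)) = 0

theorem keyProp_eg (E : IFunctor.{v}) (R : Type) [Ring R] [StarRing R] (us : USupp φ X)
    (hst : ∀ v : X, Finite (MulAction.stabilizer Γ v)) : KeyProp (eg E R) us := by
  classical
  intro F x hx y hxy S hS Y hY
  exact key_moeb (E := E) (R := R) us hst F x hx y hxy S hS Y hY

theorem fm_app {L L' : GrpCat.{0} ⥤ AddCommGrpCat.{w}} (j : L ⟶ L') {G K : Type} [Group G]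
    [Group K] (f : G →* K) (x : FO L G) :
    (j.app (GrpCat.of K)).hom (fm L f x) = fm L' f ((j.app (GrpCat.of G)).hom x) :=
  nat_app j (GrpCat.ofHom f) x

theorem keyProp_transfer {L L' : GrpCat.{0} ⥤ AddCommGrpCat.{w}} (j : L ⟶ L') (p : L' ⟶ L)
    (hjp : ∀ (G : GrpCat.{0}) (x : L.obj G), (p.app G).hom ((j.app G).hom x) = x)
    (us : USupp φ X) (h : KeyProp L' us) : KeyProp L us := by
  classical
  intro F x hx y hxy S hS Y hY
  have h1 := h F ((j.app (GrpCat.of N)).hom x) (by rw [← fm_app, hx])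
    ((j.app (GrpCat.of Γ)).hom y) (by rw [← fm_app, ← fm_app, hxy]) S hS Y hY
  have h2 : (j.app (GrpCat.of N)).hom (∑ a ∈ Y, fm L (φ a⁻¹).toMonoidHom
      (moeb (fun U : Finset X => fm L (us.e (U : Set X)) x) (a • S))) = 0 := by
    rw [← h1, map_sum]
    apply Finset.sum_congr rfl
    intro a _
    rw [fm_app]
    congr 1
    rw [← moeb_map]
    congr 1
    funext U
    exact fm_app j _ x
  rw [← hjp _ (∑ a ∈ Y, fm L (φ a⁻¹).toMonoidHom
      (moeb (fun U : Finset X => fm L (us.e (U : Set X)) x) (a • S))), h2, map_zero]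

theorem keyProp_k (R : Type) [Ring R] (us : USupp φ X)
    (hst : ∀ v : X, Finite (MulAction.stabilizer Γ v)) : KeyProp (kgr R) us :=
  keyProp_transfer (dbl R) (undbl R) undbl_dbl us (keyProp_eg kFun (Sw R) us hst)

theorem keyProp_l (ε : ℤˣ) (A : Type) [Ring A] [StarRing A] (us : USupp φ X)
    (hst : ∀ v : X, Finite (MulAction.stabilizer Γ v)) : KeyProp (lgr A ε) us :=
  keyProp_eg (lFun ε) A us hst

end Key

end Pool.Agent.Y477.IW
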