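import Pool.Agent.Y477.IW.USDef

/-!
Functors on the category of groups and semidirect products `N ⋊ Γ` with retractions of `N` indexed by
the subsets of a set with an action of `Γ`: the statements.
-/

namespace Pool.Agent.Y477.IW

open CategoryTheory Pointwise

universe w

/-- Inner automorphisms act trivially. -/
def ConjTrivial (H : GrpCat.{0} ⥤ AddCommGrpCat.{w}) : Prop :=
  ∀ (G : GrpCat.{0}) (g : G), H.map (GrpCat.ofHom (MulAut.conj g).toMonoidHom) = 𝟙 (H.obj G)

variable {Γ N X : Type} [Group Γ] [Group N] [MulAction Γ X] {φ : Γ →* MulAut N}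

/-- The semidirect product `N ⋊ Γ`. -/
def sdp (φ : Γ →* MulAut N) : GrpCat.{0} := GrpCat.of (N ⋊[φ] Γ)

/-- The inclusion of `N`. -/
def inN (φ : Γ →* MulAut N) : GrpCat.of N ⟶ sdp φ :=
  GrpCat.ofHom (SemidirectProduct.inl : N →* N ⋊[φ] Γ)

/-- The inclusion of `Γ`. -/
def inΓ (φ : Γ →* MulAut N) : GrpCat.of Γ ⟶ sdp φ :=
  GrpCat.ofHom (SemidirectProduct.inr : Γ →* N ⋊[φ] Γ)

/-- The inclusion of the part of `N` supported on `S`. -/
def inPart (us : USupp φ X) (S : Set X) : GrpCat.of (us.part S) ⟶ sdp φ :=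
  GrpCat.ofHom (us.partIncl S)

/-- The retraction to the part supported on `S`. -/
def ret (us : USupp φ X) (S : Set X) : GrpCat.of N ⟶ GrpCat.of N := GrpCat.ofHom (us.e S)

/-- The action of `γ` on `N`. -/
def act (φ : Γ →* MulAut N) (γ : Γ) : GrpCat.of N ⟶ GrpCat.of N :=
  GrpCat.ofHom (φ γ).toMonoidHom

/-- The trivial endomorphism. -/
def triv (N : Type) [Group N] : GrpCat.of N ⟶ GrpCat.of N := GrpCat.ofHom 1

/-- The coinvariants of `L(N)` embed in `L(N ⋊ Γ)` modulo `L(Γ)`, up to `m`: if the image of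
`x ∈ L(N)` in `L(N ⋊ Γ)` comes from `L(Γ)`, then `m (x - x₀)` is a sum of elements `γ z - z`, where
`x₀` is the image of `x` under the trivial endomorphism. -/
def CoinvariantsEmbed (L : GrpCat.{0} ⥤ AddCommGrpCat.{w}) (φ : Γ →* MulAut N) (m : ℕ) : Prop :=
  ∀ (x : L.obj (GrpCat.of N)) (y : L.obj (GrpCat.of Γ)),
    (L.map (inN φ)).hom x = (L.map (inΓ φ)).hom y →
    m • (x - (L.map (triv N)).hom x) ∈ AddSubgroup.closure
      {w | ∃ (γ : Γ) (z : L.obj (GrpCat.of N)), w = (L.map (act φ γ)).hom z - z}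

/-- The direct sum statement: elements `x i` of `L(N)`, supported on nonempty finite subsets `T i` in
different orbits of `Γ` and killed by the retractions to the proper subsets of `T i`, vanish if the
image of their sum in `L(N ⋊ Γ)` comes from `L(Γ)`. -/
def OrbitsIndependent (L : GrpCat.{0} ⥤ AddCommGrpCat.{w}) (us : USupp φ X) : Prop :=
  ∀ (k : ℕ) (T : Fin k → Finset X), (∀ i, (T i).Nonempty) →
    (∀ (i j : Fin k) (γ : Γ), (∀ v, v ∈ T j ↔ γ⁻¹ • v ∈ T i) → i = j) →
    ∀ x : Fin k → L.obj (GrpCat.of N), (∀ i, (L.map (ret us (T i))).hom (x i) = x i) →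
      (∀ i, ∀ U : Finset X, U ⊂ T i → (L.map (ret us U)).hom (x i) = 0) →
      ∀ y : L.obj (GrpCat.of Γ), (L.map (inN φ)).hom (∑ i, x i) = (L.map (inΓ φ)).hom y →
        ∀ i, x i = 0

/-- The image of `H(K)` in `H(G)` under a homomorphism `K → G`. -/
def im (H : GrpCat.{0} ⥤ AddCommGrpCat.{w}) {K G : GrpCat.{0}} (f : K ⟶ G) :
    AddSubgroup (H.obj G) := (H.map f).hom.range

/-- The image in `H(G)` of the kernel of `α` on `H(K)` under a homomorphism `K → G`. -/
def imKer {H L : GrpCat.{0} ⥤ AddCommGrpCat.{w}} (α : H ⟶ L) {K G : GrpCat.{0}} (f : K ⟶ G) :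
    AddSubgroup (H.obj G) := ((α.app K).hom.ker).map (H.map f).hom

/-- The subgroup of `H(N ⋊ Γ)` generated by the images of `H(Γ)` and of the groups `H` of the parts
of `N` supported on the members of `C`. -/
def genOver (H : GrpCat.{0} ⥤ AddCommGrpCat.{w}) (us : USupp φ X) (C : Set (Finset X)) :
    AddSubgroup (H.obj (sdp φ)) := im H (inΓ φ) ⊔ ⨆ S ∈ C, im H (inPart us S)

/-- The subgroup of `H(N ⋊ Γ)` generated by the images of the kernels of `α` for `Γ` and for the
parts of `N` supported on the members of `C`. -/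
def kerOver {H L : GrpCat.{0} ⥤ AddCommGrpCat.{w}} (α : H ⟶ L) (us : USupp φ X)
    (C : Set (Finset X)) : AddSubgroup (H.obj (sdp φ)) :=
  imKer α (inΓ φ) ⊔ ⨆ S ∈ C, imKer α (inPart us S)

/-- A set of finite subsets of `X` closed under passing to subsets and invariant under `Γ`. -/
def IsFamily (Γ : Type) [Group Γ] [MulAction Γ X] (C : Set (Finset X)) : Prop :=
  (∀ S ∈ C, ∀ T ⊆ S, T ∈ C) ∧
    ∀ S ∈ C, ∀ (γ : Γ) (T : Finset X), (∀ v, v ∈ T ↔ γ⁻¹ • v ∈ S) → T ∈ C

/-- The kernel formula for the natural transformations to `L`. -/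
def KernelFormulaOver (L : GrpCat.{0} ⥤ AddCommGrpCat.{w}) (us : USupp φ X) (m : ℕ) : Prop :=
  ∀ C : Set (Finset X), IsFamily Γ C → ∀ H : GrpCat.{0} ⥤ AddCommGrpCat.{w}, ConjTrivial H →
    ∀ (α : H ⟶ L), ∀ x ∈ genOver H us C, (α.app (sdp φ)).hom x = 0 → m • x ∈ kerOver α us C

end Pool.Agent.Y477.IW
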