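import Mathlib

/-!
Semidirect products `N ⋊ Γ` with retractions of `N` indexed by the subsets of a set with an action of
`Γ`: definitions.
-/

namespace Pool.Agent.Y477.IW

open CategoryTheory Pointwise

universe w

/-- Retractions `e_S` of the group `N`, on which `Γ` acts, indexed by the subsets `S` of a set `X`
with an action of `Γ`. -/
structure USupp {Γ N : Type} [Group Γ] [Group N] (φ : Γ →* MulAut N) (X : Type)
    [MulAction Γ X] where
  /-- The retraction of `N` to the part supported on `S`. -/
  e : Set X → (N →* N)
  inter : ∀ (S T : Set X) (n : N), e S (e T n) = e (S ∩ T) n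
  empty : ∀ n : N, e ∅ n = 1
  equivariant : ∀ (γ : Γ) (S : Set X) (n : N), φ γ (e S n) = e (γ • S) (φ γ n)
  finite : ∀ n : N, ∃ S : Set X, S.Finite ∧ e S n = n

variable {Γ N X : Type} [Group Γ] [Group N] [MulAction Γ X] {φ : Γ →* MulAut N}

/-- The part of `N` supported on `S`. -/
abbrev USupp.part (us : USupp φ X) (S : Set X) : Type := (us.e S).range

/-- The inclusion of the part of `N` supported on `S` in `N ⋊ Γ`. -/
def USupp.partIncl (us : USupp φ X) (S : Set X) : us.part S →* N ⋊[φ] Γ :=
  SemidirectProduct.inl.comp (us.e S).range.subtype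

end Pool.Agent.Y477.IW
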