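import Pool.Agent.Y477.IW.USup

/-!
The direct sum decomposition inside `E(R[N ⋊ Γ])` for torsion-free `Γ` and retractions of `N` indexed
by the subsets of a set with an action of `Γ`.
-/

namespace Pool.Agent.Y477.IW

open Pool.Agent.Y483 Pointwise

universe v

variable {Γ N X : Type} [Group Γ] [Group N] [MulAction Γ X] {φ : Γ →* MulAut N}
  {E : IFunctor.{v}} {R : Type} [Ring R] [StarRing R] (us : USupp φ X)

/-- **Direct sum.** Let `Γ` be torsion-free, `T_i` nonempty finite subsets of `X`, pairwise in
different orbits of `Γ`, `x_i` a class of `E(R[N])` supported on `T_i` and killed by the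
retractions to the proper subsets of `T_i`. If the image of `∑ x_i` in `E(R[N ⋊ Γ])` comes from
`E(R[Γ])`, all `x_i` vanish. -/
theorem dsum_u [DecidableEq X] (htf : ∀ H : Subgroup Γ, Finite H → H = ⊥)
    (hst : ∀ v : X, Finite (MulAction.stabilizer Γ v))
    {ι : Type} (I : Finset ι) (T : ι → Finset X) (hT : ∀ i ∈ I, (T i).Nonempty)
    (hTT : ∀ i ∈ I, ∀ j ∈ I, ∀ γ : Γ, γ • T i = T j → i = j)
    (x : ι → E.gobj R N) (hx : ∀ i ∈ I, E.gmap R (us.e (T i : Set X)) (x i) = x i)
    (hred : ∀ i ∈ I, ∀ U : Finset X, U ⊂ T i → E.gmap R (us.e (U : Set X)) (x i) = 0)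
    (y : E.gobj R Γ)
    (hxy : ∑ i ∈ I, E.gmap R (SemidirectProduct.inl : N →* N ⋊[φ] Γ) (x i) =
      E.gmap R (SemidirectProduct.inr : Γ →* N ⋊[φ] Γ) y) (i : ι) (hi : i ∈ I) : x i = 0 := by
  classical
  have hES : ∀ j ∈ I, ∀ S : Finset X, E.gmap R (us.e (S : Set X)) (x j) =
      if T j ⊆ S then x j else 0 := by
    intro j hj S
    have h1 : E.gmap R (us.e (S : Set X)) (x j) =
        E.gmap R (us.e ((S ∩ T j : Finset X) : Set X)) (x j) := by
      conv_lhs => rw [← hx j hj]
      have e : (us.e (S : Set X)).comp (us.e (T j : Set X)) =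
          us.e ((S ∩ T j : Finset X) : Set X) := by
        ext1 n
        rw [MonoidHom.comp_apply, us.inter, Finset.coe_inter]
      rw [← E.gmap_comp, e]
    rw [h1]
    split_ifs with h
    · rw [Finset.inter_eq_right.mpr h, hx j hj]
    · apply hred j hj
      refine Finset.ssubset_iff_subset_ne.mpr ⟨Finset.inter_subset_right, fun h2 => h ?_⟩
      exact Finset.inter_eq_right.mp h2
  set xs : E.gobj R N := ∑ j ∈ I, x j with hxs
  let F : Finset X := I.biUnion T
  have hF : E.gmap R (us.e (F : Set X)) xs = xs := by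
    rw [hxs, map_sum]
    apply Finset.sum_congr rfl
    intro j hj
    rw [hES j hj, if_pos (Finset.subset_biUnion_of_mem T hj)]
  have h1 : E.gmap R (1 : N →* N) xs = 0 := by
    have e : (1 : N →* N) = us.e ((∅ : Finset X) : Set X) := by
      ext1 n
      rw [Finset.coe_empty, us.empty]; rfl
    rw [e, hxs, map_sum]
    apply Finset.sum_eq_zero
    intro j hj
    rw [hES j hj, if_neg]
    intro h
    exact (hT j hj).ne_empty (Finset.subset_empty.mp h)
  let Y : Finset Γ := carry hst F F
  have hTF : T i ⊆ F := Finset.subset_biUnion_of_mem T hi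
  have hY : ∀ U ⊆ T i, ∀ z ∉ Y, Disjoint (z • U) F := by
    intro U hU z hz
    rw [Finset.disjoint_left]
    intro t ht htF
    obtain ⟨u, hu, rfl⟩ := Finset.mem_smul_finset.mp ht
    exact hz (mem_carry hst (hTF (hU hu)) htF)
  have hxy' : E.gmap R (SemidirectProduct.inl : N →* N ⋊[φ] Γ) xs =
      E.gmap R (SemidirectProduct.inr : Γ →* N ⋊[φ] Γ) y := by
    rw [hxs, map_sum]; exact hxy
  let c : Finset X → E.gobj R N := fun S => E.gmap R (us.e (S : Set X)) xs
  have hkey : ∀ U ⊆ T i, ∑ a ∈ Y, E.gmap R (φ a⁻¹).toMonoidHom (c (a • U)) = 0 := by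
    intro U hU
    have h2 := key_u us hst F xs hF y hxy' U Y (hY U hU)
    rw [h1] at h2
    simpa only [sub_zero] using h2
  have hm : ∑ a ∈ Y, E.gmap R (φ a⁻¹).toMonoidHom (moeb c (a • T i)) = 0 := by
    simp_rw [moeb_smulV, map_sum, map_zsmul]
    rw [Finset.sum_comm]
    apply Finset.sum_eq_zero
    intro U hU
    rw [← Finset.smul_sum, hkey U (Finset.mem_powerset.mp hU), smul_zero]
  have hc : ∀ S, moeb c S = ∑ j ∈ I, if S = T j then x j else 0 := by
    intro S
    have e1 : c = fun S => ∑ j ∈ I, (if T j ⊆ S then x j else 0) := by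
      funext S
      change E.gmap R (us.e (S : Set X)) (∑ j ∈ I, x j) = _
      rw [map_sum]
      exact Finset.sum_congr rfl fun j hj => hES j hj S
    rw [e1, moeb_sum_fun]
    apply Finset.sum_congr rfl
    intro j _
    exact moeb_delta (T j) (x j) S
  have hterm : ∀ a : Γ, moeb c (a • T i) = if a = 1 then x i else 0 := by
    intro a
    rw [hc]
    split_ifs with ha
    · subst ha
      rw [one_smul, Finset.sum_eq_single i]
      · rw [if_pos rfl]
      · intro j hj hji
        rw [if_neg]
        intro h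
        apply hji
        symm
        apply hTT i hi j hj 1
        rw [one_smul, h]
      · intro h; exact absurd hi h
    · apply Finset.sum_eq_zero
      intro j hj
      rw [if_neg]
      intro h
      have hij : i = j := hTT i hi j hj a h
      subst hij
      apply ha
      have h2 := finite_stabV hst (T i) (hT i hi)
      have h3 := htf _ h2
      have h4 : a ∈ MulAction.stabilizer Γ (T i) := h
      rw [h3, Subgroup.mem_bot] at h4
      exact h4
  have h1Y : (1 : Γ) ∈ Y := by
    obtain ⟨s, hs⟩ := hT i hi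
    exact mem_carry hst (hTF hs) (by rw [one_smul]; exact hTF hs)
  rw [Finset.sum_eq_single_of_mem 1 h1Y] at hm
  · rw [hterm, if_pos rfl, inv_one, map_one] at hm
    have e : (1 : MulAut N).toMonoidHom = MonoidHom.id N := rfl
    rw [e, E.gmap_id] at hm
    exact hm
  · intro a _ ha
    rw [hterm, if_neg ha, map_zero]

end Pool.Agent.Y477.IW
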