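import Pool.Agent.Y477.IW.USCat
import Pool.Agent.Y477.IW.USum
import Pool.Agent.Y477.IW.LPres

/-!
Functors on the category of groups and semidirect products `N ⋊ Γ` with retractions of `N` indexed by
the subsets of a set with an action of `Γ`: the theorems.
-/

namespace Pool.Agent.Y477.IW

open Pool.Agent.Y483 CategoryTheory Pointwise

universe v w

variable {Γ N X : Type} [Group Γ] [Group N] [MulAction Γ X] {φ : Γ →* MulAut N}
  {E : IFunctor.{v}} {R : Type} [Ring R] [StarRing R] (us : USupp φ X)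

include us in
/-- The coinvariants. -/
theorem coinv_u (hE : E.Cont R) (hst : ∀ v : X, Finite (MulAction.stabilizer Γ v))
    (x : E.gobj R N) (y : E.gobj R Γ)
    (hxy : E.gmap R (SemidirectProduct.inl : N →* N ⋊[φ] Γ) x =
      E.gmap R (SemidirectProduct.inr : Γ →* N ⋊[φ] Γ) y) (m : ℕ)
    (hm : ∀ K : Subgroup Γ, Finite K → Nat.card K ∣ m) :
    m • (x - E.gmap R (1 : N →* N) x) ∈ coD E R φ := by
  classical
  obtain ⟨X₀, hX⟩ := hE N x
  choose S hS using us.finite
  let F : Finset X := X₀.biUnion (fun n => (hS n).1.toFinset)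
  have hF : E.gmap R (us.e (F : Set X)) x = x := by
    apply hX
    intro n hn
    have h1 : S n ⊆ (F : Set X) := by
      intro s hs
      rw [Finset.mem_coe, Finset.mem_biUnion]
      exact ⟨n, hn, (hS n).1.mem_toFinset.mpr hs⟩
    conv_lhs => rw [← (hS n).2]
    rw [us.inter, Set.inter_eq_self_of_subset_right h1, (hS n).2]
  set c : Finset X → E.gobj R N := fun U => E.gmap R (us.e (U : Set X)) x with hc
  have hcF : ∀ S, c S = c (S ∩ F) := by
    intro S
    change E.gmap R (us.e (S : Set X)) x = E.gmap R (us.e ((S ∩ F : Finset X) : Set X)) x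
    have e : (us.e (S : Set X)).comp (us.e (F : Set X)) = us.e ((S ∩ F : Finset X) : Set X) := by
      ext1 n
      rw [MonoidHom.comp_apply, us.inter, Finset.coe_inter]
    conv_lhs => rw [← hF]
    rw [← E.gmap_comp, e]
  let q := QuotientAddGroup.mk' (coD E R φ)
  let g : Finset X → E.gobj R N ⧸ coD E R φ := fun S => q (c S) - q (E.gmap R (1 : N →* N) x)
  have hmoeb : ∀ S : Finset X, S.Nonempty → moeb g S = q (moeb c S) := by
    intro S hS
    rw [show moeb g S = moeb (fun S => q (c S)) S from moeb_sub_const _ _ S hS, moeb_map]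
  have hact : ∀ (γ : Γ) (u : E.gobj R N), q (E.gmap R (φ γ).toMonoidHom u) = q u := by
    intro γ u
    rw [← sub_eq_zero, ← map_sub]
    exact (QuotientAddGroup.eq_zero_iff _).mpr (coD_mem γ u)
  have hmain := smul_eq_zero_of_moeb hst g F ?_ ?_ m ?_ ?_
  · have e1 : g F = q (x - E.gmap R (1 : N →* N) x) := by
      change q (c F) - _ = _
      rw [show c F = x from hF, map_sub]
    rw [e1, ← map_nsmul] at hmain
    exact (QuotientAddGroup.eq_zero_iff _).mp hmain
  · intro S
    change q (c S) - _ = q (c (S ∩ F)) - _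
    rw [hcF S]
  · change q (c ∅) - _ = 0
    have e0 : us.e ((∅ : Finset X) : Set X) = 1 := by
      ext1 n
      rw [Finset.coe_empty, us.empty]
      rfl
    have e1 : c ∅ = E.gmap R (1 : N →* N) x := by
      change E.gmap R (us.e ((∅ : Finset X) : Set X)) x = _
      rw [e0]
    rw [e1, sub_self]
  · intro S _ hne
    exact hm _ (finite_stabV hst S hne)
  · intro S _ hne Y hY
    have h1 := congrArg q (key_moeb us hst F x hF y hxy S hne Y hY)
    rw [map_zero, map_sum] at h1
    rw [← h1]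
    apply Finset.sum_congr rfl
    intro a _
    rw [hmoeb _ hne.smul_finset, hact]

include us in
/-- The coinvariants, in the category of groups. -/
theorem coinvariantsEmbed_of (hE : E.Cont R) (hst : ∀ v : X, Finite (MulAction.stabilizer Γ v))
    (m : ℕ) (hm : ∀ K : Subgroup Γ, Finite K → Nat.card K ∣ m) :
    CoinvariantsEmbed (eg E R) φ m := by
  intro x y hxy
  exact coinv_u us hE hst x y hxy m hm

/-- The direct sum, in the category of groups. -/
theorem orbitsIndependent_of (hst : ∀ v : X, Finite (MulAction.stabilizer Γ v))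
    (htf : ∀ H : Subgroup Γ, Finite H → H = ⊥) : OrbitsIndependent (eg E R) us := by
  classical
  intro k T hne hor x hx hred y hxy i
  refine dsum_u us htf hst Finset.univ T (fun i _ => hne i) ?_ x (fun i _ => hx i)
    (fun i _ => hred i) y ?_ i (Finset.mem_univ i)
  · intro i _ j _ γ h
    apply hor i j γ
    intro v
    rw [← h, ← Finset.inv_smul_mem_iff]
  · refine Eq.trans ?_ hxy
    exact (map_sum (E.gmap R (SemidirectProduct.inl : N →* N ⋊[φ] Γ)) x Finset.univ).symm

theorem genOver_le (H : GrpCat.{0} ⥤ AddCommGrpCat.{w}) (C : Set (Finset X)) :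
    genOver H us C ≤
      AddSubgroup.closure ({w | ∃ y : H.obj (GrpCat.of Γ), w = (H.map (inΓ φ)).hom y} ∪
        {w | ∃ S ∈ C, ∃ z : H.obj (GrpCat.of (us.part (S : Set X))),
          w = (H.map (inPart us S)).hom z}) := by
  apply sup_le
  · rintro _ ⟨y, rfl⟩
    exact AddSubgroup.subset_closure (Or.inl ⟨y, rfl⟩)
  · apply iSup₂_le
    rintro S hS _ ⟨z, rfl⟩
    exact AddSubgroup.subset_closure (Or.inr ⟨S, hS, z, rfl⟩)

theorem imC_le {H : GrpCat.{0} ⥤ AddCommGrpCat.{v}} (hH : InnerTrivial H) (α : H ⟶ eg E R)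
    (C : Set (Finset X)) : imC us (toT hH α) C ≤ kerOver α us C := by
  unfold imC
  rw [AddSubgroup.closure_le]
  rintro w (⟨y, hy, rfl⟩ | ⟨T, hT, z, hz, rfl⟩)
  · have h1 : imKer α (inΓ φ) ≤ kerOver α us C := le_sup_left
    exact h1 ⟨y, hy, rfl⟩
  · have h1 : imKer α (inPart us T) ≤ kerOver α us C :=
      le_sup_of_le_right (le_iSup₂_of_le T hT le_rfl)
    exact h1 ⟨z, hz, rfl⟩

/-- The kernel formula, in the category of groups. -/
theorem kernelFormulaOver_of (hst : ∀ v : X, Finite (MulAction.stabilizer Γ v)) (m : ℕ)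
    (hm : ∀ K : Subgroup Γ, Finite K → Nat.card K ∣ m) : KernelFormulaOver (eg E R) us m := by
  classical
  rintro C ⟨hC, hinv⟩ H hH α x hx hα
  let H' : GFun := toG H hH
  let α' : GTr H' E R := toT hH α
  have hshape : ∃ (a : H'.obj N) (b : H'.obj Γ), a ∈ genC us H' C ∧
      x = H'.map (SemidirectProduct.inl : N →* N ⋊[φ] Γ) a +
        H'.map (SemidirectProduct.inr : Γ →* N ⋊[φ] Γ) b := by
    clear hα
    replace hx := genOver_le us H C hx
    induction hx using AddSubgroup.closure_induction with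
    | mem w hw =>
      rcases hw with ⟨y, rfl⟩ | ⟨S, hS, z, rfl⟩
      · exact ⟨0, y, AddSubgroup.zero_mem _, by rw [map_zero, zero_add]; rfl⟩
      · refine ⟨H'.map (us.e (S : Set X)).range.subtype z, 0, ?_, ?_⟩
        · exact AddSubgroup.subset_closure ⟨S, hS, z, rfl⟩
        · rw [map_zero, add_zero, ← H'.map_comp]
          rfl
    | zero =>
      refine ⟨0, 0, AddSubgroup.zero_mem _, ?_⟩
      rw [map_zero, map_zero, zero_add]
      rfl
    | add u v _ _ hu hv =>
      obtain ⟨a₁, b₁, h₁, rfl⟩ := hu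
      obtain ⟨a₂, b₂, h₂, rfl⟩ := hv
      refine ⟨a₁ + a₂, b₁ + b₂, AddSubgroup.add_mem _ h₁ h₂, ?_⟩
      rw [map_add, map_add]
      exact add_add_add_comm _ _ _ _
    | neg u _ hu =>
      obtain ⟨a₁, b₁, h₁, rfl⟩ := hu
      refine ⟨-a₁, -b₁, AddSubgroup.neg_mem _ h₁, ?_⟩
      rw [map_neg, map_neg]
      exact neg_add _ _
  obtain ⟨a, b, ha, hxab⟩ := hshape
  have hinv' : ∀ S ∉ C, ∀ γ : Γ, γ • S ∉ C := by
    intro S hS γ h2
    apply hS
    refine hinv _ h2 γ⁻¹ S (fun v => ?_)
    rw [inv_inv]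
    exact (Finset.smul_mem_smul_finset_iff γ).symm
  have hα' : α'.app (N ⋊[φ] Γ) (H'.map SemidirectProduct.inl a + H'.map SemidirectProduct.inr b) =
      0 := by
    rw [← hxab]
    exact hα
  have hk := kernel_u us α' hst C hC hinv' a ha b hα' m hm
  rw [← hxab] at hk
  exact imC_le us hH α C hk

/-! ### L-groups -/

theorem us_l (ε : ℤˣ) (hst : ∀ v : X, Finite (MulAction.stabilizer Γ v)) (m : ℕ)
    (hm : ∀ K : Subgroup Γ, Finite K → Nat.card K ∣ m) :
    CoinvariantsEmbed (lgr R ε) φ m ∧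
    ((∀ g : Γ, g ≠ 1 → ¬ IsOfFinOrder g) → OrbitsIndependent (lgr R ε) us) ∧
    KernelFormulaOver (lgr R ε) us m :=
  ⟨coinvariantsEmbed_of (E := lFun ε) us (lFun_cont ε R) hst m hm,
    fun htf => orbitsIndependent_of (E := lFun ε) us hst (finite_eq_bot htf),
    kernelFormulaOver_of (E := lFun ε) us hst m hm⟩

end Pool.Agent.Y477.IW
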