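import Pool.Agent.Y477.IW.CombV
import Pool.Agent.Y477.IW.USDef
import Pool.Agent.Y477.IW.Kernel

/-!
Semidirect products `N ⋊ Γ` with retractions of `N` indexed by the subsets of a set with an action of
`Γ` with finite point stabilizers: the key identity, and the integral kernel formula for an invariant
family of finite subsets closed under passing to subsets.
-/

namespace Pool.Agent.Y477.IW

open Pool.Agent.Y483 Pointwise

universe v w

section MoebExtra

variable {X V W : Type*} [DecidableEq X] [AddCommGroup V] [AddCommGroup W]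

omit [DecidableEq X] in
theorem moeb_map (f : V →+ W) (g : Finset X → V) (S : Finset X) :
    moeb (fun S => f (g S)) S = f (moeb g S) := by
  unfold moeb
  rw [map_sum]
  exact Finset.sum_congr rfl fun T _ => (map_zsmul f _ _).symm

theorem moeb_sub_const (g : Finset X → V) (x : V) (S : Finset X) (hS : S.Nonempty) :
    moeb (fun S => g S - x) S = moeb g S := by
  have h := moeb_delta (∅ : Finset X) x S
  rw [if_neg hS.ne_empty] at h
  have h2 : moeb (fun S => g S - x) S = moeb g S -
      moeb (fun S => if (∅ : Finset X) ⊆ S then x else 0) S := by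
    unfold moeb
    rw [← Finset.sum_sub_distrib]
    apply Finset.sum_congr rfl
    intro T _
    change (-1 : ℤ) ^ (S.card - T.card) • (g T - x) = (-1 : ℤ) ^ (S.card - T.card) • g T -
      (-1 : ℤ) ^ (S.card - T.card) • (if (∅ : Finset X) ⊆ T then x else 0)
    rw [if_pos (Finset.empty_subset T), smul_sub]
  rw [h2, h, sub_zero]

omit [DecidableEq X] in
theorem moeb_add (g h : Finset X → V) (S : Finset X) :
    moeb (fun S => g S + h S) S = moeb g S + moeb h S := by
  unfold moeb
  rw [← Finset.sum_add_distrib]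
  exact Finset.sum_congr rfl fun T _ => smul_add _ _ _

end MoebExtra

namespace USupp

variable {Γ N X : Type} [Group Γ] [Group N] [MulAction Γ X] {φ : Γ →* MulAut N}
  (us : USupp φ X)

/-- The endomorphism `e_S` followed by the inclusion in `N ⋊ Γ`. -/
def incl (S : Set X) : N →* N ⋊[φ] Γ := SemidirectProduct.inl.comp (us.e S)

theorem e_of_disjoint {S T : Set X} (h : Disjoint S T) {n : N} (hn : us.e T n = n) :
    us.e S n = 1 := by
  rw [← hn, us.inter, Set.disjoint_iff_inter_eq_empty.mp h, us.empty]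

theorem e_act {S : Set X} {n : N} (hn : us.e S n = n) (γ : Γ) :
    us.e (γ • S) (φ γ n) = φ γ n := by
  rw [← us.equivariant, hn]

/-- The cocycle of `N ⋊ Γ` on `Γ` with values in the part supported on `F`. -/
noncomputable def cocycle (hst : ∀ v : X, Finite (MulAction.stabilizer Γ v)) (F : Finset X) :
    FinCocycle (N ⋊[φ] Γ) (Pt φ) (us.part (F : Set X)) where
  c w a := (us.e (F : Set X)).rangeRestrict (φ (w.right * (show Γ from a))⁻¹ w.left)
  mul w w' a := by
    rw [← map_mul]
    congr 1
    rw [SemidirectProduct.mul_left, SemidirectProduct.mul_right, map_mul]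
    congr 1
    · rw [pt_smul]
      change φ ((w.right * w'.right * _)⁻¹) _ = φ ((w.right * (w'.right * _))⁻¹) _
      rw [mul_assoc]
    · rw [← MulAut.mul_apply, ← map_mul]
      congr 2
      rw [mul_assoc, mul_inv_rev, inv_mul_cancel_right]
  fin w := by
    obtain ⟨S, hS, hn⟩ := us.finite w.left
    have hfin : (⋃ p ∈ ((F : Set X) ×ˢ S), (fun b : Γ => w.right⁻¹ * b) ''
        {b : Γ | b • p.1 = p.2}).Finite :=
      (F.finite_toSet.prod hS).biUnion fun p _ => (finite_carry hst p.1 p.2).image _
    refine hfin.subset ?_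
    intro a ha
    by_contra hcon
    apply ha
    apply Subtype.ext
    change us.e (F : Set X) (φ (w.right * (show Γ from a))⁻¹ w.left) = 1
    refine us.e_of_disjoint ?_ (us.e_act hn _)
    rw [Set.disjoint_left]
    intro f hf hf'
    apply hcon
    rw [Set.mem_smul_set] at hf'
    obtain ⟨s, hs, hsf⟩ := hf'
    rw [Set.mem_iUnion₂]
    refine ⟨(f, s), ⟨hf, hs⟩, w.right * (show Γ from a), ?_, inv_mul_cancel_left _ _⟩
    change (w.right * (show Γ from a)) • f = s
    rw [← hsf, smul_inv_smul]

end USupp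

section

variable {Γ N X : Type} [Group Γ] [Group N] [MulAction Γ X] {φ : Γ →* MulAut N}
  {E : IFunctor.{v}} {R : Type} [Ring R] [StarRing R] (us : USupp φ X)

/-- The key identity for retractions indexed by the subsets of `X`. -/
theorem key_u [DecidableEq X] (hst : ∀ v : X, Finite (MulAction.stabilizer Γ v)) (F : Finset X)
    (x : E.gobj R N)
    (hx : E.gmap R (us.e (F : Set X)) x = x) (y : E.gobj R Γ)
    (hxy : E.gmap R (SemidirectProduct.inl : N →* N ⋊[φ] Γ) x =
      E.gmap R (SemidirectProduct.inr : Γ →* N ⋊[φ] Γ) y) (T : Finset X) (Y : Finset Γ)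
    (hY : ∀ y ∉ Y, Disjoint (y • T) F) :
    ∑ a ∈ Y, (E.gmap R (φ a⁻¹).toMonoidHom (E.gmap R (us.e ((a • T : Finset X) : Set X)) x) -
      E.gmap R (1 : N →* N) x) = 0 := by
  classical
  have hj : ∀ (g : N) (a : Pt φ), us.incl (F : Set X) g • a = a := by
    intro g a
    exact one_mul (show Γ from a)
  have hlab : ∀ a ∉ (Y : Finset (Pt φ)), ∀ g : N,
      (us.cocycle hst T).c (us.incl (F : Set X) g) a = 1 := by
    intro a ha g
    apply Subtype.ext
    change us.e T (φ ((1 : Γ) * (show Γ from a))⁻¹ (us.e (F : Set X) g)) = 1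
    rw [one_mul, us.equivariant]
    rw [us.inter]
    have hd : (T : Set X) ∩ ((show Γ from a)⁻¹ • (F : Set X)) = ∅ := by
      rw [← Set.disjoint_iff_inter_eq_empty, Set.disjoint_left]
      intro t ht ht'
      have h2 := Finset.disjoint_left.mp (hY a ha)
        (Finset.smul_mem_smul_finset (a := (show Γ from a)) ht)
      apply h2
      rw [Set.mem_inv_smul_set_iff] at ht'
      simpa using ht'
    rw [hd, us.empty]
  have hi : ∀ (g : Γ) (a : Pt φ), (us.cocycle hst T).c
      ((SemidirectProduct.inr : Γ →* N ⋊[φ] Γ) g) a = 1 := by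
    intro g a
    apply Subtype.ext
    change us.e T (φ (g * (show Γ from a))⁻¹ (1 : N)) = 1
    rw [map_one, map_one]
  have hxy' : E.gmap R (us.incl (F : Set X)) x =
      E.gmap R (SemidirectProduct.inr : Γ →* N ⋊[φ] Γ) y := by
    rw [← hxy]
    conv_rhs => rw [← hx]
    rw [← E.gmap_comp]
    rfl
  have hk := key E (us.cocycle hst T) (us.incl (F : Set X)) hj Y hlab
    (SemidirectProduct.inr : Γ →* N ⋊[φ] Γ) hi x y hxy'
  have hk2 := congrArg (E.gmap R (us.e (T : Set X)).range.subtype) hk
  rw [map_zero, map_sum] at hk2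
  refine Eq.trans ?_ hk2
  refine Finset.sum_congr (ι := Γ) rfl ?_
  intro a _
  have e1 : ((us.e (T : Set X)).range.subtype).comp (1 : N →* us.part (T : Set X)) = 1 := by
    ext1 n; rfl
  have e2 : ((us.e (T : Set X)).range.subtype).comp
      ((us.cocycle hst T).label (us.incl (F : Set X)) hj a) =
      ((φ a⁻¹).toMonoidHom.comp (us.e ((a • T : Finset X) : Set X))).comp (us.e (F : Set X)) := by
    ext1 n
    change us.e T (φ ((1 : Γ) * a)⁻¹ (us.e (F : Set X) n)) =
      φ a⁻¹ (us.e ((a • T : Finset X) : Set X) (us.e (F : Set X) n))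
    have h6 := us.equivariant a⁻¹ (a • (T : Set X)) (us.e (F : Set X) n)
    rw [inv_smul_smul] at h6
    rw [one_mul, Finset.coe_smul_finset, h6]
  have e3 : E.gmap R (us.e (T : Set X)).range.subtype (E.gmap R
      ((us.cocycle hst T).label (us.incl (F : Set X)) hj a) x) =
      E.gmap R (φ a⁻¹).toMonoidHom (E.gmap R (us.e ((a • T : Finset X) : Set X)) x) := by
    have e4 := congrArg (fun f => E.gmap R f x) e2
    refine (E.gmap_comp R _ _ x).symm.trans (e4.trans ?_)
    rw [E.gmap_comp R _ (us.e (F : Set X)), hx, E.gmap_comp]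
  have e5 : E.gmap R (us.e (T : Set X)).range.subtype
      (E.gmap R (1 : N →* us.part (T : Set X)) x) = E.gmap R (1 : N →* N) x := by
    rw [← E.gmap_comp, e1]
  refine Eq.trans ?_ (map_sub (E.gmap R (us.e (T : Set X)).range.subtype) _ _).symm
  exact (congrArg₂ (fun u v => u - v) e3 e5).symm

/-- The Möbius transform of the key identity. -/
theorem key_moeb [DecidableEq X] (hst : ∀ v : X, Finite (MulAction.stabilizer Γ v))
    (F : Finset X) (x : E.gobj R N)
    (hx : E.gmap R (us.e (F : Set X)) x = x) (y : E.gobj R Γ)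
    (hxy : E.gmap R (SemidirectProduct.inl : N →* N ⋊[φ] Γ) x =
      E.gmap R (SemidirectProduct.inr : Γ →* N ⋊[φ] Γ) y) (S : Finset X) (hS : S.Nonempty)
    (Y : Finset Γ) (hY : ∀ y ∉ Y, Disjoint (y • S) F) :
    ∑ a ∈ Y, E.gmap R (φ a⁻¹).toMonoidHom
      (moeb (fun U : Finset X => E.gmap R (us.e (U : Set X)) x) (a • S)) = 0 := by
  classical
  set c : Finset X → E.gobj R N := fun U => E.gmap R (us.e (U : Set X)) x with hc
  have h1 : ∀ a : Γ, moeb c (a • S) = moeb (fun U => c U - E.gmap R (1 : N →* N) x) (a • S) :=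
    fun a => (moeb_sub_const c _ (a • S) hS.smul_finset).symm
  have hkey : ∀ U ⊆ S, ∑ a ∈ Y, E.gmap R (φ a⁻¹).toMonoidHom
      (c (a • U) - E.gmap R (1 : N →* N) x) = 0 := by
    intro U hU
    have hYU : ∀ y ∉ Y, Disjoint (y • U) F := fun y hy =>
      Finset.disjoint_of_subset_left (Finset.smul_finset_subset_smul_finset hU) (hY y hy)
    have h2 := key_u us hst F x hx y hxy U Y hYU
    rw [← h2]
    apply Finset.sum_congr rfl
    intro a _
    rw [map_sub, ← E.gmap_comp R _ (1 : N →* N)]
    have e : (φ a⁻¹).toMonoidHom.comp (1 : N →* N) = 1 := by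
      ext1 n; exact map_one (φ a⁻¹)
    rw [e]
  simp_rw [h1, moeb_smulV, map_sum, map_zsmul]
  rw [Finset.sum_comm]
  apply Finset.sum_eq_zero
  intro U hU
  rw [← Finset.smul_sum, hkey U (Finset.mem_powerset.mp hU), smul_zero]

end

/-! ### The kernel formula -/

section KernelU

variable {Γ N X : Type} [Group Γ] [Group N] [MulAction Γ X] {φ : Γ →* MulAut N} {H : GFun.{w}}
  {E : IFunctor.{v}} {R : Type} [Ring R] [StarRing R] (us : USupp φ X)

/-- The subgroup generated by the images of the kernels of `Γ` and of the parts of `N` supported on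
the members of the family. -/
noncomputable def imC (α : GTr H E R) (C : Set (Finset X)) : AddSubgroup (H.obj (N ⋊[φ] Γ)) :=
  AddSubgroup.closure ({w | ∃ y : H.obj Γ, α.app Γ y = 0 ∧ w = H.map SemidirectProduct.inr y} ∪
    {w | ∃ T ∈ C, ∃ z : H.obj (us.part (T : Set X)), α.app _ z = 0 ∧
      w = H.map (us.partIncl (T : Set X)) z})

/-- The subgroup of `H(N)` generated by the images of the parts of `N` supported on the members of
the family. -/
noncomputable def genC (H : GFun.{w}) (C : Set (Finset X)) : AddSubgroup (H.obj N) :=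
  AddSubgroup.closure {w | ∃ T ∈ C, ∃ z : H.obj (us.part (T : Set X)),
    w = H.map (us.e (T : Set X)).range.subtype z}

variable [DecidableEq X]

theorem e_e (U T : Finset X) (a : H.obj N) :
    H.map (us.e (U : Set X)) (H.map (us.e (T : Set X)) a) =
      H.map (us.e ((U ∩ T : Finset X) : Set X)) a := by
  have e : (us.e (U : Set X)).comp (us.e (T : Set X)) = us.e ((U ∩ T : Finset X) : Set X) := by
    ext1 n
    rw [MonoidHom.comp_apply, us.inter, Finset.coe_inter]
  rw [← H.map_comp, e]

theorem shape_u (C : Set (Finset X)) (hC : ∀ S ∈ C, ∀ T ⊆ S, T ∈ C) (a : H.obj N)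
    (ha : a ∈ genC us H C) : ∃ F : Finset X, H.map (us.e (F : Set X)) a = a ∧
      ∀ S ∉ C, moeb (fun U : Finset X => H.map (us.e (U : Set X)) a) S = 0 := by
  unfold genC at ha
  induction ha using AddSubgroup.closure_induction with
  | mem w hw =>
    obtain ⟨T, hT, z, rfl⟩ := hw
    have h1 : H.map (us.e (T : Set X)) (H.map (us.e (T : Set X)).range.subtype z) =
        H.map (us.e (T : Set X)).range.subtype z := by
      have e : (us.e (T : Set X)).comp (us.e (T : Set X)).range.subtype =
          (us.e (T : Set X)).range.subtype := by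
        ext1 u
        obtain ⟨n, hn⟩ := u.2
        change us.e (T : Set X) u.1 = u.1
        rw [← hn, us.inter, Set.inter_self]
      rw [← H.map_comp, e]
    refine ⟨T, h1, fun S hS => ?_⟩
    refine moeb_eq_zero (F := T) ?_ (fun h => hS (hC T hT S h))
    intro U
    conv_lhs => rw [← h1, e_e]
  | zero =>
    refine ⟨∅, map_zero _, fun S _ => ?_⟩
    unfold moeb
    apply Finset.sum_eq_zero
    intro T _
    change _ • H.map (us.e (T : Set X)) 0 = 0
    rw [map_zero, smul_zero]
  | add u v _ _ hu hv =>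
    obtain ⟨F₁, h₁, k₁⟩ := hu
    obtain ⟨F₂, h₂, k₂⟩ := hv
    refine ⟨F₁ ∪ F₂, ?_, fun S hS => ?_⟩
    · rw [map_add]
      congr 1
      · conv_lhs => rw [← h₁, e_e, Finset.inter_eq_right.mpr Finset.subset_union_left, h₁]
      · conv_lhs => rw [← h₂, e_e, Finset.inter_eq_right.mpr Finset.subset_union_right, h₂]
    · have e : (fun U : Finset X => H.map (us.e (U : Set X)) (u + v)) =
          fun U : Finset X => H.map (us.e (U : Set X)) u + H.map (us.e (U : Set X)) v := by
        funext U
        rw [map_add]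
      rw [e, moeb_add, k₁ S hS, k₂ S hS, add_zero]
  | neg u _ hu =>
    obtain ⟨F₁, h₁, k₁⟩ := hu
    refine ⟨F₁, by rw [map_neg, h₁], fun S hS => ?_⟩
    have e : (fun U : Finset X => H.map (us.e (U : Set X)) (-u)) =
        fun U : Finset X => (-(AddMonoidHom.id (H.obj N))) (H.map (us.e (U : Set X)) u) := by
      funext U
      rw [map_neg]
      rfl
    rw [e, moeb_map, k₁ S hS, map_zero]

/-- **Integral kernel formula for an invariant family of finite subsets.** -/
theorem kernel_u (α : GTr H E R) (hst : ∀ v : X, Finite (MulAction.stabilizer Γ v))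
    (C : Set (Finset X)) (hC : ∀ S ∈ C, ∀ T ⊆ S, T ∈ C) (hinv : ∀ S ∉ C, ∀ γ : Γ, γ • S ∉ C)
    (a : H.obj N) (ha : a ∈ genC us H C) (b : H.obj Γ)
    (hab : α.app (N ⋊[φ] Γ) (H.map SemidirectProduct.inl a + H.map SemidirectProduct.inr b) = 0)
    (m : ℕ) (hm : ∀ K : Subgroup Γ, Finite K → Nat.card K ∣ m) :
    m • (H.map (SemidirectProduct.inl : N →* N ⋊[φ] Γ) a + H.map SemidirectProduct.inr b) ∈
      imC us α C := by
  classical
  obtain ⟨F, hF, hκ0⟩ := shape_u us C hC a ha
  set c : Finset X → H.obj N := fun U => H.map (us.e (U : Set X)) a with hc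
  have hcF : ∀ S, c S = c (S ∩ F) := by
    intro S
    change H.map (us.e (S : Set X)) a = H.map (us.e ((S ∩ F : Finset X) : Set X)) a
    conv_lhs => rw [← hF, e_e]
  -- the class of `x = α(a)`
  have hxF : E.gmap R (us.e (F : Set X)) (α.app N a) = α.app N a := by
    rw [α.nat, hF]
  have hxy : E.gmap R (SemidirectProduct.inl : N →* N ⋊[φ] Γ) (α.app N a) =
      E.gmap R (SemidirectProduct.inr : Γ →* N ⋊[φ] Γ) (-(α.app Γ b)) := by
    rw [map_neg, α.nat, α.nat]
    rw [map_add] at hab
    exact eq_neg_of_add_eq_zero_left hab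
  have hconj : ∀ (γ : Γ) (u : H.obj N), H.map (SemidirectProduct.inl : N →* N ⋊[φ] Γ)
      (H.map (φ γ⁻¹).toMonoidHom u) = H.map (SemidirectProduct.inl : N →* N ⋊[φ] Γ) u := by
    intro γ u
    have e : (SemidirectProduct.inl : N →* N ⋊[φ] Γ).comp (φ γ⁻¹).toMonoidHom =
        (MulAut.conj (SemidirectProduct.inr γ⁻¹ : N ⋊[φ] Γ)).toMonoidHom.comp
          (SemidirectProduct.inl : N →* N ⋊[φ] Γ) := by
      ext1 n
      change (SemidirectProduct.inl (φ γ⁻¹ n) : N ⋊[φ] Γ) =
        SemidirectProduct.inr γ⁻¹ * SemidirectProduct.inl n * (SemidirectProduct.inr γ⁻¹)⁻¹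
      rw [SemidirectProduct.inl_aut, ← map_inv]
    rw [← H.map_comp, e, H.map_conj]
  let q := QuotientAddGroup.mk' (imC us α C)
  let g : Finset X → H.obj (N ⋊[φ] Γ) ⧸ imC us α C := fun S =>
    (q.comp (H.map (SemidirectProduct.inl : N →* N ⋊[φ] Γ))) (c S) -
      q (H.map (1 : N →* N ⋊[φ] Γ) a)
  have hmoeb : ∀ S : Finset X, S.Nonempty → moeb g S =
      q (H.map (SemidirectProduct.inl : N →* N ⋊[φ] Γ) (moeb c S)) := by
    intro S hS
    rw [show moeb g S = moeb (fun S => (q.comp
      (H.map (SemidirectProduct.inl : N →* N ⋊[φ] Γ))) (c S)) S from moeb_sub_const _ _ S hS,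
      moeb_map]
    rfl
  have hmain := smul_eq_zero_of_moeb hst g F ?_ ?_ m ?_ ?_
  · have e1 : g F = q (H.map (SemidirectProduct.inl : N →* N ⋊[φ] Γ) a -
        H.map (1 : N →* N ⋊[φ] Γ) a) := by
      change q (H.map (SemidirectProduct.inl : N →* N ⋊[φ] Γ) (c F)) - _ = _
      rw [show c F = a from hF, map_sub]
    rw [e1, ← map_nsmul] at hmain
    have h1 : m • (H.map (SemidirectProduct.inl : N →* N ⋊[φ] Γ) a -
        H.map (1 : N →* N ⋊[φ] Γ) a) ∈ imC us α C := (QuotientAddGroup.eq_zero_iff _).mp hmain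
    have h2 : H.map (SemidirectProduct.inr : Γ →* N ⋊[φ] Γ) (b + H.map (1 : N →* Γ) a) ∈
        imC us α C := by
      apply AddSubgroup.subset_closure
      refine Or.inl ⟨_, ?_, rfl⟩
      have h3 := congrArg (E.gmap R (SemidirectProduct.rightHom : N ⋊[φ] Γ →* Γ)) hab
      rw [map_zero, α.nat, map_add, ← H.map_comp, ← H.map_comp,
        SemidirectProduct.rightHom_comp_inl, SemidirectProduct.rightHom_comp_inr, H.map_id] at h3
      rw [add_comm]
      exact h3
    have h4 := (imC us α C).add_mem h1 ((imC us α C).nsmul_mem h2 m)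
    rw [← nsmul_add] at h4
    convert h4 using 2
    rw [map_add, ← H.map_comp]
    have e2 : (SemidirectProduct.inr : Γ →* N ⋊[φ] Γ).comp (1 : N →* Γ) = 1 := by
      ext1 n
      rw [MonoidHom.comp_apply, MonoidHom.one_apply, map_one]
      rfl
    rw [e2]
    abel
  · intro S
    change (q.comp _) (c S) - _ = (q.comp _) (c (S ∩ F)) - _
    rw [hcF S]
  · change q (H.map (SemidirectProduct.inl : N →* N ⋊[φ] Γ) (c ∅)) - _ = 0
    have e0 : us.e ((∅ : Finset X) : Set X) = 1 := by
      ext1 n
      rw [Finset.coe_empty, us.empty]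
      rfl
    have e1 : c ∅ = H.map (1 : N →* N) a := by
      change H.map (us.e ((∅ : Finset X) : Set X)) a = _
      rw [e0]
    rw [e1, ← H.map_comp]
    have e2 : (SemidirectProduct.inl : N →* N ⋊[φ] Γ).comp (1 : N →* N) = 1 := by
      ext1 n
      rw [MonoidHom.comp_apply, MonoidHom.one_apply, map_one]
      rfl
    rw [e2, sub_self]
  · intro S _ hne
    exact hm _ (finite_stabV hst S hne)
  · intro S _ hne Y hY
    by_cases hSC : S ∈ C
    · let z : H.obj N := ∑ y ∈ Y, H.map (φ y⁻¹).toMonoidHom (moeb c (y • S))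
      have hfix : ∀ U : Finset X, H.map (us.e (U : Set X)) (moeb c U) = moeb c U := by
        intro U
        rw [← moeb_map (H.map (us.e (U : Set X))) c U]
        unfold moeb
        apply Finset.sum_congr rfl
        intro T hT
        congr 1
        change H.map (us.e (U : Set X)) (H.map (us.e (T : Set X)) a) = H.map (us.e (T : Set X)) a
        rw [e_e, Finset.inter_eq_right.mpr (Finset.mem_powerset.mp hT)]
      have hz1 : H.map (us.e (S : Set X)) z = z := by
        rw [map_sum]
        apply Finset.sum_congr rfl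
        intro y _
        have e1 : (us.e (S : Set X)).comp (φ y⁻¹).toMonoidHom =
            ((φ y⁻¹).toMonoidHom).comp (us.e ((y • S : Finset X) : Set X)) := by
          ext1 n
          change us.e (S : Set X) (φ y⁻¹ n) = φ y⁻¹ (us.e ((y • S : Finset X) : Set X) n)
          rw [us.equivariant, Finset.coe_smul_finset, inv_smul_smul]
        rw [← H.map_comp, e1, H.map_comp, hfix]
      have hz2 : α.app N z = 0 := by
        rw [map_sum]
        rw [← key_moeb us hst F (α.app N a) hxF (-(α.app Γ b)) hxy S hne Y hY]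
        apply Finset.sum_congr rfl
        intro y _
        rw [← α.nat]
        congr 1
        rw [← moeb_map (α.app N) c]
        congr 1
        funext U
        exact (α.nat _ a).symm
      let w' : H.obj (us.part (S : Set X)) := H.map (us.e (S : Set X)).rangeRestrict z
      have hw1 : α.app _ w' = 0 := by
        rw [← α.nat, hz2, map_zero]
      have hw2 : H.map (us.partIncl (S : Set X)) w' =
          H.map (SemidirectProduct.inl : N →* N ⋊[φ] Γ) z := by
        conv_rhs => rw [← hz1]
        rw [← H.map_comp, ← H.map_comp]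
        rfl
      have hmem : H.map (SemidirectProduct.inl : N →* N ⋊[φ] Γ) z ∈ imC us α C := by
        rw [← hw2]
        exact AddSubgroup.subset_closure (Or.inr ⟨S, hSC, w', hw1, rfl⟩)
      have hq : q (H.map (SemidirectProduct.inl : N →* N ⋊[φ] Γ) z) = 0 :=
        (QuotientAddGroup.eq_zero_iff _).mpr hmem
      rw [← hq, map_sum, map_sum]
      apply Finset.sum_congr rfl
      intro y _
      rw [hmoeb _ hne.smul_finset, hconj]
    · apply Finset.sum_eq_zero
      intro y _
      rw [hmoeb _ hne.smul_finset, hκ0 _ (hinv S hSC y), map_zero, map_zero]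

end KernelU

end Pool.Agent.Y477.IW
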